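import Pool.Agent.SqSig.L2
import Pool.Agent.Lib.ANT.PNT
import Pool.Agent.Lib.Sieve.Residue

/-!
# The main term
-/

set_option autoImplicit false

open Complex ArithmeticFunction
open scoped ArithmeticFunction.Moebius

namespace Pool.Agent.SqSig

open Pool.Agent.ANT

/-- `μ(d) log d` -/
noncomputable def aa (d : ℕ) : ℝ := (μ d : ℝ) * Real.log d

/-- the main sum -/
noncomputable def VV (D : ℕ) : ℝ := ∑ d ∈ Finset.Ioc 0 D, aa d / d

lemma aa_abs (d : ℕ) : |aa d| ≤ Real.log d := by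
  unfold aa
  have hlog0 : 0 ≤ Real.log d := Real.log_natCast_nonneg d
  rw [abs_mul, abs_of_nonneg hlog0]
  have h2 : |((μ d : ℤ) : ℝ)| ≤ 1 := by
    have := ArithmeticFunction.abs_moebius_le_one (n := d)
    exact_mod_cast this
  calc |((μ d : ℤ) : ℝ)| * Real.log d ≤ 1 * Real.log d := mul_le_mul_of_nonneg_right h2 hlog0
    _ = _ := one_mul _

lemma aa_zero {d : ℕ} (hd : ¬ Squarefree d) : aa d = 0 := by
  unfold aa
  rw [ArithmeticFunction.moebius_eq_zero_of_not_squarefree hd]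
  simp

lemma sh_eq {D n : ℕ} (hn : 1 ≤ n) :
    sh D n = - ∑ d ∈ Finset.Ioc 0 D, if d ∣ n then aa d else 0 := by
  unfold sh
  congr 1
  rw [← Finset.sum_filter, ← Finset.sum_filter]
  refine Finset.sum_congr ?_ fun _ _ => rfl
  ext d
  simp only [Finset.mem_filter, Nat.mem_divisors, Finset.mem_Ioc]
  constructor
  · rintro ⟨⟨h1, h2⟩, h3⟩
    exact ⟨⟨Nat.pos_of_dvd_of_pos h1 hn, h3⟩, h1⟩
  · rintro ⟨⟨h1, h2⟩, h3⟩
    exact ⟨⟨h3, by omega⟩, h2⟩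

lemma log_le_two_sqrt {x : ℝ} (hx : 0 < x) : Real.log x ≤ 2 * Real.sqrt x := by
  have h1 : Real.log x = 2 * Real.log (Real.sqrt x) := by
    rw [Real.log_sqrt hx.le]; ring
  rw [h1]
  have h2 := Real.log_le_sub_one_of_pos (Real.sqrt_pos.mpr hx)
  linarith

lemma sum_aa_le (D : ℕ) : ∑ d ∈ Finset.Ioc 0 D, |aa d| ≤ D * (2 * Real.sqrt D) := by
  have h1 : ∀ d ∈ Finset.Ioc 0 D, |aa d| ≤ 2 * Real.sqrt D := by
    intro d hd
    obtain ⟨h1, h2⟩ := Finset.mem_Ioc.mp hd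
    have hd0 : (0:ℝ) < d := by exact_mod_cast h1
    refine (aa_abs d).trans ((log_le_two_sqrt hd0).trans ?_)
    have : Real.sqrt d ≤ Real.sqrt D := Real.sqrt_le_sqrt (by exact_mod_cast h2)
    linarith
  refine (Finset.sum_le_sum h1).trans (le_of_eq ?_)
  rw [Finset.sum_const, nsmul_eq_mul, Nat.card_Ioc, Nat.sub_zero]

lemma sum_sh (D X : ℕ) : |∑ n ∈ Finset.Ioc 0 X, sh D n + X * VV D| ≤ D * (2 * Real.sqrt D) := by
  have h1 : ∑ n ∈ Finset.Ioc 0 X, sh D n = - ∑ d ∈ Finset.Ioc 0 D, aa d * ((X / d : ℕ) : ℝ) := by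
    rw [Finset.sum_congr rfl fun n hn => sh_eq (D := D) (Finset.mem_Ioc.mp hn).1,
      Finset.sum_neg_distrib, Finset.sum_comm]
    congr 1
    refine Finset.sum_congr rfl fun d hd => ?_
    rw [← Finset.sum_filter, Finset.sum_const, nsmul_eq_mul,
      Nat.Ioc_filter_dvd_card_eq_div, mul_comm]
  have h2 : ∑ n ∈ Finset.Ioc 0 X, sh D n + X * VV D =
      ∑ d ∈ Finset.Ioc 0 D, aa d * ((X:ℝ) / d - ((X / d : ℕ) : ℝ)) := by
    rw [h1]
    unfold VV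
    rw [Finset.mul_sum, ← Finset.sum_neg_distrib, ← Finset.sum_add_distrib]
    exact Finset.sum_congr rfl fun d _ => by ring
  rw [h2]
  refine (Finset.abs_sum_le_sum_abs _ _).trans (le_trans (Finset.sum_le_sum fun d hd => ?_)
    (sum_aa_le D))
  rw [abs_mul]
  have hd0 : (0:ℝ) < d := by exact_mod_cast (Finset.mem_Ioc.mp hd).1
  have h3 : |(X:ℝ) / d - ((X / d : ℕ) : ℝ)| ≤ 1 := by
    have e1 : ((X / d : ℕ) : ℝ) ≤ X / d := Nat.cast_div_le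
    have e2 : (X:ℝ) / d < ((X / d : ℕ) : ℝ) + 1 := by
      rw [div_lt_iff₀ hd0]
      have := Nat.lt_mul_div_succ X (show 0 < d by exact_mod_cast hd0)
      have h5 : (X:ℝ) < d * (((X / d : ℕ) : ℝ) + 1) := by exact_mod_cast this
      linarith
    rw [abs_le]; constructor <;> linarith
  calc |aa d| * |(X:ℝ) / d - ((X / d : ℕ) : ℝ)| ≤ |aa d| * 1 :=
        mul_le_mul_of_nonneg_left h3 (abs_nonneg _)
    _ = _ := mul_one _

lemma VV_bound : ∃ C : ℝ, 0 < C ∧ ∀ D : ℕ, 3 ≤ D → |1 + VV D| ≤ C / Real.log D := by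
  obtain ⟨C1, hC1, h1⟩ := psi_pnt 1
  obtain ⟨C2, hC2, h2⟩ := er_fourier 4 (by norm_num)
  refine ⟨C1 + 9 * C2 + 4, by positivity, fun D hD => ?_⟩
  have hDR : (3:ℝ) ≤ D := by exact_mod_cast hD
  have hlD : 0 < Real.log D := Real.log_pos (by linarith)
  set X := D ^ 3 with hX
  have hX3 : (3:ℝ) ≤ (X:ℝ) := by
    rw [hX]; push_cast
    nlinarith [sq_nonneg (D:ℝ), mul_pos (show (0:ℝ) < D by linarith) (show (0:ℝ) < D by linarith)]
  have hX0 : (0:ℝ) < X := by linarith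
  have hlX : Real.log X = 3 * Real.log D := by rw [hX]; push_cast; rw [Real.log_pow]; norm_num
  have e1 := h1 X hX3
  have hset : Finset.Icc 1 ⌊(X:ℝ)⌋₊ = Finset.Ioc 0 X := by
    rw [Nat.floor_natCast]; rfl
  rw [hset, pow_one] at e1
  have e2 := h2 D X 0 (by omega) (by exact_mod_cast (by linarith : (1:ℝ) ≤ X))
  have e3 : ‖∑ n ∈ Finset.Ioc 0 X, (er D n : ℂ) * ee (n * 0)‖ = |∑ n ∈ Finset.Ioc 0 X, er D n| := by
    have : ∑ n ∈ Finset.Ioc 0 X, (er D n : ℂ) * ee (n * 0) = ((∑ n ∈ Finset.Ioc 0 X, er D n : ℝ) : ℂ) := by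
      push_cast
      refine Finset.sum_congr rfl fun n _ => ?_
      rw [mul_zero, ee_zero, mul_one]
    rw [this, Complex.norm_real, Real.norm_eq_abs]
  rw [e3] at e2
  have e4 := sum_sh D X
  have e5 : ∑ n ∈ Finset.Ioc 0 X, Λ n = ∑ n ∈ Finset.Ioc 0 X, sh D n + ∑ n ∈ Finset.Ioc 0 X, er D n := by
    rw [← Finset.sum_add_distrib]
    exact Finset.sum_congr rfl fun n _ => lam_eq D n
  have e6 : C2 * X * (1 + Real.log X) ^ 2 / (2 * (4:ℕ) + Real.log D) ^ 4 ≤ 9 * C2 / Real.log D * X := by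
    rw [hlX]
    have hq : 0 < 8 + Real.log D := by linarith
    have h3 : (1 + 3 * Real.log D) ^ 2 ≤ 9 * (8 + Real.log D) ^ 2 := by nlinarith
    push_cast
    have h4 : (2 * 4 + Real.log D) = 8 + Real.log D := by ring
    rw [h4]
    rw [div_le_iff₀ (by positivity)]
    have h5 : Real.log D ≤ (8 + Real.log D) ^ 2 := by nlinarith
    have h6 : 9 * C2 / Real.log D * X * (8 + Real.log D) ^ 4 =
        C2 * X * (9 * (8 + Real.log D) ^ 2 * ((8 + Real.log D) ^ 2 / Real.log D)) := by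
      field_simp
    rw [h6]
    have h7 : 1 ≤ (8 + Real.log D) ^ 2 / Real.log D := by
      rw [le_div_iff₀ hlD]; linarith
    have h8 : (1 + 3 * Real.log D) ^ 2 ≤ 9 * (8 + Real.log D) ^ 2 * ((8 + Real.log D) ^ 2 / Real.log D) := by
      have : 0 ≤ 9 * (8 + Real.log D) ^ 2 := by positivity
      nlinarith
    exact mul_le_mul_of_nonneg_left h8 (by positivity)
  have e7 : (D:ℝ) * (2 * Real.sqrt D) ≤ 4 / Real.log D * X := by
    rw [div_mul_eq_mul_div, le_div_iff₀ hlD]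
    have h3 := log_le_two_sqrt (show (0:ℝ) < D by linarith)
    have h4 : Real.sqrt D * Real.sqrt D = D := Real.mul_self_sqrt (by linarith)
    have h5 := Real.sqrt_nonneg (D:ℝ)
    rw [hX]; push_cast
    have h6 : (D:ℝ) * (2 * Real.sqrt D) * Real.log D ≤ D * (2 * Real.sqrt D) * (2 * Real.sqrt D) :=
      mul_le_mul_of_nonneg_left h3 (by positivity)
    have h7 : (D:ℝ) * (2 * Real.sqrt D) * (2 * Real.sqrt D) = 4 * (D * D) := by
      calc (D:ℝ) * (2 * Real.sqrt D) * (2 * Real.sqrt D) = 4 * (D * (Real.sqrt D * Real.sqrt D)) := by ring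
        _ = _ := by rw [h4]
    have h8 : (D:ℝ) * D ≤ D ^ 3 := by
      have : (D:ℝ) ^ 3 = D * D * D := by ring
      rw [this]
      nlinarith [mul_pos (show (0:ℝ) < D by linarith) (show (0:ℝ) < D by linarith)]
    linarith
  have e8 : C1 * X / Real.log X ≤ C1 / Real.log D * X := by
    rw [hlX, div_mul_eq_mul_div]
    apply div_le_div_of_nonneg_left (by positivity) hlD (by linarith)
  have e9 : |X * (1 + VV D)| ≤ (C1 + 9 * C2 + 4) / Real.log D * X := by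
    have h3 : X * (1 + VV D) = -(∑ n ∈ Finset.Ioc 0 X, Λ n - X) +
        (∑ n ∈ Finset.Ioc 0 X, sh D n + X * VV D) + ∑ n ∈ Finset.Ioc 0 X, er D n := by
      rw [e5]; ring
    rw [h3]
    have h4 := abs_add_three (-(∑ n ∈ Finset.Ioc 0 X, Λ n - X)) (∑ n ∈ Finset.Ioc 0 X, sh D n + X * VV D)
      (∑ n ∈ Finset.Ioc 0 X, er D n)
    rw [abs_neg] at h4
    have h5 : (C1 + 9 * C2 + 4) / Real.log D * X = C1 / Real.log D * X + 4 / Real.log D * X +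
      9 * C2 / Real.log D * X := by ring
    rw [h5]
    linarith
  rw [abs_mul, abs_of_pos hX0, mul_comm] at e9
  exact le_of_mul_le_mul_right e9 hX0

/-! ### the counting function -/

/-- number of `x` -/
noncomputable def cnt (d e R : ℕ) : ℕ := ((Finset.Ico 1 R).filter (fun x => d ∣ x ∧ e ∣ R - x)).card

lemma cnt_zero {d e R : ℕ} (h : ¬ Nat.gcd d e ∣ R) : cnt d e R = 0 := by
  unfold cnt
  rw [Finset.card_eq_zero, Finset.filter_eq_empty_iff]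
  rintro x hx ⟨h1, h2⟩
  apply h
  obtain ⟨h3, h4⟩ := Finset.mem_Ico.mp hx
  have h5 : Nat.gcd d e ∣ x := (Nat.gcd_dvd_left d e).trans h1
  have h6 : Nat.gcd d e ∣ R - x := (Nat.gcd_dvd_right d e).trans h2
  have h7 := Nat.dvd_add h5 h6
  rwa [Nat.add_sub_cancel' h4.le] at h7

lemma cnt_est {d e R : ℕ} (hd : 0 < d) (he : 0 < e) (hR : 1 ≤ R) (h : Nat.gcd d e ∣ R) :
    |(cnt d e R : ℝ) - (R:ℝ) / (Nat.lcm d e)| ≤ 2 := by
  have hl : 0 < Nat.lcm d e := Nat.lcm_pos hd he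
  have hcomp : 0 ≡ R [MOD Nat.gcd d e] := ((Nat.modEq_zero_iff_dvd).mpr h).symm
  set z := Nat.chineseRemainder' hcomp with hz
  have hz1 : (z:ℕ) ≡ 0 [MOD d] := z.2.1
  have hz2 : (z:ℕ) ≡ R [MOD e] := z.2.2
  have hset : (Finset.Ico 1 R).filter (fun x => d ∣ x ∧ e ∣ R - x) =
      (Finset.Ico 1 (1 + (R - 1))).filter (fun x => x ≡ z [MOD Nat.lcm d e]) := by
    have h1 : 1 + (R - 1) = R := by omega
    rw [h1]
    refine Finset.filter_congr fun x hx => ?_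
    obtain ⟨h3, h4⟩ := Finset.mem_Ico.mp hx
    have h5 : e ∣ R - x ↔ x ≡ R [MOD e] := (Nat.modEq_iff_dvd' h4.le).symm
    have h6 : d ∣ x ↔ x ≡ 0 [MOD d] := Nat.modEq_zero_iff_dvd.symm
    rw [h5, h6]
    constructor
    · rintro ⟨h7, h8⟩
      exact Nat.mod_lcm (h7.trans hz1.symm) (h8.trans hz2.symm)
    · intro h7
      exact ⟨(h7.of_dvd (Nat.dvd_lcm_left d e)).trans hz1, (h7.of_dvd (Nat.dvd_lcm_right d e)).trans hz2⟩
  unfold cnt
  rw [hset]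
  have h1 := Pool.Agent.Lib.Sieve.abs_card_modEq_sub_le 1 (R - 1) hl z
  have h2 : ((R - 1 : ℕ) : ℝ) = R - 1 := by push_cast [Nat.cast_sub hR]; ring
  rw [h2] at h1
  have h3 : (0:ℝ) ≤ 1 / (Nat.lcm d e) := by positivity
  have h4 : (1:ℝ) / (Nat.lcm d e) ≤ 1 := by
    rw [div_le_one (by exact_mod_cast hl)]
    exact_mod_cast hl
  rw [sub_div] at h1
  rw [abs_le] at h1 ⊢
  constructor <;> linarith [h1.1, h1.2]

lemma sum_sq_est (S g : ℕ) (hg : 0 < g) :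
    |∑ r ∈ (Finset.Ioc 0 S).filter (fun r => g ∣ r), (r:ℝ) ^ 2 - (S:ℝ) ^ 3 / (3 * g)| ≤ 2 * (S:ℝ) ^ 2 := by
  have hgR : (0:ℝ) < g := by exact_mod_cast hg
  set K := S / g with hK
  have h1 : ∑ r ∈ (Finset.Ioc 0 S).filter (fun r => g ∣ r), (r:ℝ) ^ 2 =
      g ^ 2 * ∑ k ∈ Finset.Ioc 0 K, (k:ℝ) ^ 2 := by
    rw [Finset.mul_sum]
    symm
    refine Finset.sum_nbij' (fun k => g * k) (fun r => r / g) ?_ ?_ ?_ ?_ ?_
    · intro k hk
      obtain ⟨h1, h2⟩ := Finset.mem_Ioc.mp hk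
      refine Finset.mem_filter.mpr ⟨Finset.mem_Ioc.mpr ⟨Nat.mul_pos hg h1, ?_⟩, Dvd.intro _ rfl⟩
      calc g * k ≤ g * K := Nat.mul_le_mul_left g h2
        _ ≤ S := Nat.mul_div_le S g
    · intro r hr
      obtain ⟨h1, h2⟩ := Finset.mem_filter.mp hr
      obtain ⟨h3, h4⟩ := Finset.mem_Ioc.mp h1
      exact Finset.mem_Ioc.mpr ⟨Nat.div_pos (Nat.le_of_dvd h3 h2) hg, Nat.div_le_div_right h4⟩
    · intro k _
      exact Nat.mul_div_cancel_left k hg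
    · intro r hr
      exact Nat.mul_div_cancel' (Finset.mem_filter.mp hr).2
    · intro k _
      push_cast; ring
  have h2 : ∀ K : ℕ, ∑ k ∈ Finset.Ioc 0 K, (k:ℝ) ^ 2 = K * (K + 1) * (2 * K + 1) / 6 := by
    intro K
    induction K with
    | zero => simp
    | succ n ih =>
      rw [← Finset.insert_Ioc_right_eq_Ioc_add_one (by omega), Finset.sum_insert (by simp), ih]
      push_cast
      ring
  rw [h1, h2]
  set t : ℝ := (S:ℝ) / g with ht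
  have hKt : (K:ℝ) ≤ t := Nat.cast_div_le
  have htK : t < K + 1 := by
    rw [ht, div_lt_iff₀ hgR]
    have := Nat.lt_mul_div_succ S hg
    have h5 : (S:ℝ) < g * ((K:ℝ) + 1) := by exact_mod_cast this
    linarith
  have hK0 : (0:ℝ) ≤ K := Nat.cast_nonneg K
  have hS : (S:ℝ) = g * t := by rw [ht]; field_simp
  have h3 : |(K:ℝ) * (K + 1) * (2 * K + 1) / 6 - t ^ 3 / 3| ≤ 2 * t ^ 2 := by
    have ht0 : 0 ≤ t := by linarith
    rcases Nat.eq_zero_or_pos K with h0 | h0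
    · have h4 : (K:ℝ) = 0 := by exact_mod_cast h0
      rw [h4] at htK ⊢
      have h5 : t ^ 3 ≤ t ^ 2 := by
        have : t ^ 3 = t ^ 2 * t := by ring
        rw [this]
        nlinarith [sq_nonneg t]
      have h6 : 0 ≤ t ^ 3 := by positivity
      rw [abs_le]; constructor <;> nlinarith [sq_nonneg t]
    · have hK1 : (1:ℝ) ≤ K := by exact_mod_cast h0
      have h4 : t ^ 3 ≤ (K + 1:ℝ) ^ 3 := pow_le_pow_left₀ ht0 htK.le 3
      have h5 : (K:ℝ) ^ 3 ≤ t ^ 3 := pow_le_pow_left₀ hK0 hKt 3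
      have h6 : (K:ℝ) ^ 2 ≤ t ^ 2 := pow_le_pow_left₀ hK0 hKt 2
      rw [abs_le]; constructor <;> nlinarith
  have h4 : (g:ℝ) ^ 2 * ((K:ℝ) * (K + 1) * (2 * K + 1) / 6) - (S:ℝ) ^ 3 / (3 * g) =
      g ^ 2 * ((K:ℝ) * (K + 1) * (2 * K + 1) / 6 - t ^ 3 / 3) := by
    rw [hS]; field_simp
  rw [h4, abs_mul, abs_of_pos (by positivity : (0:ℝ) < (g:ℝ) ^ 2)]
  calc (g:ℝ) ^ 2 * |(K:ℝ) * (K + 1) * (2 * K + 1) / 6 - t ^ 3 / 3| ≤ g ^ 2 * (2 * t ^ 2) :=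
        mul_le_mul_of_nonneg_left h3 (by positivity)
    _ = 2 * (g * t) ^ 2 := by ring
    _ = _ := by rw [← hS]

/-- total count -/
noncomputable def CC (S d e : ℕ) : ℝ := ∑ r ∈ Finset.Ioc 0 S, (cnt d e (r ^ 2) : ℝ)

lemma CC_est {S d e : ℕ} (hd : Squarefree d) (he : Squarefree e) :
    |CC S d e - (S:ℝ) ^ 3 / 3 * (1 / (d:ℝ)) * (1 / (e:ℝ))| ≤ 4 * (S:ℝ) ^ 2 := by
  have hd0 : 0 < d := Nat.pos_of_ne_zero hd.ne_zero
  have he0 : 0 < e := Nat.pos_of_ne_zero he.ne_zero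
  have hl : 0 < Nat.lcm d e := Nat.lcm_pos hd0 he0
  have hlR : (1:ℝ) ≤ (Nat.lcm d e : ℕ) := by exact_mod_cast hl
  set g := Nat.gcd d e with hg
  have hg0 : 0 < g := Nat.gcd_pos_of_pos_left e hd0
  have hgR : (0:ℝ) < g := by exact_mod_cast hg0
  have hgsq : Squarefree g := hd.squarefree_of_dvd (Nat.gcd_dvd_left d e)
  have hdvd : ∀ r : ℕ, g ∣ r ^ 2 ↔ g ∣ r := fun r =>
    ⟨fun h => (hgsq.dvd_pow_iff_dvd (by norm_num)).mp h, fun h => h.trans (dvd_pow_self r (by norm_num))⟩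
  have h1 : CC S d e = ∑ r ∈ (Finset.Ioc 0 S).filter (fun r => g ∣ r), (cnt d e (r ^ 2) : ℝ) := by
    unfold CC
    rw [Finset.sum_filter]
    refine Finset.sum_congr rfl fun r _ => ?_
    split_ifs with h
    · rfl
    · rw [cnt_zero (by rw [hdvd]; exact h)]; simp
  have h2 : |CC S d e - (∑ r ∈ (Finset.Ioc 0 S).filter (fun r => g ∣ r), (r:ℝ) ^ 2) / (Nat.lcm d e)| ≤
      2 * (S:ℝ) := by
    rw [h1, Finset.sum_div, ← Finset.sum_sub_distrib]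
    refine (Finset.abs_sum_le_sum_abs _ _).trans ?_
    have h3 : ∀ r ∈ (Finset.Ioc 0 S).filter (fun r => g ∣ r),
        |(cnt d e (r ^ 2) : ℝ) - (r:ℝ) ^ 2 / (Nat.lcm d e)| ≤ 2 := by
      intro r hr
      obtain ⟨h1, h2⟩ := Finset.mem_filter.mp hr
      obtain ⟨h3, h4⟩ := Finset.mem_Ioc.mp h1
      have := cnt_est hd0 he0 (R := r ^ 2) (Nat.one_le_pow _ _ h3) ((hdvd r).mpr h2)
      push_cast at this ⊢
      exact this
    refine (Finset.sum_le_sum h3).trans ?_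
    rw [Finset.sum_const, nsmul_eq_mul, mul_comm]
    have h4 : ((Finset.Ioc 0 S).filter (fun r => g ∣ r)).card ≤ S := by
      refine (Finset.card_filter_le _ _).trans ?_
      rw [Nat.card_Ioc, Nat.sub_zero]
    have h5 : (((Finset.Ioc 0 S).filter (fun r => g ∣ r)).card : ℝ) ≤ S := by exact_mod_cast h4
    linarith
  have h3 := sum_sq_est S g hg0
  set Q := ∑ r ∈ (Finset.Ioc 0 S).filter (fun r => g ∣ r), (r:ℝ) ^ 2 with hQ
  have h4 : |Q / (Nat.lcm d e) - (S:ℝ) ^ 3 / (3 * g) / (Nat.lcm d e)| ≤ 2 * (S:ℝ) ^ 2 := by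
    rw [← sub_div, abs_div, abs_of_pos (by linarith : (0:ℝ) < (Nat.lcm d e : ℕ))]
    refine (div_le_self (abs_nonneg _) hlR).trans h3
  have hgl : (g:ℝ) * (Nat.lcm d e : ℕ) = d * e := by
    have := Nat.gcd_mul_lcm d e
    exact_mod_cast this
  have h5 : (S:ℝ) ^ 3 / (3 * g) / (Nat.lcm d e) = (S:ℝ) ^ 3 / 3 * (1 / (d:ℝ)) * (1 / (e:ℝ)) := by
    have hdR : (0:ℝ) < d := by exact_mod_cast hd0
    have heR : (0:ℝ) < e := by exact_mod_cast he0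
    have : (S:ℝ) ^ 3 / (3 * g) / (Nat.lcm d e) = (S:ℝ) ^ 3 / (3 * (g * (Nat.lcm d e : ℕ))) := by
      field_simp
    rw [this, hgl]
    field_simp
  rw [h5] at h4
  have h6 : CC S d e - (S:ℝ) ^ 3 / 3 * (1 / (d:ℝ)) * (1 / (e:ℝ)) =
      (CC S d e - Q / (Nat.lcm d e)) + (Q / (Nat.lcm d e) - (S:ℝ) ^ 3 / 3 * (1 / (d:ℝ)) * (1 / (e:ℝ))) := by
    ring
  rw [h6]
  refine (abs_add_le _ _).trans ?_
  rcases Nat.eq_zero_or_pos S with hS | hS
  · subst hS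
    simp only [Nat.cast_zero] at h2 h4 ⊢
    linarith
  · have hSR : (1:ℝ) ≤ S := by exact_mod_cast hS
    nlinarith

lemma Bf_sh (S D : ℕ) : Bf S (sh D) (sh D) =
    ∑ d ∈ Finset.Ioc 0 D, ∑ e ∈ Finset.Ioc 0 D, aa d * aa e * CC S d e := by
  have h1 : ∀ r ∈ Finset.Ioc 0 S, ∑ x ∈ Finset.Ico 1 (r ^ 2), sh D x * sh D (r ^ 2 - x) =
      ∑ d ∈ Finset.Ioc 0 D, ∑ e ∈ Finset.Ioc 0 D, aa d * aa e * (cnt d e (r ^ 2) : ℝ) := by
    intro r _
    have h2 : ∀ x ∈ Finset.Ico 1 (r ^ 2), sh D x * sh D (r ^ 2 - x) =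
        ∑ d ∈ Finset.Ioc 0 D, ∑ e ∈ Finset.Ioc 0 D,
          (if d ∣ x ∧ e ∣ r ^ 2 - x then aa d * aa e else 0) := by
      intro x hx
      obtain ⟨h3, h4⟩ := Finset.mem_Ico.mp hx
      rw [sh_eq h3, sh_eq (show 1 ≤ r ^ 2 - x by omega), neg_mul_neg, Finset.sum_mul_sum]
      refine Finset.sum_congr rfl fun d _ => Finset.sum_congr rfl fun e _ => ?_
      by_cases h5 : d ∣ x <;> by_cases h6 : e ∣ r ^ 2 - x <;> simp [h5, h6]
    rw [Finset.sum_congr rfl h2, Finset.sum_comm]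
    refine Finset.sum_congr rfl fun d _ => ?_
    rw [Finset.sum_comm]
    refine Finset.sum_congr rfl fun e _ => ?_
    rw [← Finset.sum_filter, Finset.sum_const, nsmul_eq_mul, mul_comm]
    rfl
  unfold Bf
  rw [Finset.sum_congr rfl h1, Finset.sum_comm]
  refine Finset.sum_congr rfl fun d _ => ?_
  rw [Finset.sum_comm]
  refine Finset.sum_congr rfl fun e _ => ?_
  rw [← Finset.mul_sum]
  rfl

lemma Bf_sh_est (S D : ℕ) :
    |Bf S (sh D) (sh D) - (S:ℝ) ^ 3 / 3 * VV D ^ 2| ≤ 16 * (S:ℝ) ^ 2 * (D:ℝ) ^ 3 := by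
  have h1 : (S:ℝ) ^ 3 / 3 * VV D ^ 2 = ∑ d ∈ Finset.Ioc 0 D, ∑ e ∈ Finset.Ioc 0 D,
      aa d * aa e * ((S:ℝ) ^ 3 / 3 * (1 / (d:ℝ)) * (1 / (e:ℝ))) := by
    unfold VV
    rw [sq, Finset.sum_mul_sum, Finset.mul_sum]
    refine Finset.sum_congr rfl fun d _ => ?_
    rw [Finset.mul_sum]
    exact Finset.sum_congr rfl fun e _ => by ring
  rw [Bf_sh, h1, ← Finset.sum_sub_distrib]
  have h2 : ∀ d ∈ Finset.Ioc 0 D, ∀ e ∈ Finset.Ioc 0 D,
      |aa d * aa e * CC S d e - aa d * aa e * ((S:ℝ) ^ 3 / 3 * (1 / (d:ℝ)) * (1 / (e:ℝ)))| ≤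
        |aa d| * |aa e| * (4 * (S:ℝ) ^ 2) := by
    intro d _ e _
    rw [← mul_sub, abs_mul, abs_mul]
    by_cases hd : Squarefree d
    · by_cases he : Squarefree e
      · exact mul_le_mul_of_nonneg_left (CC_est hd he) (by positivity)
      · rw [aa_zero he]; simp
    · rw [aa_zero hd]; simp
  have h3 : |∑ d ∈ Finset.Ioc 0 D, (∑ e ∈ Finset.Ioc 0 D, aa d * aa e * CC S d e -
      ∑ e ∈ Finset.Ioc 0 D, aa d * aa e * ((S:ℝ) ^ 3 / 3 * (1 / (d:ℝ)) * (1 / (e:ℝ))))| ≤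
      ∑ d ∈ Finset.Ioc 0 D, ∑ e ∈ Finset.Ioc 0 D, |aa d| * |aa e| * (4 * (S:ℝ) ^ 2) := by
    refine (Finset.abs_sum_le_sum_abs _ _).trans (Finset.sum_le_sum fun d hd => ?_)
    rw [← Finset.sum_sub_distrib]
    exact (Finset.abs_sum_le_sum_abs _ _).trans (Finset.sum_le_sum fun e he => h2 d hd e he)
  refine h3.trans ?_
  have h4 : ∑ d ∈ Finset.Ioc 0 D, ∑ e ∈ Finset.Ioc 0 D, |aa d| * |aa e| * (4 * (S:ℝ) ^ 2) =
      (∑ d ∈ Finset.Ioc 0 D, |aa d|) ^ 2 * (4 * (S:ℝ) ^ 2) := by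
    rw [sq (∑ d ∈ Finset.Ioc 0 D, |aa d|), Finset.sum_mul_sum, Finset.sum_mul]
    refine Finset.sum_congr rfl fun d _ => ?_
    rw [Finset.sum_mul]
  rw [h4]
  have h5 := sum_aa_le D
  have h6 : 0 ≤ ∑ d ∈ Finset.Ioc 0 D, |aa d| := Finset.sum_nonneg fun _ _ => abs_nonneg _
  have h7 := pow_le_pow_left₀ h6 h5 2
  have h8 : ((D:ℝ) * (2 * Real.sqrt D)) ^ 2 = 4 * D ^ 3 := by
    rw [mul_pow, mul_pow, Real.sq_sqrt (Nat.cast_nonneg D)]; ring
  rw [h8] at h7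
  calc (∑ d ∈ Finset.Ioc 0 D, |aa d|) ^ 2 * (4 * (S:ℝ) ^ 2) ≤ (4 * (D:ℝ) ^ 3) * (4 * (S:ℝ) ^ 2) := by gcongr
    _ = _ := by ring

lemma tendsto_LL : Filter.Tendsto (fun S : ℕ => LL (S ^ 2)) Filter.atTop Filter.atTop := by
  unfold LL
  apply Filter.tendsto_atTop_add_const_left
  have h1 : Filter.Tendsto (fun S : ℕ => S ^ 2) Filter.atTop Filter.atTop :=
    Filter.tendsto_pow_atTop (by norm_num)
  exact Real.tendsto_log_atTop.comp (tendsto_natCast_atTop_atTop.comp h1)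

lemma tendsto_Dc : Filter.Tendsto Dc Filter.atTop Filter.atTop := by
  rw [Filter.tendsto_atTop]
  intro b
  filter_upwards [Filter.eventually_ge_atTop (b ^ 4)] with S hS
  by_contra h
  have h1 : Dc S + 1 ≤ b := by omega
  have h2 := lt_Dc_pow S
  have h3 : (Dc S + 1) ^ 4 ≤ b ^ 4 := Nat.pow_le_pow_left h1 4
  omega

/-- **Lower bound for the weighted number of representations of squares as sums of two primes.** -/
theorem main_lower : ∀ᶠ S : ℕ in Filter.atTop,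
    (S:ℝ) ^ 3 / 24 ≤ Bf S (fun n => Λ n) (fun n => Λ n) := by
  obtain ⟨C, hC, hcr⟩ := cross_small
  obtain ⟨C', hC', hV⟩ := VV_bound
  have e1 : ∀ᶠ S : ℕ in Filter.atTop, C * 96 ^ 4 ≤ LL (S ^ 2) :=
    tendsto_LL.eventually_ge_atTop _
  have e2 : ∀ᶠ D : ℕ in Filter.atTop, 2 * C' ≤ Real.log D :=
    (Real.tendsto_log_atTop.comp tendsto_natCast_atTop_atTop).eventually_ge_atTop _
  have e3 := tendsto_Dc.eventually e2
  have e4 : ∀ᶠ S : ℕ in Filter.atTop, 1000 ≤ Dc S := tendsto_Dc.eventually_ge_atTop _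
  filter_upwards [e1, e3, e4, Filter.eventually_ge_atTop 1] with S h1 h3 h4 hS
  set D := Dc S with hD
  have hSR : (1:ℝ) ≤ S := by exact_mod_cast hS
  have hDR : (1000:ℝ) ≤ D := by exact_mod_cast h4
  have hlD : 0 < Real.log D := Real.log_pos (by linarith)
  have hV1 := hV D (by omega)
  have hV2 : |1 + VV D| ≤ 1 / 2 := by
    refine hV1.trans ?_
    rw [div_le_iff₀ hlD]; linarith
  have hV3 : 1 / 4 ≤ VV D ^ 2 := by
    rw [abs_le] at hV2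
    nlinarith [hV2.1, hV2.2]
  have hmain := Bf_sh_est S D
  have hDp : (D:ℝ) ^ 4 ≤ S := by exact_mod_cast Dc_pow S
  have herr : 16 * (S:ℝ) ^ 2 * (D:ℝ) ^ 3 ≤ (S:ℝ) ^ 3 / 50 := by
    have h5 : (D:ℝ) ^ 3 * 1000 ≤ D ^ 4 := by
      have : (D:ℝ) ^ 4 = D ^ 3 * D := by ring
      rw [this]
      exact mul_le_mul_of_nonneg_left hDR (by positivity)
    have h6 : (D:ℝ) ^ 3 ≤ S / 1000 := by linarith
    calc 16 * (S:ℝ) ^ 2 * (D:ℝ) ^ 3 ≤ 16 * (S:ℝ) ^ 2 * ((S:ℝ) / 1000) := by gcongr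
      _ = 16 / 1000 * (S:ℝ) ^ 3 := by ring
      _ ≤ (S:ℝ) ^ 3 / 50 := by
        have : (0:ℝ) ≤ S ^ 3 := by positivity
        nlinarith
  have hcross : ∀ f : ℕ → ℝ, ∑ n ∈ Finset.Ioc 0 (S ^ 2), f n ^ 2 ≤ (S ^ 2 : ℕ) * LL (S ^ 2) ^ 5 →
      |Bf S f (er D)| ≤ S ^ 3 / 96 := by
    intro f hf
    have h5 := hcr S f hS hf
    have hL := one_le_LL (S ^ 2)
    have h6 : C * ((S:ℝ) ^ 3) ^ 4 / LL (S ^ 2) ^ 3 ≤ (S ^ 3 / 96) ^ 4 := by
      rw [div_le_iff₀ (by positivity)]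
      have h7 : LL (S ^ 2) ≤ LL (S ^ 2) ^ 3 := by
        calc LL (S ^ 2) = LL (S ^ 2) ^ 1 := (pow_one _).symm
          _ ≤ _ := pow_le_pow_right₀ hL (by norm_num)
      have h8 : C * 96 ^ 4 ≤ LL (S ^ 2) ^ 3 := h1.trans h7
      have h9 : ((S:ℝ) ^ 3 / 96) ^ 4 * LL (S ^ 2) ^ 3 = ((S:ℝ) ^ 3) ^ 4 / 96 ^ 4 * LL (S ^ 2) ^ 3 := by
        ring
      rw [h9]
      calc C * ((S:ℝ) ^ 3) ^ 4 = ((S:ℝ) ^ 3) ^ 4 / 96 ^ 4 * (C * 96 ^ 4) := by ring
        _ ≤ _ := by gcongr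
    have h10 : |Bf S f (er D)| ^ 4 ≤ ((S:ℝ) ^ 3 / 96) ^ 4 := by
      have : |Bf S f (er D)| ^ 4 = Bf S f (er D) ^ 4 := by
        have e : |Bf S f (er D)| ^ 4 = (|Bf S f (er D)| ^ 2) ^ 2 := by ring
        rw [e, sq_abs]; ring
      rw [this]
      exact h5.trans h6
    exact le_of_pow_le_pow_left₀ (by norm_num) (by positivity) h10
  have hc1 := hcross (fun n => Λ n) (l2_lam (S ^ 2))
  have hc2 := hcross (sh D) (l2_sh D (S ^ 2))
  rw [Bf_split S D]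
  rw [abs_le] at hmain hc1 hc2
  have h11 : (S:ℝ) ^ 3 / 3 * (1 / 4) ≤ (S:ℝ) ^ 3 / 3 * VV D ^ 2 :=
    mul_le_mul_of_nonneg_left hV3 (by positivity)
  have h12 : (0:ℝ) ≤ S ^ 3 := by positivity
  linarith [hmain.1, hc1.1, hc2.1]

end Pool.Agent.SqSig
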