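import Pool.Agent.SqSig.Four

/-!
# The bilinear form over squares
-/

set_option autoImplicit false

open Complex

namespace Pool.Agent.SqSig

open Pool.Agent.ANT

/-- sum over `x + y = r²` -/
noncomputable def Bf (S : ℕ) (f g : ℕ → ℝ) : ℝ :=
  ∑ r ∈ Finset.Ioc 0 S, ∑ x ∈ Finset.Ico 1 (r ^ 2), f x * g (r ^ 2 - x)

/-- exponential sum -/
noncomputable def Fs (X : ℕ) (f : ℕ → ℝ) (α : ℝ) : ℂ :=
  ∑ n ∈ Finset.Ioc 0 X, (f n : ℂ) * ee (n * α)

lemma Fs_parseval {X M : ℕ} (h : X < M) (f : ℕ → ℝ) :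
    ∑ j ∈ Finset.range M, ‖Fs X f ((j:ℝ) / M)‖ ^ 2 = M * ∑ n ∈ Finset.Ioc 0 X, f n ^ 2 := by
  set f' : ℕ → ℂ := fun n => if n ∈ Finset.Ioc 0 X then (f n : ℂ) else 0 with hf'
  have hP2 := parseval M f'
  have hsub : Finset.Ioc 0 X ⊆ Finset.range M := by
    intro n hn
    have := Finset.mem_Ioc.mp hn
    exact Finset.mem_range.mpr (by omega)
  have hF' : ∀ α : ℝ, ∑ n ∈ Finset.range M, f' n * ee (n * α) = Fs X f α := by
    intro α
    simp only [Fs, hf']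
    symm
    rw [← Finset.sum_subset hsub]
    · exact Finset.sum_congr rfl fun n hn => by rw [if_pos hn]
    · intro n _ hn; rw [if_neg hn, zero_mul]
  have hf2 : ∑ n ∈ Finset.range M, ‖f' n‖ ^ 2 = ∑ n ∈ Finset.Ioc 0 X, f n ^ 2 := by
    simp only [hf']
    symm
    rw [← Finset.sum_subset hsub]
    · refine Finset.sum_congr rfl fun n hn => ?_
      rw [if_pos hn, Complex.norm_real, Real.norm_eq_abs, sq_abs]
    · intro n _ hn; rw [if_neg hn]; simp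
  rw [← hf2, ← hP2]
  exact Finset.sum_congr rfl fun j _ => by rw [hF']

lemma Bf_fourier (S M : ℕ) (hM : 2 * S ^ 2 < M) (f g : ℕ → ℝ) :
    ∑ j ∈ Finset.range M, Fs (S ^ 2) f ((j:ℝ) / M) * Fs (S ^ 2) g ((j:ℝ) / M) *
      (starRingEnd ℂ) (Wsq S ((j:ℝ) / M)) = M * (Bf S f g : ℂ) := by
  classical
  set X := S ^ 2 with hX
  set PP := Finset.Ioc 0 X ×ˢ Finset.Ioc 0 X with hPP
  set c : ℕ → ℂ := fun N => ∑ x ∈ PP.filter (fun x => x.1 + x.2 = N), (f x.1 : ℂ) * (g x.2 : ℂ)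
    with hc
  have hcN : ∀ N ∈ Finset.Ioc 0 X, ∑ n ∈ Finset.Ico 1 N, (f n : ℂ) * (g (N - n) : ℂ) = c N := by
    intro N hN
    obtain ⟨hN1, hN2⟩ := Finset.mem_Ioc.mp hN
    simp only [hc]
    refine Finset.sum_bij' (fun n _ => (n, N - n)) (fun x _ => x.1) ?_ ?_ ?_ ?_ ?_
    · intro n hn
      obtain ⟨hn1, hn2⟩ := Finset.mem_Ico.mp hn
      refine Finset.mem_filter.mpr ⟨Finset.mem_product.mpr ⟨Finset.mem_Ioc.mpr ⟨?_, ?_⟩,
        Finset.mem_Ioc.mpr ⟨?_, ?_⟩⟩, ?_⟩ <;> simp only <;> omega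
    · intro x hx
      obtain ⟨hx1, hx2⟩ := Finset.mem_filter.mp hx
      obtain ⟨hx3, hx4⟩ := Finset.mem_product.mp hx1
      have := Finset.mem_Ioc.mp hx3
      have := Finset.mem_Ioc.mp hx4
      exact Finset.mem_Ico.mpr ⟨by omega, by omega⟩
    · intro n _; rfl
    · intro x hx
      obtain ⟨hx1, hx2⟩ := Finset.mem_filter.mp hx
      ext
      · rfl
      · simp only; omega
    · intro n _; rfl
  have hFG : ∀ α : ℝ, ∑ N ∈ Finset.range M, c N * ee (N * α) = Fs X f α * Fs X g α := by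
    intro α
    simp only [Fs]
    rw [Finset.sum_mul_sum, ← Finset.sum_product']
    rw [← Finset.sum_fiberwise_of_maps_to (t := Finset.range M) (g := fun x : ℕ × ℕ => x.1 + x.2)]
    · refine Finset.sum_congr rfl fun N _ => ?_
      simp only [hc]
      rw [Finset.sum_mul]
      refine Finset.sum_congr rfl fun x hx => ?_
      have hx2 := (Finset.mem_filter.mp hx).2
      rw [← hx2]
      have : (((x.1 + x.2 : ℕ) : ℝ) * α) = x.1 * α + x.2 * α := by push_cast; ring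
      rw [this, ee_add]; ring
    · intro x hx
      obtain ⟨hx3, hx4⟩ := Finset.mem_product.mp hx
      have := Finset.mem_Ioc.mp hx3
      have := Finset.mem_Ioc.mp hx4
      exact Finset.mem_range.mpr (by omega)
  have hr : ∀ r ∈ Finset.Ioc 0 S, r ^ 2 ∈ Finset.Ioc 0 X := by
    intro r hr
    obtain ⟨h1, h2⟩ := Finset.mem_Ioc.mp hr
    exact Finset.mem_Ioc.mpr ⟨by positivity, Nat.pow_le_pow_left h2 2⟩
  have hB : (Bf S f g : ℂ) = ∑ r ∈ Finset.Ioc 0 S, c (r ^ 2) := by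
    unfold Bf
    push_cast
    exact Finset.sum_congr rfl fun r hr' => hcN _ (hr r hr')
  rw [hB, Finset.mul_sum]
  have e1 : ∀ j ∈ Finset.range M, Fs X f ((j:ℝ) / M) * Fs X g ((j:ℝ) / M) *
      (starRingEnd ℂ) (Wsq S ((j:ℝ) / M)) = ∑ r ∈ Finset.Ioc 0 S, ∑ N ∈ Finset.range M,
        c N * (ee (N * ((j:ℝ) / M)) * (starRingEnd ℂ) (ee (((r ^ 2 : ℕ) : ℝ) * ((j:ℝ) / M)))) := by
    intro j _
    rw [← hFG]
    unfold Wsq
    rw [map_sum, Finset.mul_sum]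
    refine Finset.sum_congr rfl fun r _ => ?_
    rw [Finset.sum_mul]
    exact Finset.sum_congr rfl fun N _ => by ring
  rw [Finset.sum_congr rfl e1, Finset.sum_comm]
  refine Finset.sum_congr rfl fun r hr' => ?_
  have hrX := Finset.mem_Ioc.mp (hr r hr')
  have hrM : r ^ 2 < M := by omega
  rw [Finset.sum_comm]
  simp_rw [← Finset.mul_sum]
  rw [Finset.sum_eq_single (r ^ 2)]
  · rw [orth_ee hrM hrM, if_pos rfl]; ring
  · intro b hb hba
    rw [orth_ee (Finset.mem_range.mp hb) hrM, if_neg hba, mul_zero]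
  · intro h; exact absurd (Finset.mem_range.mpr hrM) h

theorem Bf_bound (S : ℕ) (f g : ℕ → ℝ) (K : ℝ) (hK : ∀ α : ℝ, ‖Fs (S ^ 2) g α‖ ≤ K) :
    (Bf S f g) ^ 4 ≤ (∑ n ∈ Finset.Ioc 0 (S ^ 2), f n ^ 2) ^ 2 *
      (K ^ 2 * ∑ n ∈ Finset.Ioc 0 (S ^ 2), g n ^ 2) * (Q4 S).card := by
  set M := 2 * S ^ 2 + 1 with hM
  have hM0 : (0:ℝ) < M := by positivity
  have hK0 : 0 ≤ K := (norm_nonneg _).trans (hK 0)
  have h1 := Bf_fourier S M (by omega) f g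
  set F : ℕ → ℝ := fun j => ‖Fs (S ^ 2) f ((j:ℝ) / M)‖ with hF
  set G : ℕ → ℝ := fun j => ‖Fs (S ^ 2) g ((j:ℝ) / M)‖ with hG
  set W : ℕ → ℝ := fun j => ‖Wsq S ((j:ℝ) / M)‖ with hW
  have h2 : M * |Bf S f g| ≤ ∑ j ∈ Finset.range M, F j * (G j * W j) := by
    have h3 : ‖(M * (Bf S f g : ℂ) : ℂ)‖ = M * |Bf S f g| := by
      rw [norm_mul, Complex.norm_natCast, Complex.norm_real, Real.norm_eq_abs]
    rw [← h3, ← h1]
    refine (norm_sum_le _ _).trans (le_of_eq (Finset.sum_congr rfl fun j _ => ?_))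
    rw [norm_mul, norm_mul, RCLike.norm_conj, mul_assoc]
  have hFp : ∑ j ∈ Finset.range M, F j ^ 2 = M * ∑ n ∈ Finset.Ioc 0 (S ^ 2), f n ^ 2 :=
    Fs_parseval (by omega) f
  have hGp : ∑ j ∈ Finset.range M, G j ^ 2 = M * ∑ n ∈ Finset.Ioc 0 (S ^ 2), g n ^ 2 :=
    Fs_parseval (by omega) g
  have hWp : ∑ j ∈ Finset.range M, W j ^ 4 = M * (Q4 S).card := four_moment S M (by omega)
  set a := ∑ n ∈ Finset.Ioc 0 (S ^ 2), f n ^ 2 with ha
  set b := ∑ n ∈ Finset.Ioc 0 (S ^ 2), g n ^ 2 with hb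
  have ha0 : 0 ≤ a := Finset.sum_nonneg fun _ _ => sq_nonneg _
  have hb0 : 0 ≤ b := Finset.sum_nonneg fun _ _ => sq_nonneg _
  -- first Cauchy-Schwarz
  have h4 : (∑ j ∈ Finset.range M, F j * (G j * W j)) ^ 2 ≤
      (M * a) * ∑ j ∈ Finset.range M, (G j * W j) ^ 2 := by
    rw [← hFp]
    exact Finset.sum_mul_sq_le_sq_mul_sq _ _ _
  have h5 : (∑ j ∈ Finset.range M, G j ^ 2 * W j ^ 2) ^ 2 ≤
      (∑ j ∈ Finset.range M, (G j ^ 2) ^ 2) * ∑ j ∈ Finset.range M, (W j ^ 2) ^ 2 :=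
    Finset.sum_mul_sq_le_sq_mul_sq _ _ _
  have h6 : ∑ j ∈ Finset.range M, (G j ^ 2) ^ 2 ≤ K ^ 2 * (M * b) := by
    rw [← hGp, Finset.mul_sum]
    refine Finset.sum_le_sum fun j _ => ?_
    have hg0 : 0 ≤ G j := norm_nonneg _
    have hg1 : G j ≤ K := hK _
    have h7 : G j ^ 2 ≤ K ^ 2 := pow_le_pow_left₀ hg0 hg1 2
    calc (G j ^ 2) ^ 2 = G j ^ 2 * G j ^ 2 := by ring
      _ ≤ K ^ 2 * G j ^ 2 := mul_le_mul_of_nonneg_right h7 (sq_nonneg _)
  have h8 : ∑ j ∈ Finset.range M, (W j ^ 2) ^ 2 = M * (Q4 S).card := by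
    rw [← hWp]
    exact Finset.sum_congr rfl fun j _ => by ring
  have h9 : ∑ j ∈ Finset.range M, (G j * W j) ^ 2 = ∑ j ∈ Finset.range M, G j ^ 2 * W j ^ 2 :=
    Finset.sum_congr rfl fun j _ => by ring
  rw [h9] at h4
  set T := ∑ j ∈ Finset.range M, G j ^ 2 * W j ^ 2 with hT
  have hT0 : 0 ≤ T := Finset.sum_nonneg fun _ _ => by positivity
  have h10 : (M * |Bf S f g|) ^ 4 ≤ (M * a) ^ 2 * (K ^ 2 * (M * b) * (M * (Q4 S).card)) := by
    have h11 : (M * |Bf S f g|) ^ 2 ≤ M * a * T := by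
      refine le_trans (pow_le_pow_left₀ (by positivity) h2 2) h4
    calc (M * |Bf S f g|) ^ 4 = ((M * |Bf S f g|) ^ 2) ^ 2 := by ring
      _ ≤ (M * a * T) ^ 2 := pow_le_pow_left₀ (by positivity) h11 2
      _ = (M * a) ^ 2 * T ^ 2 := by ring
      _ ≤ (M * a) ^ 2 * (K ^ 2 * (M * b) * (M * (Q4 S).card)) := by
          gcongr
          refine h5.trans ?_
          rw [h8]
          gcongr
  have h12 : (M:ℝ) ^ 4 * (Bf S f g) ^ 4 ≤ M ^ 4 * (a ^ 2 * (K ^ 2 * b) * (Q4 S).card) := by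
    calc (M:ℝ) ^ 4 * (Bf S f g) ^ 4 = (M * |Bf S f g|) ^ 4 := by
          rw [mul_pow]
          congr 1
          have : |Bf S f g| ^ 4 = (|Bf S f g| ^ 2) ^ 2 := by ring
          rw [this, sq_abs]
          ring
      _ ≤ _ := h10
      _ = _ := by ring
  exact le_of_mul_le_mul_left h12 (by positivity)

end Pool.Agent.SqSig
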