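import Pool.Agent.Lib.Sieve.TwoDim

/-!
# Lower bound for the bounding sum in dimension four
-/

set_option autoImplicit false

open Finset

namespace Pool.Agent.SqSig

open Pool.Agent.Lib.Sieve

/-- squarefree numbers up to `T` coprime to `W` -/
def SqT (W T : ℕ) : Finset ℕ := (Icc 1 T).filter (fun l => Squarefree l ∧ Nat.Coprime l W)

/-- `∑ j ^ ω(l) / l` -/
noncomputable def FF (W j T : ℕ) : ℝ := ∑ l ∈ SqT W T, (j:ℝ) ^ l.primeFactors.card / l

lemma FF_nonneg (W j T : ℕ) : 0 ≤ FF W j T := Finset.sum_nonneg fun _ _ => by positivity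

lemma mem_SqT {W T l : ℕ} : l ∈ SqT W T ↔ (1 ≤ l ∧ l ≤ T) ∧ Squarefree l ∧ Nat.Coprime l W := by
  unfold SqT
  rw [mem_filter, mem_Icc]

/-- the target of the injection -/
noncomputable def TT (W T : ℕ) : Finset (ℕ × ((_ : ℕ) × ℕ)) :=
  ((Icc 1 T).filter Squarefree) ×ˢ ((SqT W (T ^ 2)).sigma (fun n => n.divisors))

/-- the value -/
noncomputable def hh (j : ℕ) (x : ℕ × ((_ : ℕ) × ℕ)) : ℝ :=
  ((j:ℝ) ^ x.1.primeFactors.card) ^ 2 / (x.1:ℝ) ^ 2 * ((j:ℝ) ^ x.2.1.primeFactors.card / x.2.1)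

/-- the injection -/
def phi (x : ℕ × ℕ) : ℕ × ((_ : ℕ) × ℕ) :=
  (Nat.gcd x.1 x.2, ⟨(x.1 / Nat.gcd x.1 x.2) * (x.2 / Nat.gcd x.1 x.2), x.1 / Nat.gcd x.1 x.2⟩)

lemma phi_facts {W T : ℕ} {x : ℕ × ℕ} (hx : x ∈ SqT W T ×ˢ SqT W T) (j : ℕ) :
    phi x ∈ TT W T ∧ (j:ℝ) ^ x.1.primeFactors.card / x.1 * ((j:ℝ) ^ x.2.primeFactors.card / x.2) =
      hh j (phi x) := by
  obtain ⟨a, b⟩ := x
  rw [mem_product, mem_SqT, mem_SqT] at hx
  obtain ⟨⟨⟨ha1, ha2⟩, ha3, ha4⟩, ⟨hb1, hb2⟩, hb3, hb4⟩ := hx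
  simp only at ha1 ha2 ha3 ha4 hb1 hb2 hb3 hb4
  set g := Nat.gcd a b with hg
  have hg0 : 0 < g := Nat.gcd_pos_of_pos_left b ha1
  obtain ⟨a', hab⟩ : g ∣ a := Nat.gcd_dvd_left a b
  obtain ⟨b', hbb⟩ : g ∣ b := Nat.gcd_dvd_right a b
  have ha' : a / g = a' := by rw [hab]; exact Nat.mul_div_cancel_left _ hg0
  have hb' : b / g = b' := by rw [hbb]; exact Nat.mul_div_cancel_left _ hg0
  have hcop : Nat.Coprime a' b' := by
    rw [← ha', ← hb']; exact Nat.coprime_div_gcd_div_gcd hg0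
  have hsqa : Squarefree (g * a') := by rw [← hab]; exact ha3
  have hsqb : Squarefree (g * b') := by rw [← hbb]; exact hb3
  have hga : Nat.Coprime g a' := Nat.coprime_of_squarefree_mul hsqa
  have hgb : Nat.Coprime g b' := Nat.coprime_of_squarefree_mul hsqb
  have hsg : Squarefree g := hsqa.squarefree_of_dvd (Dvd.intro _ rfl)
  have hsa : Squarefree a' := hsqa.squarefree_of_dvd (Dvd.intro_left _ rfl)
  have hsb : Squarefree b' := hsqb.squarefree_of_dvd (Dvd.intro_left _ rfl)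
  have ha0 : 0 < a' := Nat.pos_of_ne_zero hsa.ne_zero
  have hb0 : 0 < b' := Nat.pos_of_ne_zero hsb.ne_zero
  have hab' : Squarefree (a' * b') := (Nat.squarefree_mul_iff).mpr ⟨hcop, hsa, hsb⟩
  have ha'a : a' ≤ a := by rw [hab]; exact Nat.le_mul_of_pos_left _ hg0
  have hb'b : b' ≤ b := by rw [hbb]; exact Nat.le_mul_of_pos_left _ hg0
  have hga2 : g ≤ a := by rw [hab]; exact Nat.le_mul_of_pos_right _ ha0
  have hphi : phi (a, b) = (g, ⟨a' * b', a'⟩) := by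
    unfold phi
    simp only [← hg, ha', hb']
  rw [hphi]
  constructor
  · unfold TT
    rw [mem_product, mem_filter, mem_Icc, mem_sigma, mem_SqT, Nat.mem_divisors]
    refine ⟨⟨⟨hg0, hga2.trans ha2⟩, hsg⟩, ⟨⟨Nat.mul_pos ha0 hb0, ?_⟩, hab', ?_⟩, Dvd.intro _ rfl,
      (Nat.mul_pos ha0 hb0).ne'⟩
    · show a' * b' ≤ T ^ 2
      rw [sq]; exact Nat.mul_le_mul (ha'a.trans ha2) (hb'b.trans hb2)
    · refine Nat.Coprime.mul_left ?_ ?_
      · exact Nat.Coprime.coprime_dvd_left (by rw [hab]; exact Dvd.intro_left _ rfl) ha4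
      · exact Nat.Coprime.coprime_dvd_left (by rw [hbb]; exact Dvd.intro_left _ rfl) hb4
  · unfold hh
    simp only
    have e1 : a.primeFactors.card = g.primeFactors.card + a'.primeFactors.card := by
      rw [hab, Nat.Coprime.primeFactors_mul hga]
      exact card_union_of_disjoint hga.disjoint_primeFactors
    have e2 : b.primeFactors.card = g.primeFactors.card + b'.primeFactors.card := by
      rw [hbb, Nat.Coprime.primeFactors_mul hgb]
      exact card_union_of_disjoint hgb.disjoint_primeFactors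
    have e3 : (a' * b').primeFactors.card = a'.primeFactors.card + b'.primeFactors.card := by
      rw [Nat.Coprime.primeFactors_mul hcop]
      exact card_union_of_disjoint hcop.disjoint_primeFactors
    have e4 : (a:ℝ) = g * a' := by rw [hab]; push_cast; ring
    have e5 : (b:ℝ) = g * b' := by rw [hbb]; push_cast; ring
    have g0 : (g:ℝ) ≠ 0 := by exact_mod_cast hg0.ne'
    have a0 : (a':ℝ) ≠ 0 := by exact_mod_cast ha0.ne'
    have b0 : (b':ℝ) ≠ 0 := by exact_mod_cast hb0.ne'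
    rw [e1, e2, e3, e4, e5]
    push_cast
    field_simp
    ring

lemma phi_inj (W T : ℕ) : Set.InjOn phi ((SqT W T ×ˢ SqT W T : Finset (ℕ × ℕ)) : Set (ℕ × ℕ)) := by
  rintro ⟨a, b⟩ hx ⟨c, d⟩ hy h
  rw [mem_coe, mem_product, mem_SqT, mem_SqT] at hx hy
  simp only at hx hy
  unfold phi at h
  simp only [Prod.mk.injEq, Sigma.mk.injEq, heq_eq_eq] at h
  obtain ⟨h1, h2, h3⟩ := h
  have hg0 : 0 < Nat.gcd a b := Nat.gcd_pos_of_pos_left b hx.1.1.1
  have ha : Nat.gcd a b * (a / Nat.gcd a b) = a := Nat.mul_div_cancel' (Nat.gcd_dvd_left a b)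
  have hb : Nat.gcd a b * (b / Nat.gcd a b) = b := Nat.mul_div_cancel' (Nat.gcd_dvd_right a b)
  have hc : Nat.gcd c d * (c / Nat.gcd c d) = c := Nat.mul_div_cancel' (Nat.gcd_dvd_left c d)
  have hd : Nat.gcd c d * (d / Nat.gcd c d) = d := Nat.mul_div_cancel' (Nat.gcd_dvd_right c d)
  have hac : a = c := by rw [← ha, ← hc, h1, ← h3, h1]
  have hpos : 0 < a / Nat.gcd a b := Nat.div_pos (Nat.le_of_dvd hx.1.1.1 (Nat.gcd_dvd_left a b)) hg0
  have h4 : b / Nat.gcd a b = d / Nat.gcd c d := by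
    rw [← h3] at h2
    exact Nat.eq_of_mul_eq_mul_left hpos h2
  have hbd : b = d := by rw [← hb, ← hd, h4, h1]
  rw [hac, hbd]

lemma FF_sq_le (W j T : ℕ) : (FF W j T) ^ 2 ≤
    (∑ g ∈ (Icc 1 T).filter Squarefree, ((j:ℝ) ^ g.primeFactors.card) ^ 2 / (g:ℝ) ^ 2) *
      FF W (2 * j) (T ^ 2) := by
  have h1 : (FF W j T) ^ 2 = ∑ x ∈ SqT W T ×ˢ SqT W T,
      (j:ℝ) ^ x.1.primeFactors.card / x.1 * ((j:ℝ) ^ x.2.primeFactors.card / x.2) := by
    unfold FF
    rw [sq, Finset.sum_mul_sum, Finset.sum_product]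
  have h2 : ∑ x ∈ SqT W T ×ˢ SqT W T,
      (j:ℝ) ^ x.1.primeFactors.card / x.1 * ((j:ℝ) ^ x.2.primeFactors.card / x.2) =
      ∑ y ∈ (SqT W T ×ˢ SqT W T).image phi, hh j y := by
    rw [Finset.sum_image (phi_inj W T)]
    exact Finset.sum_congr rfl fun x hx => (phi_facts hx j).2
  have h3 : ∑ y ∈ (SqT W T ×ˢ SqT W T).image phi, hh j y ≤ ∑ y ∈ TT W T, hh j y := by
    refine Finset.sum_le_sum_of_subset_of_nonneg ?_ ?_
    · intro y hy
      obtain ⟨x, hx, rfl⟩ := mem_image.mp hy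
      exact (phi_facts hx j).1
    · intro y _ _
      unfold hh
      positivity
  have h4 : ∑ y ∈ TT W T, hh j y =
      (∑ g ∈ (Icc 1 T).filter Squarefree, ((j:ℝ) ^ g.primeFactors.card) ^ 2 / (g:ℝ) ^ 2) *
      FF W (2 * j) (T ^ 2) := by
    unfold TT hh FF
    rw [Finset.sum_product, Finset.sum_mul]
    refine Finset.sum_congr rfl fun g _ => ?_
    rw [Finset.sum_sigma, Finset.mul_sum]
    refine Finset.sum_congr rfl fun n hn => ?_
    simp only
    rw [Finset.sum_const, nsmul_eq_mul]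
    have h5 : ((n.divisors.card : ℕ) : ℝ) = 2 ^ n.primeFactors.card :=
      tau_squarefree (mem_SqT.mp hn).2.1
    rw [h5]
    push_cast
    rw [mul_pow]
    ring
  rw [h1, h2]
  exact h3.trans (le_of_eq h4)

lemma gsum_le_one (T : ℕ) : ∑ g ∈ (Icc 1 T).filter Squarefree,
    (((1:ℕ):ℝ) ^ g.primeFactors.card) ^ 2 / (g:ℝ) ^ 2 ≤ 2 * zc ^ 2 := by
  refine le_trans ?_ (sum_tau_sq_le T)
  refine le_trans (Finset.sum_le_sum (g := fun m => tau m ^ 2 / (m:ℝ) ^ 2) fun g hg => ?_)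
    (Finset.sum_le_sum_of_subset_of_nonneg (Finset.filter_subset _ _) fun _ _ _ => by positivity)
  obtain ⟨h1, h2⟩ := mem_filter.mp hg
  have h3 : (1:ℝ) ≤ tau g := by
    rw [tau_squarefree h2]
    exact one_le_pow₀ (by norm_num)
  have h4 : (1:ℝ) ≤ tau g ^ 2 := one_le_pow₀ h3
  simp only [Nat.cast_one, one_pow]
  gcongr

lemma gsum_le_two (T : ℕ) : ∑ g ∈ (Icc 1 T).filter Squarefree,
    (((2:ℕ):ℝ) ^ g.primeFactors.card) ^ 2 / (g:ℝ) ^ 2 ≤ 2 * zc ^ 2 := by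
  refine le_trans ?_ (sum_tau_sq_le T)
  refine le_trans (Finset.sum_le_sum (g := fun m => tau m ^ 2 / (m:ℝ) ^ 2) fun g hg => ?_)
    (Finset.sum_le_sum_of_subset_of_nonneg (Finset.filter_subset _ _) fun _ _ _ => by positivity)
  obtain ⟨h1, h2⟩ := mem_filter.mp hg
  rw [tau_squarefree h2]
  push_cast
  exact le_rfl

lemma sum_inv_sq_le (T : ℕ) : ∑ b ∈ Icc 1 T, 1 / (b:ℝ) ^ 2 ≤ 2 * zc ^ 2 := by
  refine le_trans (Finset.sum_le_sum fun b hb => ?_) (sum_tau_sq_le T)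
  have hb1 := (mem_Icc.mp hb).1
  have h3 : (1:ℝ) ≤ tau b := by
    unfold tau
    exact_mod_cast Finset.card_pos.mpr ⟨1, Nat.one_mem_divisors.mpr (by omega)⟩
  have h4 : (1:ℝ) ≤ tau b ^ 2 := one_le_pow₀ h3
  gcongr

lemma cop_le (W T : ℕ) : ∑ n ∈ (Icc 1 T).filter (fun n => Nat.Coprime n W), 1 / (n:ℝ) ≤
    FF W 1 T * (2 * zc ^ 2) := by
  set F := (Icc 1 T).filter (fun n => Nat.Coprime n W) with hF
  have h4 : ∀ n ∈ F, ∃ x ∈ SqT W T ×ˢ Icc 1 T, x.2 ^ 2 * x.1 = n := by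
    intro n hn
    rw [hF, mem_filter, mem_Icc] at hn
    obtain ⟨a, b, hab, ha⟩ := Nat.sq_mul_squarefree n
    have ha0 : a ≠ 0 := ha.ne_zero
    have hb0 : b ≠ 0 := by
      rintro rfl
      simp at hab
      omega
    have hb2 : 1 ≤ b ^ 2 := Nat.pos_of_ne_zero (pow_ne_zero 2 hb0)
    have hle1 : a ≤ n := by
      rw [← hab]; exact Nat.le_mul_of_pos_left a hb2
    have hle2 : b ≤ n := by
      rw [← hab]
      calc b ≤ b ^ 2 := Nat.le_self_pow (by norm_num) b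
        _ ≤ b ^ 2 * a := Nat.le_mul_of_pos_right _ (Nat.pos_of_ne_zero ha0)
    refine ⟨(a, b), ?_, hab⟩
    rw [mem_product, mem_SqT, mem_Icc]
    refine ⟨⟨⟨Nat.pos_of_ne_zero ha0, hle1.trans hn.1.2⟩, ha, ?_⟩,
      Nat.pos_of_ne_zero hb0, hle2.trans hn.1.2⟩
    exact Nat.Coprime.coprime_dvd_left (by rw [← hab]; exact Dvd.intro_left _ rfl) hn.2
  choose! g hg1 hg2 using h4
  have hinj : Set.InjOn g F := by
    intro a ha b hb hab
    rw [← hg2 a ha, ← hg2 b hb, hab]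
  calc ∑ n ∈ F, 1 / (n:ℝ) = ∑ n ∈ F, (fun x : ℕ × ℕ => (1:ℝ) / x.1 * (1 / (x.2:ℝ) ^ 2)) (g n) := by
        refine Finset.sum_congr rfl fun n hn => ?_
        have h9 : (n : ℝ) = ((g n).2 : ℝ) ^ 2 * (g n).1 := by
          conv_lhs => rw [← hg2 n hn]
          push_cast; ring
        simp only
        rw [h9, one_div_mul_one_div]
        congr 1
        ring
    _ = ∑ x ∈ F.image g, (1:ℝ) / x.1 * (1 / (x.2:ℝ) ^ 2) := by
        rw [Finset.sum_image hinj]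
    _ ≤ ∑ x ∈ SqT W T ×ˢ Icc 1 T, (1:ℝ) / x.1 * (1 / (x.2:ℝ) ^ 2) := by
        apply Finset.sum_le_sum_of_subset_of_nonneg
        · intro x hx
          obtain ⟨n, hn, rfl⟩ := mem_image.mp hx
          exact hg1 n hn
        · intro x _ _; positivity
    _ = FF W 1 T * ∑ b ∈ Icc 1 T, 1 / (b:ℝ) ^ 2 := by
        rw [Finset.sum_product]
        unfold FF
        rw [Finset.sum_mul_sum]
        refine Finset.sum_congr rfl fun l _ => Finset.sum_congr rfl fun b _ => ?_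
        simp
    _ ≤ _ := mul_le_mul_of_nonneg_left (sum_inv_sq_le T) (FF_nonneg W 1 T)

lemma FF_one_ge (W : ℕ) (hW : 1 ≤ W) : ∃ c : ℝ, 0 < c ∧ ∃ T0 : ℕ, ∀ T : ℕ, T0 ≤ T →
    c * Real.log (T + 1) ≤ FF W 1 T := by
  have hz := zc_pos
  have hWR : (1:ℝ) ≤ W := by exact_mod_cast hW
  refine ⟨1 / (4 * (W + 1) * (2 * zc ^ 2)), by positivity, W ^ 2 + 2, fun T hT => ?_⟩
  have hcop := cop_le W T
  set K := (T - 1) / W with hK
  have hTK : T ≤ (K + 1) * W := by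
    have := Nat.lt_div_mul_add (a := T - 1) (show 0 < W by omega)
    rw [← hK] at this
    have h2 : (K + 1) * W = K * W + W := by ring
    omega
  have hKT : K * W ≤ T - 1 := Nat.div_mul_le_self _ _
  have hTR : (W:ℝ) ^ 2 ≤ T := by
    have : W ^ 2 ≤ T := by omega
    exact_mod_cast this
  have hT2 : (2:ℝ) ≤ T := by
    have : 2 ≤ T := by omega
    exact_mod_cast this
  have h1 : ∑ k ∈ Icc 1 K, 1 / (((k * W + 1 : ℕ)) : ℝ) ≤
      ∑ n ∈ (Icc 1 T).filter (fun n => Nat.Coprime n W), 1 / (n:ℝ) := by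
    have hinj : Set.InjOn (fun k : ℕ => k * W + 1) (Icc 1 K : Finset ℕ) := by
      intro a _ b _ hab
      have h2 : a * W = b * W := by
        have : a * W + 1 = b * W + 1 := hab
        omega
      exact Nat.eq_of_mul_eq_mul_right (by omega) h2
    rw [← Finset.sum_image (f := fun n : ℕ => 1 / (n:ℝ)) hinj]
    refine Finset.sum_le_sum_of_subset_of_nonneg ?_ fun _ _ _ => by positivity
    intro n hn
    obtain ⟨k, hk, rfl⟩ := mem_image.mp hn
    obtain ⟨hk1, hk2⟩ := mem_Icc.mp hk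
    have h3 : k * W ≤ K * W := Nat.mul_le_mul_right W hk2
    rw [mem_filter, mem_Icc]
    refine ⟨⟨by omega, by omega⟩, ?_⟩
    have h4 : Nat.Coprime (1 + k * W) W := by
      rw [Nat.coprime_add_mul_right_left]
      exact Nat.coprime_one_left W
    rw [Nat.add_comm]
    exact h4
  have h2 : Real.log (K + 1) / (W + 1) ≤ ∑ k ∈ Icc 1 K, 1 / (((k * W + 1 : ℕ)) : ℝ) := by
    have h3 : Real.log (K + 1) ≤ ∑ k ∈ Icc 1 K, 1 / (k:ℝ) := by
      have := log_add_one_le_harmonic K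
      push_cast at this
      refine this.trans (le_of_eq ?_)
      rw [harmonic_eq_sum_Icc]
      push_cast
      simp
    rw [div_le_iff₀ (by positivity)]
    refine h3.trans ?_
    rw [Finset.sum_mul]
    refine Finset.sum_le_sum fun k hk => ?_
    have hk1 : (1:ℝ) ≤ k := by exact_mod_cast (mem_Icc.mp hk).1
    push_cast
    rw [div_mul_eq_mul_div, one_mul, div_le_div_iff₀ (by linarith) (by positivity)]
    nlinarith
  have h5 : Real.log (T + 1) / 4 ≤ Real.log (K + 1) := by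
    have h6 : (T:ℝ) ≤ (K + 1) * W := by exact_mod_cast hTK
    have h7 : Real.log T ≤ Real.log (K + 1) + Real.log W := by
      rw [← Real.log_mul (by positivity) (by positivity)]
      exact Real.log_le_log (by linarith) h6
    have h8 : 2 * Real.log W ≤ Real.log T := by
      have := Real.log_le_log (by positivity : (0:ℝ) < (W:ℝ) ^ 2) hTR
      rw [Real.log_pow] at this
      push_cast at this
      exact this
    have h9 : Real.log (T + 1) ≤ 2 * Real.log T := by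
      have h10 : ((T:ℝ) + 1) ≤ T ^ 2 := by nlinarith
      have := Real.log_le_log (by linarith : (0:ℝ) < (T:ℝ) + 1) h10
      rw [Real.log_pow] at this
      push_cast at this
      exact this
    linarith
  have h11 : Real.log (T + 1) / 4 / (W + 1) ≤ FF W 1 T * (2 * zc ^ 2) := by
    refine le_trans (div_le_div_of_nonneg_right h5 (by positivity)) (h2.trans (h1.trans hcop))
  have h12 : 1 / (4 * ((W:ℝ) + 1) * (2 * zc ^ 2)) * Real.log (T + 1) =
      Real.log (T + 1) / 4 / (W + 1) / (2 * zc ^ 2) := by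
    field_simp
  rw [h12, div_le_iff₀ (by positivity)]
  exact h11

/-- **The bounding sum in dimension four.** -/
theorem FF_four_ge (W : ℕ) (hW : 1 ≤ W) : ∃ c : ℝ, 0 < c ∧ ∃ T0 : ℕ, ∀ T : ℕ, T0 ≤ T →
    c * Real.log (T + 1) ^ 4 ≤ FF W 4 (T ^ 4) := by
  obtain ⟨c, hc, T0, h⟩ := FF_one_ge W hW
  have hz := zc_pos
  refine ⟨c ^ 4 / (2 * zc ^ 2) ^ 3, by positivity, T0, fun T hT => ?_⟩
  have h1 := h T hT
  have hlog : 0 ≤ Real.log ((T:ℝ) + 1) := Real.log_nonneg (by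
    have : (0:ℝ) ≤ T := Nat.cast_nonneg T
    linarith)
  have h2 := FF_sq_le W 1 T
  have h3 := FF_sq_le W 2 (T ^ 2)
  have h4 : FF W (2 * 1) (T ^ 2) = FF W 2 (T ^ 2) := rfl
  have h5 : FF W (2 * 2) ((T ^ 2) ^ 2) = FF W 4 (T ^ 4) := by rw [← pow_mul]
  rw [h4] at h2
  rw [h5] at h3
  have h6 : FF W 1 T ^ 2 ≤ 2 * zc ^ 2 * FF W 2 (T ^ 2) :=
    h2.trans (mul_le_mul_of_nonneg_right (gsum_le_one T) (FF_nonneg _ _ _))
  have h7 : FF W 2 (T ^ 2) ^ 2 ≤ 2 * zc ^ 2 * FF W 4 (T ^ 4) :=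
    h3.trans (mul_le_mul_of_nonneg_right (gsum_le_two (T ^ 2)) (FF_nonneg _ _ _))
  have h8 : (c * Real.log (T + 1)) ^ 4 ≤ FF W 1 T ^ 4 := pow_le_pow_left₀ (by positivity) h1 4
  have h9 : FF W 1 T ^ 4 ≤ (2 * zc ^ 2) ^ 3 * FF W 4 (T ^ 4) := by
    calc FF W 1 T ^ 4 = (FF W 1 T ^ 2) ^ 2 := by ring
      _ ≤ (2 * zc ^ 2 * FF W 2 (T ^ 2)) ^ 2 := pow_le_pow_left₀ (by positivity) h6 2
      _ = (2 * zc ^ 2) ^ 2 * FF W 2 (T ^ 2) ^ 2 := by ring
      _ ≤ (2 * zc ^ 2) ^ 2 * (2 * zc ^ 2 * FF W 4 (T ^ 4)) := by gcongr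
      _ = _ := by ring
  rw [div_mul_eq_mul_div, div_le_iff₀ (by positivity)]
  calc c ^ 4 * Real.log (T + 1) ^ 4 = (c * Real.log (T + 1)) ^ 4 := by ring
    _ ≤ _ := h8
    _ ≤ _ := h9
    _ = _ := by ring

end Pool.Agent.SqSig
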