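import Pool.Agent.Lib.ANT.Major
import Pool.Agent.Lib.ANT.Parseval

/-!
# A divisor sum model of the von Mangoldt function with small exponential sums
-/

set_option autoImplicit false

open Complex ArithmeticFunction
open scoped ArithmeticFunction.Moebius

namespace Pool.Agent.SqSig

open Pool.Agent.ANT

/-- truncated divisor sum -/
noncomputable def sh (D n : ℕ) : ℝ :=
  - ∑ d ∈ n.divisors, if d ≤ D then (μ d : ℝ) * Real.log d else 0

/-- the rest of the divisor sum -/
noncomputable def er (D n : ℕ) : ℝ :=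
  - ∑ d ∈ n.divisors, if D < d then (μ d : ℝ) * Real.log d else 0

lemma lam_eq (D n : ℕ) : Λ n = sh D n + er D n := by
  have h := ArithmeticFunction.sum_moebius_mul_log_eq (n := n)
  unfold sh er
  rw [← neg_add, ← Finset.sum_add_distrib]
  have h2 : ∀ d ∈ n.divisors, ((if d ≤ D then (μ d : ℝ) * Real.log d else 0) +
      (if D < d then (μ d : ℝ) * Real.log d else 0)) = (μ d : ℝ) * Real.log d := by
    intro d _
    by_cases hd : d ≤ D
    · rw [if_pos hd, if_neg (by omega), add_zero]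
    · rw [if_neg hd, if_pos (by omega), zero_add]
  have h3 : ∑ d ∈ n.divisors, (μ d : ℝ) * Real.log d = - Λ n := by
    rw [← h]
    exact Finset.sum_congr rfl fun d _ => by rw [ArithmeticFunction.log_apply]
  rw [Finset.sum_congr rfl h2, h3, neg_neg]

lemma inner_bound (A : ℕ) : ∃ C : ℝ, 0 < C ∧ ∀ (D Y : ℕ) (β : ℝ),
    ‖∑ d ∈ Finset.Ioc D Y, muC d * ee (d * β) * (Real.log d : ℂ)‖ ≤
      C * Real.log Y * phim A Y := by
  obtain ⟨C, hC, h⟩ := davenport A
  refine ⟨4 * C, by positivity, fun D Y β => ?_⟩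
  have hlY : 0 ≤ Real.log Y := Real.log_natCast_nonneg Y
  rcases Nat.lt_or_ge D Y with hDY | hDY
  swap
  · rw [Finset.Ioc_eq_empty (by omega), Finset.sum_empty, norm_zero]
    have := phim_nat_nonneg A Y
    positivity
  have hph := phim_nat_nonneg A Y
  have hpart : ∀ u, D ≤ u → u ≤ Y → ‖∑ d ∈ Finset.Ioc D u, muC d * ee (d * β)‖ ≤
      2 * C * phim A Y := by
    intro u hu1 hu2
    rw [sum_Ioc_sub _ hu1]
    have h1 := h u β
    have h2 := h D β
    have h3 := phim_nat_mono A hu2
    have h4 := phim_nat_mono A hDY.le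
    calc _ ≤ _ := norm_sub_le _ _
      _ ≤ C * phim A u + C * phim A D := add_le_add h1 h2
      _ ≤ C * phim A Y + C * phim A Y := by gcongr
      _ = _ := by ring
  set w : ℕ → ℝ := fun n => max (Real.log Y - Real.log n) 0 with hw
  have h1 := abel_ineq (b := fun d => muC d * ee (d * β)) (w := w) hDY.le
    (fun n _ => le_max_right _ _) (fun n hn => by
      refine max_le_max ?_ le_rfl
      have : Real.log n ≤ Real.log ((n+1:ℕ):ℝ) :=
        Real.log_le_log (by exact_mod_cast (by omega : 0 < n)) (by push_cast; linarith)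
      linarith) hpart
  have hw1 : w (D + 1) ≤ Real.log Y := by
    rw [hw]
    refine max_le ?_ hlY
    have := Real.log_natCast_nonneg (D + 1)
    linarith
  have h2 : ∑ d ∈ Finset.Ioc D Y, muC d * ee (d * β) * (Real.log d : ℂ) =
      (Real.log Y : ℂ) * ∑ d ∈ Finset.Ioc D Y, muC d * ee (d * β) -
        ∑ d ∈ Finset.Ioc D Y, muC d * ee (d * β) * (w d : ℂ) := by
    rw [Finset.mul_sum, ← Finset.sum_sub_distrib]
    refine Finset.sum_congr rfl fun d hd => ?_
    obtain ⟨hd1, hd2⟩ := Finset.mem_Ioc.mp hd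
    have hd0 : (0:ℝ) < d := by exact_mod_cast (by omega : 0 < d)
    have h3 : Real.log d ≤ Real.log Y := Real.log_le_log hd0 (by exact_mod_cast hd2)
    have h4 : w d = Real.log Y - Real.log d := by rw [hw]; exact max_eq_left (by linarith)
    rw [h4]
    push_cast
    ring
  rw [h2]
  have h5 := hpart Y hDY.le le_rfl
  calc _ ≤ _ := norm_sub_le _ _
    _ ≤ Real.log Y * (2 * C * phim A Y) + 2 * C * phim A Y * w (D + 1) := by
        refine add_le_add ?_ h1
        rw [norm_mul, Complex.norm_real, Real.norm_of_nonneg hlY]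
        exact mul_le_mul_of_nonneg_left h5 hlY
    _ ≤ Real.log Y * (2 * C * phim A Y) + 2 * C * phim A Y * Real.log Y := by gcongr
    _ = _ := by ring

lemma er_fourier (A : ℕ) (hA : 1 ≤ A) : ∃ C : ℝ, 0 < C ∧ ∀ (D X : ℕ) (α : ℝ), 1 ≤ D → 1 ≤ X →
    ‖∑ n ∈ Finset.Ioc 0 X, (er D n : ℂ) * ee (n * α)‖ ≤
      C * X * (1 + Real.log X) ^ 2 / (2 * A + Real.log D) ^ A := by
  obtain ⟨C, hC, h⟩ := inner_bound A
  refine ⟨C, hC, fun D X α hD hX => ?_⟩
  have hAR : (1:ℝ) ≤ A := by exact_mod_cast hA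
  have hDR : (1:ℝ) ≤ D := by exact_mod_cast hD
  have hXR : (1:ℝ) ≤ X := by exact_mod_cast hX
  have hlD : 0 ≤ Real.log D := Real.log_nonneg hDR
  have hlX : 0 ≤ Real.log X := Real.log_nonneg hXR
  have hden : 0 < 2 * (A:ℝ) + Real.log D := by linarith
  have e1 : ∑ n ∈ Finset.Ioc 0 X, (er D n : ℂ) * ee (n * α) =
      - ∑ m ∈ Finset.Ioc 0 X, ∑ d ∈ Finset.Ioc D (X / m), muC d * ee (d * (m * α)) *
        (Real.log d : ℂ) := by
    have e2 := sum_pairs' (fun m d => if D < d then muC d * (Real.log d : ℂ) *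
      ee (((m * d : ℕ) : ℝ) * α) else 0) X
    have e3 : ∑ n ∈ Finset.Ioc 0 X, (er D n : ℂ) * ee (n * α) =
        - ∑ k ∈ Finset.Ioc 0 X, ∑ p ∈ k.divisorsAntidiagonal, (fun m d => if D < d then
          muC d * (Real.log d : ℂ) * ee (((m * d : ℕ) : ℝ) * α) else 0) p.1 p.2 := by
      rw [← Finset.sum_neg_distrib]
      refine Finset.sum_congr rfl fun n _ => ?_
      rw [Nat.sum_divisorsAntidiagonal' (f := fun m d => if D < d then muC d * (Real.log d : ℂ) *
        ee (((m * d : ℕ) : ℝ) * α) else 0)]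
      unfold er
      push_cast
      rw [neg_mul, Finset.sum_mul]
      congr 1
      refine Finset.sum_congr rfl fun d hd => ?_
      have hdn : n / d * d = n := Nat.div_mul_cancel (Nat.dvd_of_mem_divisors hd)
      split_ifs
      · rw [← Nat.cast_mul, hdn]
        unfold muC
        push_cast
        ring
      · simp
    rw [e3, e2]
    congr 1
    refine Finset.sum_congr rfl fun m _ => ?_
    rw [← Finset.sum_filter]
    have e4 : (Finset.Ioc 0 (X / m)).filter (fun d => D < d) = Finset.Ioc D (X / m) := by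
      ext d
      simp only [Finset.mem_filter, Finset.mem_Ioc]
      omega
    rw [e4]
    refine Finset.sum_congr rfl fun d _ => ?_
    have e5 : ((m * d : ℕ) : ℝ) * α = d * (m * α) := by push_cast; ring
    rw [e5]
    ring
  rw [e1, norm_neg]
  have hterm : ∀ m ∈ Finset.Ioc 0 X, ‖∑ d ∈ Finset.Ioc D (X / m), muC d * ee (d * (m * α)) *
        (Real.log d : ℂ)‖ ≤ C * (1 + Real.log X) * X / (2 * A + Real.log D) ^ A * (1 / (m:ℝ)) := by
    intro m hm
    obtain ⟨hm1, hm2⟩ := Finset.mem_Ioc.mp hm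
    have hmR : (0:ℝ) < m := by exact_mod_cast hm1
    rcases Nat.lt_or_ge D (X / m) with hDY | hDY
    swap
    · rw [Finset.Ioc_eq_empty (by omega), Finset.sum_empty, norm_zero]
      positivity
    refine (h D (X / m) (m * α)).trans ?_
    have hY : (D:ℝ) ≤ ((X / m : ℕ) : ℝ) := by exact_mod_cast hDY.le
    have hYX : ((X / m : ℕ) : ℝ) ≤ X / m := Nat.cast_div_le
    have hY1 : (1:ℝ) ≤ ((X / m : ℕ) : ℝ) := hDR.trans hY
    have hYX2 : ((X / m : ℕ) : ℝ) ≤ X := by exact_mod_cast Nat.div_le_self X m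
    have hlY : Real.log ((X / m : ℕ) : ℝ) ≤ 1 + Real.log X := by
      have := Real.log_le_log (by linarith) hYX2
      linarith
    have hlY0 : 0 ≤ Real.log ((X / m : ℕ) : ℝ) := Real.log_nonneg hY1
    have hph : phim A ((X / m : ℕ) : ℝ) ≤ (X / m) / (2 * A + Real.log D) ^ A := by
      unfold phim
      have h5 : Real.log D ≤ Real.log ((X / m : ℕ) : ℝ) := Real.log_le_log (by linarith) hY
      gcongr
    have hph0 := phim_nat_nonneg A (X / m)
    calc C * Real.log ((X / m : ℕ) : ℝ) * phim A ((X / m : ℕ) : ℝ)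
        ≤ C * (1 + Real.log X) * ((X / m) / (2 * A + Real.log D) ^ A) := by
          gcongr
      _ = _ := by ring
  calc _ ≤ ∑ m ∈ Finset.Ioc 0 X, C * (1 + Real.log X) * X / (2 * A + Real.log D) ^ A *
        (1 / (m:ℝ)) := (norm_sum_le _ _).trans (Finset.sum_le_sum hterm)
    _ = C * (1 + Real.log X) * X / (2 * A + Real.log D) ^ A * Hs X := by
        rw [← Finset.mul_sum]
        rfl
    _ ≤ C * (1 + Real.log X) * X / (2 * A + Real.log D) ^ A * (1 + Real.log X) := by
        gcongr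
        exact Hs_le X
    _ = _ := by ring

end Pool.Agent.SqSig
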