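import Pool.Agent.SqSig.Loc
import Pool.Agent.SqSig.Dim4

/-!
# The second moment
-/

set_option autoImplicit false

open Finset

namespace Pool.Agent.SqSig

open Pool.Agent.Lib.Sieve
open scoped ArithmeticFunction.omega

/-- sieving primes -/
def sp (Z : ℕ) : Finset ℕ := (Icc 1 Z).filter (fun p => p.Prime ∧ Nat.Coprime p 30)

/-- their product -/
def PP (Z : ℕ) : ℕ := ∏ p ∈ sp Z, p

lemma mem_sp {Z p : ℕ} : p ∈ sp Z ↔ p ≤ Z ∧ p.Prime ∧ Nat.Coprime p 30 := by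
  unfold sp
  rw [mem_filter, mem_Icc]
  constructor
  · rintro ⟨⟨_, h1⟩, h2⟩; exact ⟨h1, h2⟩
  · rintro ⟨h1, h2⟩; exact ⟨⟨h2.1.pos, h1⟩, h2⟩

lemma seven_le {p : ℕ} (hp : p.Prime) (hc : Nat.Coprime p 30) : 7 ≤ p := by
  by_contra h
  have h1 : p < 7 := by omega
  interval_cases p <;> revert hp hc <;> decide

lemma pf_PP (Z : ℕ) : (PP Z).primeFactors = sp Z :=
  Nat.primeFactors_prod (fun _ hp => (mem_sp.mp hp).2.1)

lemma sqf_PP (Z : ℕ) : Squarefree (PP Z) := by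
  unfold PP
  refine Finset.squarefree_prod_of_pairwise_isCoprime ?_ ?_
  · intro p hp q hq hpq
    rw [Function.onFun, ← Nat.coprime_iff_isRelPrime]
    exact (Nat.coprime_primes (mem_sp.mp hp).2.1 (mem_sp.mp hq).2.1).mpr hpq
  · intro p hp
    exact (mem_sp.mp hp).2.1.prime.squarefree

/-- the box of triples -/
def box (S : ℕ) : Finset T3 := Bx 0 (2 * S ^ 2) 1 S 1 S

lemma three_pow_le {d : ℕ} (hd : Squarefree d) (h : ∀ p ∈ d.primeFactors, 7 ≤ p) :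
    (3:ℝ) ^ d.primeFactors.card ≤ d := by
  have h1 : ∏ p ∈ d.primeFactors, 3 ≤ ∏ p ∈ d.primeFactors, p :=
    Finset.prod_le_prod' fun p hp => by have := h p hp; omega
  rw [Finset.prod_const, Nat.prod_primeFactors_of_squarefree hd] at h1
  exact_mod_cast h1

open Classical in
/-- the sifted set -/
noncomputable def Sift (S Z : ℕ) : Finset T3 := (box S).filter (fun x => ∀ p ∈ sp Z, ¬ Bd p x)

open Classical in
lemma mem_Sift {S Z : ℕ} {x : T3} : x ∈ Sift S Z ↔ x ∈ box S ∧ ∀ p ∈ sp Z, ¬ Bd p x := by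
  unfold Sift
  rw [mem_filter]

theorem sieve_bound : ∃ C : ℝ, 0 < C ∧ ∃ T0 : ℕ, ∀ T S : ℕ, T0 ≤ T → 1 ≤ T → T ^ 8 ≤ S →
    ((Sift S (T ^ 4)).card : ℝ) ≤
      C * (S:ℝ) ^ 4 / Real.log (T + 1) ^ 4 + 10 * (S:ℝ) ^ 3 * (T:ℝ) ^ 24 := by
  obtain ⟨c, hc, T0, hG⟩ := FF_four_ge 30 (by norm_num)
  refine ⟨2 / c, by positivity, T0, fun T S hT hT1 hTS => ?_⟩
  set Z := T ^ 4 with hZ
  have hTR : (1:ℝ) ≤ T := by exact_mod_cast hT1
  have hZR : (1:ℝ) ≤ (Z:ℝ) := by rw [hZ]; push_cast; exact one_le_pow₀ hTR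
  have hSR : (T:ℝ) ^ 8 ≤ S := by exact_mod_cast hTS
  have hS1 : (1:ℝ) ≤ S := (one_le_pow₀ hTR).trans hSR
  have hP : Squarefree (PP Z) := sqf_PP Z
  have hpf := pf_PP Z
  have hy : (1:ℝ) ≤ (Z:ℝ) ^ 2 := one_le_pow₀ hZR
  have hlog : 0 < Real.log ((T:ℝ) + 1) := Real.log_pos (by linarith)
  have hprime : ∀ p ∈ (PP Z).primeFactors, p.Prime ∧ 7 ≤ p := by
    intro p hp
    rw [hpf, mem_sp] at hp
    exact ⟨hp.2.1, seven_le hp.2.1 hp.2.2⟩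
  have hmain := selberg_abstract (box S) Bd (PP Z) hP wd
    (fun p hp => wd_pos (hprime p hp).1 (hprime p hp).2)
    (fun p hp => wd_lt_one (hprime p hp).1 (hprime p hp).2)
    (((2 * S ^ 2 : ℕ) : ℝ) * S * S)
    (fun d => (((2 * S ^ 2 : ℕ) : ℝ) + d) * ((S:ℝ) + d) * ((S:ℝ) + d) - ((2 * S ^ 2 : ℕ) : ℝ) * S * S)
    (fun d hd => count_est per_Bd 0 (2 * S ^ 2) 1 S 1 S
      (hP.squarefree_of_dvd (Nat.mem_divisors.mp hd).1)) ((Z:ℝ) ^ 2) hy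
  rw [hpf] at hmain
  have hsift : ((Sift S Z).card : ℝ) ≤ _ := le_trans (le_of_eq (by unfold Sift; congr!)) hmain
  refine hsift.trans (_root_.add_le_add ?_ ?_)
  · -- main term
    have hGG : c * Real.log (T + 1) ^ 4 ≤ ∑ l ∈ (PP Z).divisors, if (l : ℝ) ^ 2 ≤ (Z:ℝ) ^ 2 then
        ∏ p ∈ l.primeFactors, wd p / (1 - wd p) else 0 := by
      refine (hG T hT).trans ?_
      rw [← Finset.sum_filter]
      unfold FF
      refine le_trans (Finset.sum_le_sum (g := fun l => ∏ p ∈ l.primeFactors, wd p / (1 - wd p))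
        fun l hl => ?_) (Finset.sum_le_sum_of_subset_of_nonneg ?_ ?_)
      · obtain ⟨⟨h1, h2⟩, h3, h4⟩ := mem_SqT.mp hl
        have h5 : (((4:ℕ):ℝ)) ^ l.primeFactors.card / l = ∏ p ∈ l.primeFactors, 4 / (p:ℝ) := by
          rw [Finset.prod_div_distrib, Finset.prod_const, ← Nat.cast_prod,
            Nat.prod_primeFactors_of_squarefree h3]
          push_cast; rfl
        rw [h5]
        refine Finset.prod_le_prod (fun p _ => by positivity) fun p hp => ?_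
        have hpp := Nat.prime_of_mem_primeFactors hp
        exact wd_ratio hpp (seven_le hpp (Nat.Coprime.coprime_dvd_left
          (Nat.dvd_of_mem_primeFactors hp) h4))
      · intro l hl
        obtain ⟨⟨h1, h2⟩, h3, h4⟩ := mem_SqT.mp hl
        rw [mem_filter, Nat.mem_divisors]
        refine ⟨⟨?_, hP.ne_zero⟩, ?_⟩
        · rw [← Nat.prod_primeFactors_of_squarefree h3]
          apply Finset.prod_dvd_prod_of_subset
          intro p hp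
          rw [mem_sp]
          exact ⟨(Nat.le_of_mem_primeFactors hp).trans h2, Nat.prime_of_mem_primeFactors hp,
            Nat.Coprime.coprime_dvd_left (Nat.dvd_of_mem_primeFactors hp) h4⟩
        · have : (l : ℝ) ≤ (Z:ℝ) := by exact_mod_cast h2
          gcongr
      · intro l hl _
        rw [mem_filter] at hl
        refine Finset.prod_nonneg fun p hp => ?_
        have hp' : p ∈ (PP Z).primeFactors :=
          Nat.primeFactors_mono (Nat.mem_divisors.mp hl.1).1 hP.ne_zero hp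
        have h1 := wd_pos (hprime p hp').1 (hprime p hp').2
        have h2 := wd_lt_one (hprime p hp').1 (hprime p hp').2
        exact div_nonneg h1.le (by linarith)
    refine (div_le_div_of_nonneg_left (by positivity) (by positivity) hGG).trans (le_of_eq ?_)
    push_cast
    field_simp
  · -- error term
    have hZ2 : (Z:ℝ) ^ 2 = (T:ℝ) ^ 8 := by rw [hZ]; push_cast; ring
    have h5 : ∀ d ∈ (PP Z).divisors, (if (d : ℝ) ≤ (Z:ℝ) ^ 2 then (3 : ℝ) ^ ω d *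
        ((((2 * S ^ 2 : ℕ) : ℝ) + d) * ((S:ℝ) + d) * ((S:ℝ) + d) -
          ((2 * S ^ 2 : ℕ) : ℝ) * S * S) else 0)
        ≤ if d ∈ Icc 1 (T ^ 8) then (T:ℝ) ^ 8 * (10 * (S:ℝ) ^ 3 * (T:ℝ) ^ 8) else 0 := by
      intro d hd
      have hd0 : 1 ≤ d := Nat.pos_of_mem_divisors hd
      have hdsq := hP.squarefree_of_dvd (Nat.mem_divisors.mp hd).1
      rw [hZ2]
      by_cases hdT : (d : ℝ) ≤ (T:ℝ) ^ 8
      · rw [if_pos hdT, if_pos (by rw [mem_Icc]; exact ⟨hd0, by exact_mod_cast hdT⟩)]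
        rw [omega_eq_card]
        have h6 : (3:ℝ) ^ d.primeFactors.card ≤ (T:ℝ) ^ 8 := by
          refine (three_pow_le hdsq fun p hp => ?_).trans hdT
          exact (hprime p (Nat.primeFactors_mono (Nat.mem_divisors.mp hd).1 hP.ne_zero hp)).2
        have hd1 : (1:ℝ) ≤ d := by exact_mod_cast hd0
        have hdS : (d:ℝ) ≤ S := hdT.trans hSR
        have h7 : (((2 * S ^ 2 : ℕ) : ℝ) + d) * ((S:ℝ) + d) * ((S:ℝ) + d) -
          ((2 * S ^ 2 : ℕ) : ℝ) * S * S = d * (4 * (S:ℝ) ^ 3 + 2 * S ^ 2 * d + S ^ 2 + 2 * S * d + d ^ 2) := by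
          push_cast; ring
        rw [h7]
        have h8 : 4 * (S:ℝ) ^ 3 + 2 * S ^ 2 * d + S ^ 2 + 2 * S * d + d ^ 2 ≤ 10 * (S:ℝ) ^ 3 := by
          have k1 : (S:ℝ) ^ 2 * d ≤ S ^ 3 := by
            have : (S:ℝ) ^ 3 = S ^ 2 * S := by ring
            rw [this]; gcongr
          have k2 : (S:ℝ) ^ 2 ≤ S ^ 3 := pow_le_pow_right₀ hS1 (by norm_num)
          have k3 : (S:ℝ) * d ≤ S ^ 2 := by rw [sq]; gcongr
          have k4 : (d:ℝ) ^ 2 ≤ S ^ 2 := by gcongr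
          linarith
        have h9 : (d:ℝ) * (4 * (S:ℝ) ^ 3 + 2 * S ^ 2 * d + S ^ 2 + 2 * S * d + d ^ 2) ≤
            (T:ℝ) ^ 8 * (10 * (S:ℝ) ^ 3) := by
          refine mul_le_mul hdT h8 (by positivity) (by positivity)
        calc (3:ℝ) ^ d.primeFactors.card * (d * (4 * (S:ℝ) ^ 3 + 2 * S ^ 2 * d + S ^ 2 + 2 * S * d + d ^ 2))
            ≤ (T:ℝ) ^ 8 * ((T:ℝ) ^ 8 * (10 * (S:ℝ) ^ 3)) :=
              mul_le_mul h6 h9 (by positivity) (by positivity)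
          _ = _ := by ring
      · rw [if_neg hdT]
        split_ifs
        · positivity
        · exact le_rfl
    refine (Finset.sum_le_sum h5).trans ?_
    rw [← Finset.sum_filter]
    calc ∑ d ∈ (PP Z).divisors.filter (fun d => d ∈ Icc 1 (T ^ 8)), (T:ℝ) ^ 8 * (10 * (S:ℝ) ^ 3 * (T:ℝ) ^ 8)
        ≤ ∑ d ∈ Icc 1 (T ^ 8), (T:ℝ) ^ 8 * (10 * (S:ℝ) ^ 3 * (T:ℝ) ^ 8) := by
          apply Finset.sum_le_sum_of_subset_of_nonneg
          · intro d hd; exact (mem_filter.mp hd).2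
          · intro _ _ _; positivity
      _ = 10 * (S:ℝ) ^ 3 * (T:ℝ) ^ 24 := by
          rw [Finset.sum_const, nsmul_eq_mul, Nat.card_Icc]
          have : T ^ 8 + 1 - 1 = T ^ 8 := by omega
          rw [this]; push_cast; ring

/-- the set of `r` -/
def Rs (S n : ℕ) : Finset ℕ := (Ioc 0 S).filter
  (fun r => r ^ 2 < n ∧ n < 2 * r ^ 2 ∧ (n - r ^ 2).Prime ∧ (2 * r ^ 2 - n).Prime ∧ n - r ^ 2 ≠ 2)

lemma mem_Rs {S n r : ℕ} : r ∈ Rs S n ↔ (0 < r ∧ r ≤ S) ∧ r ^ 2 < n ∧ n < 2 * r ^ 2 ∧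
    (n - r ^ 2).Prime ∧ (2 * r ^ 2 - n).Prime ∧ n - r ^ 2 ≠ 2 := by
  unfold Rs
  rw [mem_filter, mem_Ioc]

/-- the triples -/
def Tri (S : ℕ) : Finset T3 := (box S).filter (fun x => x.2.1 ∈ Rs S x.1 ∧ x.2.2 ∈ Rs S x.1)

lemma mem_box {S : ℕ} {x : T3} : x ∈ box S ↔ x.1 < 2 * S ^ 2 ∧ (1 ≤ x.2.1 ∧ x.2.1 ≤ S) ∧
    (1 ≤ x.2.2 ∧ x.2.2 ≤ S) := by
  unfold box Bx
  rw [mem_product, mem_product, mem_Ico, mem_Ico, mem_Ico]
  omega

lemma not_bd_aux {p n r : ℕ} (h1 : r ^ 2 < n) (h2 : (n - r ^ 2).Prime) (hp : p.Prime)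
    (h3 : p < n - r ^ 2) : ¬ (n : ZMod p) = (r : ZMod p) ^ 2 := by
  intro h
  have h4 : ((r ^ 2 : ℕ) : ZMod p) = (n : ZMod p) := by push_cast; exact h.symm
  rw [ZMod.natCast_eq_natCast_iff, Nat.modEq_iff_dvd' h1.le] at h4
  have := (Nat.prime_dvd_prime_iff_eq hp h2).mp h4
  omega

lemma not_bd_aux' {p n r : ℕ} (h1 : n < 2 * r ^ 2) (h2 : (2 * r ^ 2 - n).Prime) (hp : p.Prime)
    (h3 : p < 2 * r ^ 2 - n) : ¬ (n : ZMod p) = 2 * (r : ZMod p) ^ 2 := by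
  intro h
  have h4 : (n : ZMod p) = ((2 * r ^ 2 : ℕ) : ZMod p) := by push_cast; exact h
  rw [ZMod.natCast_eq_natCast_iff, Nat.modEq_iff_dvd' h1.le] at h4
  have := (Nat.prime_dvd_prime_iff_eq hp h2).mp h4
  omega

/-- triples with a small prime -/
def Sm (S Z : ℕ) : Finset T3 := (Icc 1 Z) ×ˢ (Ioc 0 S ×ˢ Ioc 0 S)

lemma card_Sm (S Z : ℕ) : (Sm S Z).card = Z * (S * S) := by
  unfold Sm
  rw [card_product, card_product, Nat.card_Icc, Nat.card_Ioc]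
  simp

lemma Tri_subset (S Z : ℕ) : Tri S ⊆ (Sift S Z) ∪
    (((Sm S Z).image (fun x => ((x.1 + x.2.1 ^ 2, x.2.1, x.2.2) : T3)) ∪
     (Sm S Z).image (fun x => ((x.1 + x.2.2 ^ 2, x.2.1, x.2.2) : T3))) ∪
    ((Sm S Z).image (fun x => ((2 * x.2.1 ^ 2 - x.1, x.2.1, x.2.2) : T3)) ∪
     (Sm S Z).image (fun x => ((2 * x.2.2 ^ 2 - x.1, x.2.1, x.2.2) : T3)))) := by
  rintro ⟨n, r, s⟩ h
  rw [Tri, mem_filter] at h
  obtain ⟨hbox, hr, hs⟩ := h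
  simp only at hr hs
  obtain ⟨⟨hr1, hr2⟩, hr3, hr4, hr5, hr6, hr7⟩ := mem_Rs.mp hr
  obtain ⟨⟨hs1, hs2⟩, hs3, hs4, hs5, hs6, hs7⟩ := mem_Rs.mp hs
  rw [mem_union, mem_union, mem_union, mem_union]
  by_cases c1 : n - r ^ 2 ≤ Z
  · right; left; left
    refine mem_image.mpr ⟨(n - r ^ 2, r, s), ?_, ?_⟩
    · rw [Sm, mem_product, mem_product, mem_Icc, mem_Ioc, mem_Ioc]
      exact ⟨⟨by show 1 ≤ n - r ^ 2; omega, c1⟩, ⟨hr1, hr2⟩, hs1, hs2⟩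
    · simp only [Prod.mk.injEq, and_true]
      omega
  by_cases c2 : n - s ^ 2 ≤ Z
  · right; left; right
    refine mem_image.mpr ⟨(n - s ^ 2, r, s), ?_, ?_⟩
    · rw [Sm, mem_product, mem_product, mem_Icc, mem_Ioc, mem_Ioc]
      exact ⟨⟨by show 1 ≤ n - s ^ 2; omega, c2⟩, ⟨hr1, hr2⟩, hs1, hs2⟩
    · simp only [Prod.mk.injEq, and_true]
      omega
  by_cases c3 : 2 * r ^ 2 - n ≤ Z
  · right; right; left
    refine mem_image.mpr ⟨(2 * r ^ 2 - n, r, s), ?_, ?_⟩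
    · rw [Sm, mem_product, mem_product, mem_Icc, mem_Ioc, mem_Ioc]
      exact ⟨⟨by show 1 ≤ 2 * r ^ 2 - n; omega, c3⟩, ⟨hr1, hr2⟩, hs1, hs2⟩
    · simp only [Prod.mk.injEq, and_true]
      omega
  by_cases c4 : 2 * s ^ 2 - n ≤ Z
  · right; right; right
    refine mem_image.mpr ⟨(2 * s ^ 2 - n, r, s), ?_, ?_⟩
    · rw [Sm, mem_product, mem_product, mem_Icc, mem_Ioc, mem_Ioc]
      exact ⟨⟨by show 1 ≤ 2 * s ^ 2 - n; omega, c4⟩, ⟨hr1, hr2⟩, hs1, hs2⟩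
    · simp only [Prod.mk.injEq, and_true]
      omega
  left
  rw [mem_Sift]
  refine ⟨hbox, fun p hp hb => ?_⟩
  obtain ⟨hpZ, hpp, -⟩ := mem_sp.mp hp
  unfold Bd at hb
  rcases hb with hb | hb | hb | hb
  · exact not_bd_aux hr3 hr5 hpp (by omega) hb
  · exact not_bd_aux hs3 hs5 hpp (by omega) hb
  · exact not_bd_aux' hr4 hr6 hpp (by omega) hb
  · exact not_bd_aux' hs4 hs6 hpp (by omega) hb

lemma card_Tri (S : ℕ) : (Tri S).card = ∑ n ∈ range (2 * S ^ 2), (Rs S n).card ^ 2 := by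
  have h1 : ∀ n : ℕ, (Rs S n).card ^ 2 = (Rs S n ×ˢ Rs S n).card := fun n => by
    rw [card_product, sq]
  simp_rw [h1]
  rw [← card_sigma]
  refine Finset.card_nbij' (fun x => ⟨x.1, (x.2.1, x.2.2)⟩) (fun s => (s.1, s.2.1, s.2.2)) ?_ ?_ ?_ ?_
  · rintro ⟨n, r, s⟩ h
    rw [mem_coe, Tri, mem_filter, mem_box] at h
    rw [mem_coe, mem_sigma, mem_product, mem_range]
    exact ⟨h.1.1, h.2⟩
  · rintro ⟨n, r, s⟩ h
    rw [mem_coe, mem_sigma, mem_product, mem_range] at h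
    rw [mem_coe, Tri, mem_filter, mem_box]
    have hr := mem_Rs.mp h.2.1
    have hs := mem_Rs.mp h.2.2
    exact ⟨⟨h.1, hr.1, hs.1⟩, h.2⟩
  · rintro ⟨n, r, s⟩ _; rfl
  · rintro ⟨n, r, s⟩ _; rfl

/-- **Second moment.** -/
theorem second_moment : ∃ C : ℝ, 0 < C ∧ ∀ᶠ S : ℕ in Filter.atTop,
    ∑ n ∈ range (2 * S ^ 2), ((Rs S n).card : ℝ) ^ 2 ≤ C * (S:ℝ) ^ 4 / Real.log S ^ 4 := by
  classical
  obtain ⟨C, hC, T0, h⟩ := sieve_bound
  refine ⟨C * 64 ^ 4 + 14, by positivity, ?_⟩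
  have hlim : Filter.Tendsto (fun S : ℕ => Real.log S ^ 4 / (S:ℝ) ^ ((1:ℝ) / 2)) Filter.atTop (nhds 0) := by
    have h1 : Filter.Tendsto (fun x : ℝ => Real.log x ^ 4 / x ^ ((1:ℝ) / 2)) Filter.atTop (nhds 0) := by
      have h2 := isLittleO_log_rpow_rpow_atTop (r := (4:ℝ)) (s := (1:ℝ) / 2) (by norm_num)
      have h3 := h2.tendsto_div_nhds_zero
      refine h3.congr fun x => ?_
      norm_num
    exact h1.comp tendsto_natCast_atTop_atTop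
  have e1 : ∀ᶠ S : ℕ in Filter.atTop, Real.log S ^ 4 / (S:ℝ) ^ ((1:ℝ) / 2) < 1 :=
    hlim.eventually (gt_mem_nhds (by norm_num))
  filter_upwards [e1, Filter.eventually_ge_atTop ((T0 + 1) ^ 64), Filter.eventually_ge_atTop 3]
    with S h1 h2 h3
  have hSR : (3:ℝ) ≤ S := by exact_mod_cast h3
  have hS0 : (0:ℝ) < S := by linarith
  have hlS : 0 < Real.log S := Real.log_pos (by linarith)
  set x : ℝ := (S:ℝ) ^ ((1:ℝ) / 64) with hx
  have hx0 : 0 < x := Real.rpow_pos_of_pos hS0 _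
  have hx64 : x ^ 64 = S := by
    rw [hx, ← Real.rpow_natCast, ← Real.rpow_mul hS0.le]; norm_num
  have hx32 : x ^ 32 = (S:ℝ) ^ ((1:ℝ) / 2) := by
    rw [hx, ← Real.rpow_natCast, ← Real.rpow_mul hS0.le]; norm_num
  set T := ⌊x⌋₊ with hT
  have hTx : (T:ℝ) ≤ x := Nat.floor_le hx0.le
  have hxT : x < T + 1 := Nat.lt_floor_add_one x
  have hT0 : T0 + 1 ≤ T := by
    rw [hT]
    refine Nat.le_floor ?_
    have h4 : ((T0 + 1 : ℕ) : ℝ) ^ 64 ≤ x ^ 64 := by rw [hx64]; exact_mod_cast h2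
    exact le_of_pow_le_pow_left₀ (by norm_num) hx0.le h4
  have hT1 : (1:ℝ) ≤ T := by exact_mod_cast (by omega : 1 ≤ T)
  have hx1 : 1 ≤ x := hT1.trans hTx
  have hT8 : T ^ 8 ≤ S := by
    have : (T:ℝ) ^ 8 ≤ S := by
      rw [← hx64]
      calc (T:ℝ) ^ 8 ≤ x ^ 8 := pow_le_pow_left₀ (by positivity) hTx 8
        _ ≤ x ^ 64 := pow_le_pow_right₀ hx1 (by norm_num)
    exact_mod_cast this
  have h4 := h T S (by omega) (by omega) hT8
  have hsum : ∑ n ∈ range (2 * S ^ 2), ((Rs S n).card : ℝ) ^ 2 = ((Tri S).card : ℝ) := by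
    rw [card_Tri]; push_cast; rfl
  rw [hsum]
  have h5 : (Tri S).card ≤ (Sift S (T ^ 4)).card + 4 * (T ^ 4 * (S * S)) := by
    refine (card_le_card (Tri_subset S (T ^ 4))).trans ?_
    refine (card_union_le _ _).trans (Nat.add_le_add_left ?_ _)
    refine (card_union_le _ _).trans ?_
    have k : ∀ f : T3 → T3, ((Sm S (T ^ 4)).image f).card ≤ T ^ 4 * (S * S) := fun f => by
      rw [← card_Sm]; exact card_image_le
    have k1 := (card_union_le ((Sm S (T ^ 4)).image (fun x => ((x.1 + x.2.1 ^ 2, x.2.1, x.2.2) : T3)))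
      ((Sm S (T ^ 4)).image (fun x => ((x.1 + x.2.2 ^ 2, x.2.1, x.2.2) : T3)))).trans
      (Nat.add_le_add (k _) (k _))
    have k2 := (card_union_le ((Sm S (T ^ 4)).image (fun x => ((2 * x.2.1 ^ 2 - x.1, x.2.1, x.2.2) : T3)))
      ((Sm S (T ^ 4)).image (fun x => ((2 * x.2.2 ^ 2 - x.1, x.2.1, x.2.2) : T3)))).trans
      (Nat.add_le_add (k _) (k _))
    omega
  have h6 : ((Tri S).card : ℝ) ≤ C * (S:ℝ) ^ 4 / Real.log (T + 1) ^ 4 + 10 * (S:ℝ) ^ 3 * (T:ℝ) ^ 24 +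
      4 * ((T:ℝ) ^ 4 * (S * S)) := by
    have : ((Tri S).card : ℝ) ≤ ((Sift S (T ^ 4)).card : ℝ) + 4 * ((T:ℝ) ^ 4 * (S * S)) := by
      exact_mod_cast h5
    linarith
  refine h6.trans ?_
  have h7 : Real.log S / 64 ≤ Real.log (T + 1) := by
    have h8 : Real.log S = 64 * Real.log x := by rw [← hx64, Real.log_pow]; norm_num
    have h9 : Real.log x ≤ Real.log (T + 1) := Real.log_le_log hx0 hxT.le
    linarith
  have h10 : C * (S:ℝ) ^ 4 / Real.log (T + 1) ^ 4 ≤ C * 64 ^ 4 * S ^ 4 / Real.log S ^ 4 := by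
    have h11 : (Real.log S / 64) ^ 4 ≤ Real.log (T + 1) ^ 4 := pow_le_pow_left₀ (by positivity) h7 4
    calc C * (S:ℝ) ^ 4 / Real.log (T + 1) ^ 4 ≤ C * (S:ℝ) ^ 4 / (Real.log S / 64) ^ 4 :=
          div_le_div_of_nonneg_left (by positivity) (by positivity) h11
      _ = _ := by field_simp
  have hT32 : (T:ℝ) ^ 32 ≤ (S:ℝ) ^ ((1:ℝ) / 2) := by
    rw [← hx32]; exact pow_le_pow_left₀ (by positivity) hTx 32
  have hhalf : (S:ℝ) ^ ((1:ℝ) / 2) * (S:ℝ) ^ ((1:ℝ) / 2) = S := by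
    rw [← Real.rpow_add hS0]; norm_num
  have hhp : 0 < (S:ℝ) ^ ((1:ℝ) / 2) := Real.rpow_pos_of_pos hS0 _
  have hl4 : Real.log S ^ 4 ≤ (S:ℝ) ^ ((1:ℝ) / 2) := by
    rw [div_lt_one hhp] at h1
    exact h1.le
  have h12 : (S:ℝ) ^ 3 * (T:ℝ) ^ 32 ≤ S ^ 4 / Real.log S ^ 4 := by
    rw [le_div_iff₀ (by positivity)]
    calc (S:ℝ) ^ 3 * (T:ℝ) ^ 32 * Real.log S ^ 4 ≤
          (S:ℝ) ^ 3 * (S:ℝ) ^ ((1:ℝ) / 2) * (S:ℝ) ^ ((1:ℝ) / 2) := by gcongr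
      _ = (S:ℝ) ^ 3 * ((S:ℝ) ^ ((1:ℝ) / 2) * (S:ℝ) ^ ((1:ℝ) / 2)) := by ring
      _ = S ^ 4 := by rw [hhalf]; ring
  have h13 : (S:ℝ) ^ 3 * (T:ℝ) ^ 24 ≤ (S:ℝ) ^ 3 * (T:ℝ) ^ 32 := by
    gcongr
    · norm_num
  have h14 : (T:ℝ) ^ 4 * (S * S) ≤ (S:ℝ) ^ 3 * (T:ℝ) ^ 32 := by
    have k1 : (T:ℝ) ^ 4 ≤ T ^ 32 := pow_le_pow_right₀ hT1 (by norm_num)
    have k2 : (S:ℝ) * S ≤ S ^ 3 := by
      have : (S:ℝ) ^ 3 = S * S * S := by ring
      rw [this]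
      nlinarith [mul_pos hS0 hS0]
    calc (T:ℝ) ^ 4 * (S * S) ≤ T ^ 32 * S ^ 3 := mul_le_mul k1 k2 (by positivity) (by positivity)
      _ = _ := by ring
  have h15 : (C * 64 ^ 4 + 14) * (S:ℝ) ^ 4 / Real.log S ^ 4 =
      C * 64 ^ 4 * S ^ 4 / Real.log S ^ 4 + 14 * (S ^ 4 / Real.log S ^ 4) := by ring
  rw [h15]
  linarith

end Pool.Agent.SqSig
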