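import Pool.Agent.SqSig.First
import Pool.Agent.SqSig.Second

/-!
# Positive proportion
-/

set_option autoImplicit false

open Finset

namespace Pool.Agent.SqSig

open Pool.Agent.ANT

lemma card_Pr (S : ℕ) : (Pr S).card = ∑ n ∈ range (2 * S ^ 2), (Rs S n).card := by
  rw [← card_sigma]
  refine Finset.card_nbij' (fun t => ⟨t.1 ^ 2 + t.2, t.1⟩) (fun s => (s.2, s.1 - s.2 ^ 2)) ?_ ?_ ?_ ?_
  · rintro ⟨r, q⟩ h
    rw [mem_coe, Pr, mem_filter, mem_product, mem_Ioc, mem_Ioc] at h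
    obtain ⟨⟨⟨h1, h2⟩, h3, h4⟩, h5, h6, h7, h8⟩ := h
    simp only at h1 h2 h3 h4 h5 h6 h7 h8
    have hrS : r ^ 2 ≤ S ^ 2 := Nat.pow_le_pow_left h2 2
    rw [mem_coe, mem_sigma, mem_range, mem_Rs]
    simp only
    have e1 : r ^ 2 + q - r ^ 2 = q := by omega
    have e2 : 2 * r ^ 2 - (r ^ 2 + q) = r ^ 2 - q := by omega
    rw [e1, e2]
    exact ⟨by omega, ⟨h1, h2⟩, by omega, by omega, h6, h7, h8⟩
  · rintro ⟨n, r⟩ h
    rw [mem_coe, mem_sigma, mem_range, mem_Rs] at h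
    simp only at h
    obtain ⟨h0, ⟨h1, h2⟩, h3, h4, h5, h6, h7⟩ := h
    have hrS : r ^ 2 ≤ S ^ 2 := Nat.pow_le_pow_left h2 2
    rw [mem_coe, Pr, mem_filter, mem_product, mem_Ioc, mem_Ioc]
    simp only
    have e2 : r ^ 2 - (n - r ^ 2) = 2 * r ^ 2 - n := by omega
    rw [e2]
    exact ⟨⟨⟨h1, h2⟩, by omega, by omega⟩, by omega, h5, h6, h7⟩
  · rintro ⟨r, q⟩ _
    simp only [Prod.mk.injEq, true_and]
    omega
  · rintro ⟨n, r⟩ h
    rw [mem_coe, mem_sigma, mem_range, mem_Rs] at h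
    simp only at h
    obtain ⟨h0, ⟨h1, h2⟩, h3, h4, h5, h6, h7⟩ := h
    have : r ^ 2 + (n - r ^ 2) = n := by omega
    simp only [this]

/-- Cauchy–Schwarz with a threshold. -/
lemma cs_threshold {ι : Type*} (s : Finset ι) (f : ι → ℝ) (t A Q : ℝ) (hf : ∀ i ∈ s, 0 ≤ f i)
    (ht : 0 ≤ t) (hA : 2 * (s.card * t) ≤ A) (h1 : A ≤ ∑ i ∈ s, f i) (h2 : ∑ i ∈ s, f i ^ 2 ≤ Q)
    (hQ : 0 < Q) (hA0 : 0 ≤ A) :
    A ^ 2 / (4 * Q) ≤ ((s.filter (fun i => t ≤ f i)).card : ℝ) := by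
  classical
  have h3 : ∑ i ∈ s, f i = ∑ i ∈ s.filter (fun i => t ≤ f i), f i +
      ∑ i ∈ s.filter (fun i => ¬ t ≤ f i), f i := (Finset.sum_filter_add_sum_filter_not _ _ _).symm
  have h4 : ∑ i ∈ s.filter (fun i => ¬ t ≤ f i), f i ≤ s.card * t := by
    calc _ ≤ ∑ i ∈ s.filter (fun i => ¬ t ≤ f i), t :=
          Finset.sum_le_sum fun i hi => by
            have := (mem_filter.mp hi).2
            linarith
      _ = (s.filter (fun i => ¬ t ≤ f i)).card * t := by rw [Finset.sum_const, nsmul_eq_mul]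
      _ ≤ s.card * t := by
          gcongr
          exact filter_subset _ _
  have h5 : A / 2 ≤ ∑ i ∈ s.filter (fun i => t ≤ f i), f i := by linarith
  have h6 : (∑ i ∈ s.filter (fun i => t ≤ f i), f i) ^ 2 ≤
      ((s.filter (fun i => t ≤ f i)).card : ℝ) * ∑ i ∈ s.filter (fun i => t ≤ f i), f i ^ 2 :=
    sq_sum_le_card_mul_sum_sq
  have h7 : ∑ i ∈ s.filter (fun i => t ≤ f i), f i ^ 2 ≤ Q :=
    (Finset.sum_le_sum_of_subset_of_nonneg (filter_subset _ _) fun _ _ _ => sq_nonneg _).trans h2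
  have h8 : (A / 2) ^ 2 ≤ ((s.filter (fun i => t ≤ f i)).card : ℝ) * Q := by
    calc (A / 2) ^ 2 ≤ (∑ i ∈ s.filter (fun i => t ≤ f i), f i) ^ 2 :=
          pow_le_pow_left₀ (by linarith) h5 2
      _ ≤ _ := h6
      _ ≤ _ := mul_le_mul_of_nonneg_left h7 (Nat.cast_nonneg _)
  rw [div_le_iff₀ (by positivity)]
  nlinarith

/-- **Positive proportion, in terms of `S`.** -/
theorem prop_S : ∃ c : ℝ, 0 < c ∧ ∀ᶠ S : ℕ in Filter.atTop,
    c * (S:ℝ) ^ 2 ≤ (((range (2 * S ^ 2)).filter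
      (fun n => c * S / Real.log S ^ 2 ≤ ((Rs S n).card : ℝ))).card : ℝ) := by
  obtain ⟨C, hC, h2⟩ := second_moment
  set c : ℝ := min (1 / 1728) (1 / (4 * 432 ^ 2 * C)) with hc
  have hc0 : 0 < c := lt_min (by norm_num) (by positivity)
  refine ⟨c, hc0, ?_⟩
  have e1 : ∀ᶠ S : ℕ in Filter.atTop, 1 ≤ Real.log S :=
    (Real.tendsto_log_atTop.comp tendsto_natCast_atTop_atTop).eventually_ge_atTop 1
  filter_upwards [first_moment, h2, e1, Filter.eventually_ge_atTop 1] with S f1 f2 f3 f4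
  have hSR : (1:ℝ) ≤ S := by exact_mod_cast f4
  have hS0 : (0:ℝ) < S := by linarith
  set l := Real.log (S:ℝ) with hl
  have hl0 : 0 < l := by linarith
  have hLL : LL (S ^ 2) ≤ 3 * l := by
    unfold LL
    push_cast
    rw [Real.log_pow]
    push_cast
    linarith
  have hLL1 := one_le_LL (S ^ 2)
  set A : ℝ := (S:ℝ) ^ 3 / (432 * l ^ 2) with hA
  have g1 : A ≤ ∑ n ∈ range (2 * S ^ 2), ((Rs S n).card : ℝ) := by
    have k1 : ((Pr S).card : ℝ) = ∑ n ∈ range (2 * S ^ 2), ((Rs S n).card : ℝ) := by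
      rw [card_Pr]; push_cast; rfl
    rw [← k1]
    refine le_trans ?_ f1
    rw [hA]
    apply div_le_div_of_nonneg_left (by positivity) (by positivity)
    have : LL (S ^ 2) ^ 2 ≤ (3 * l) ^ 2 := pow_le_pow_left₀ (by linarith) hLL 2
    nlinarith
  set t : ℝ := S / (1728 * l ^ 2) with ht
  have g2 := cs_threshold (range (2 * S ^ 2)) (fun n => ((Rs S n).card : ℝ)) t A
    (C * (S:ℝ) ^ 4 / l ^ 4) (fun _ _ => Nat.cast_nonneg _) (by positivity)
    (by
      rw [card_range, ht, hA]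
      push_cast
      have : 2 * (2 * (S:ℝ) ^ 2 * (S / (1728 * l ^ 2))) = (S:ℝ) ^ 3 / (432 * l ^ 2) := by
        field_simp; norm_num
      rw [this]) g1 f2 (by positivity) (by positivity)
  have g3 : A ^ 2 / (4 * (C * (S:ℝ) ^ 4 / l ^ 4)) = 1 / (4 * 432 ^ 2 * C) * S ^ 2 := by
    rw [hA]; field_simp
  rw [g3] at g2
  have g4 : c * (S:ℝ) ^ 2 ≤ 1 / (4 * 432 ^ 2 * C) * S ^ 2 :=
    mul_le_mul_of_nonneg_right (min_le_right _ _) (by positivity)
  refine g4.trans (g2.trans ?_)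
  have g5 : (range (2 * S ^ 2)).filter (fun n => t ≤ ((Rs S n).card : ℝ)) ⊆
      (range (2 * S ^ 2)).filter (fun n => c * S / l ^ 2 ≤ ((Rs S n).card : ℝ)) := by
    intro n hn
    rw [mem_filter] at hn ⊢
    refine ⟨hn.1, le_trans ?_ hn.2⟩
    have : t = 1 / 1728 * S / l ^ 2 := by rw [ht]; field_simp
    rw [this]
    have k2 : c ≤ 1 / 1728 := min_le_left _ _
    gcongr
  exact_mod_cast card_le_card g5

open ArithmeticFunction in
/-- the values of `k` coming from `Rs` -/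
lemma card_Rs_le (S n : ℕ) : (Rs S n).card ≤
    ((Ioo 0 n).filter (fun k => IsSquare (sigma 1 k + Nat.totient (n - k)))).card := by
  refine card_le_card_of_injOn (fun r => 2 * r ^ 2 - n) ?_ ?_
  · intro r hr
    obtain ⟨⟨h1, h2⟩, h3, h4, h5, h6, h7⟩ := mem_Rs.mp (mem_coe.mp hr)
    show 2 * r ^ 2 - n ∈ _
    rw [mem_coe, mem_filter, mem_Ioo]
    refine ⟨⟨by omega, by omega⟩, ?_⟩
    have e1 : n - (2 * r ^ 2 - n) = 2 * (n - r ^ 2) := by omega
    have hodd : Nat.Coprime 2 (n - r ^ 2) := by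
      rw [Nat.coprime_primes Nat.prime_two h5]
      exact fun h => h7 h.symm
    rw [e1, Nat.totient_mul hodd, Nat.totient_prime h5, Nat.totient_two, one_mul]
    have e2 : sigma 1 (2 * r ^ 2 - n) = 2 * r ^ 2 - n + 1 := by
      have := sigma_one_apply_prime_pow (p := 2 * r ^ 2 - n) (i := 1) h6
      rw [pow_one] at this
      rw [this]
      simp [Finset.sum_range_succ]
      omega
    rw [e2]
    have h8 := h5.one_lt
    refine ⟨r, ?_⟩
    rw [← sq]
    omega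
  · intro r hr s hs h
    obtain ⟨⟨h1, h2⟩, h3, h4, h5, h6, h7⟩ := mem_Rs.mp (mem_coe.mp hr)
    obtain ⟨⟨k1, k2⟩, k3, k4, k5, k6, k7⟩ := mem_Rs.mp (mem_coe.mp hs)
    have h' : 2 * r ^ 2 - n = 2 * s ^ 2 - n := h
    have h8 : r ^ 2 = s ^ 2 := by omega
    exact Nat.pow_left_injective (by norm_num : (2:ℕ) ≠ 0) h8

open ArithmeticFunction in
/-- **Main theorem.** -/
theorem main : ∃ c : ℝ, 0 < c ∧ ∃ N₀ : ℕ, ∀ N : ℕ, N₀ ≤ N →
    c * N ≤ (((Icc 1 N).filter (fun n : ℕ => c * Real.sqrt N / Real.log N ^ 2 ≤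
      (((Ioo 0 n).filter (fun k : ℕ => IsSquare (sigma 1 k + Nat.totient (n - k)))).card : ℝ))).card : ℝ) := by
  obtain ⟨c, hc, h⟩ := prop_S
  obtain ⟨S0, hS0⟩ := Filter.eventually_atTop.mp h
  refine ⟨c / 4, by positivity, 2 * (S0 + 2) ^ 2 + 100, fun N hN => ?_⟩
  set S := Nat.sqrt (N / 2) with hS
  have hS2 : S ^ 2 ≤ N / 2 := Nat.sqrt_le' _
  have hSlt : N / 2 < (S + 1) ^ 2 := Nat.lt_succ_sqrt' _
  have hSN : 2 * S ^ 2 ≤ N := by omega
  have hSge : S0 + 2 ≤ S := by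
    rw [hS, Nat.le_sqrt']
    omega
  have h1 := hS0 S (by omega)
  have hN100 : 100 ≤ N := by omega
  have hNR : (100:ℝ) ≤ N := by exact_mod_cast hN100
  have hS7 : 7 ≤ S := by
    rw [hS, Nat.le_sqrt']
    omega
  have hSR : (7:ℝ) ≤ S := by exact_mod_cast hS7
  have hN4 : N < 4 * S ^ 2 := by
    have k1 : N < 2 * (S + 1) ^ 2 := by omega
    nlinarith
  have hN4R : (N:ℝ) < 4 * (S:ℝ) ^ 2 := by exact_mod_cast hN4
  have hlS : 1 ≤ Real.log S := by
    rw [Real.le_log_iff_exp_le (by linarith)]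
    have := Real.exp_one_lt_d9
    linarith
  have hlSN : Real.log S ≤ Real.log N := by
    refine Real.log_le_log (by linarith) ?_
    have : S ≤ N := by nlinarith
    exact_mod_cast this
  have hsqrt : Real.sqrt N ≤ 2 * S := by
    rw [Real.sqrt_le_left (by positivity)]
    nlinarith
  have h2 : c / 4 * N ≤ c * (S:ℝ) ^ 2 := by nlinarith
  refine h2.trans (h1.trans ?_)
  have h3 : (range (2 * S ^ 2)).filter (fun n => c * S / Real.log S ^ 2 ≤ ((Rs S n).card : ℝ)) ⊆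
      (Icc 1 N).filter (fun n : ℕ => c / 4 * Real.sqrt N / Real.log N ^ 2 ≤
      (((Ioo 0 n).filter (fun k : ℕ => IsSquare (sigma 1 k + Nat.totient (n - k)))).card : ℝ)) := by
    intro n hn
    obtain ⟨hn1, hn2⟩ := mem_filter.mp hn
    rw [mem_range] at hn1
    have hpos : (0:ℝ) < (Rs S n).card := lt_of_lt_of_le (by positivity) hn2
    have hpos' : 0 < (Rs S n).card := by exact_mod_cast hpos
    obtain ⟨r, hr⟩ := card_pos.mp hpos'
    have hr' := mem_Rs.mp hr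
    rw [mem_filter, mem_Icc]
    refine ⟨⟨by omega, by omega⟩, ?_⟩
    have h4 : ((Rs S n).card : ℝ) ≤
        (((Ioo 0 n).filter (fun k : ℕ => IsSquare (sigma 1 k + Nat.totient (n - k)))).card : ℝ) := by
      exact_mod_cast card_Rs_le S n
    refine le_trans ?_ (hn2.trans h4)
    have h5 : c / 4 * Real.sqrt N ≤ c * S := by nlinarith
    have h6 : Real.log S ^ 2 ≤ Real.log N ^ 2 := pow_le_pow_left₀ (by linarith) hlSN 2
    exact div_le_div₀ (by positivity) h5 (by positivity) h6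
  exact_mod_cast card_le_card h3

end Pool.Agent.SqSig
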