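import Pool.Agent.SqSig.Main

/-!
# The number of pairs of primes with sum a square
-/

set_option autoImplicit false

open ArithmeticFunction

namespace Pool.Agent.SqSig

open Pool.Agent.ANT

/-- pairs `(r, q)`, `q` an odd prime and `r² - q` prime -/
def Pr (S : ℕ) : Finset (ℕ × ℕ) :=
  ((Finset.Ioc 0 S) ×ˢ (Finset.Ioc 0 (S ^ 2))).filter
    (fun t => t.2 < t.1 ^ 2 ∧ t.2.Prime ∧ (t.1 ^ 2 - t.2).Prime ∧ t.2 ≠ 2)

lemma sum_refl (R : ℕ) (g : ℕ → ℝ) :
    ∑ x ∈ Finset.Ico 1 R, g (R - x) = ∑ x ∈ Finset.Ico 1 R, g x := by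
  refine Finset.sum_nbij' (fun x => R - x) (fun x => R - x) ?_ ?_ ?_ ?_ ?_
  · intro x hx
    obtain ⟨h1, h2⟩ := Finset.mem_Ico.mp hx
    exact Finset.mem_Ico.mpr ⟨by omega, by omega⟩
  · intro x hx
    obtain ⟨h1, h2⟩ := Finset.mem_Ico.mp hx
    exact Finset.mem_Ico.mpr ⟨by omega, by omega⟩
  · intro x hx
    obtain ⟨h1, h2⟩ := Finset.mem_Ico.mp hx
    omega
  · intro x hx
    obtain ⟨h1, h2⟩ := Finset.mem_Ico.mp hx
    omega
  · intro x _; rfl

/-- prime powers which are not primes -/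
noncomputable def NP (X : ℕ) : ℝ := ∑ n ∈ (Finset.Ioc 0 X).filter (fun n => ¬ n.Prime), Λ n

lemma NP_le : ∃ C : ℝ, 0 < C ∧ ∀ S : ℕ, NP (S ^ 2) ≤ C * S := by
  obtain ⟨C, hC⟩ := Chebyshev.psi_sub_theta_le_mul_sqrt
  refine ⟨|C| + 1, by positivity, fun S => ?_⟩
  have h1 := hC ((S ^ 2 : ℕ) : ℝ)
  rw [Chebyshev.psi_sub_theta_eq_sum_not_prime, Nat.floor_natCast] at h1
  have h2 : Real.sqrt ((S ^ 2 : ℕ) : ℝ) = S := by
    push_cast
    exact Real.sqrt_sq (Nat.cast_nonneg S)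
  rw [h2] at h1
  have h3 : (0:ℝ) ≤ S := Nat.cast_nonneg S
  have h4 : C ≤ |C| := le_abs_self C
  unfold NP
  nlinarith

lemma lam_le_LL {n X : ℕ} (h1 : 1 ≤ n) (h2 : n ≤ X) : Λ n ≤ LL X := by
  have h4 : Λ n ≤ Real.log n := ArithmeticFunction.vonMangoldt_le_log
  have h5 : Real.log n ≤ Real.log X :=
    Real.log_le_log (by exact_mod_cast h1) (by exact_mod_cast h2)
  unfold LL
  linarith

lemma sum_np_le {R X : ℕ} (h : R ≤ X) :
    ∑ x ∈ Finset.Ico 1 R, (if ¬ x.Prime then Λ x else 0) ≤ NP X := by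
  unfold NP
  rw [← Finset.sum_filter]
  refine Finset.sum_le_sum_of_subset_of_nonneg ?_ fun _ _ _ => ArithmeticFunction.vonMangoldt_nonneg
  intro x hx
  obtain ⟨h1, h2⟩ := Finset.mem_filter.mp hx
  obtain ⟨h3, h4⟩ := Finset.mem_Ico.mp h1
  exact Finset.mem_filter.mpr ⟨Finset.mem_Ioc.mpr ⟨by omega, by omega⟩, h2⟩

lemma Bf_le_pairs (S : ℕ) : Bf S (fun n => Λ n) (fun n => Λ n) ≤
    LL (S ^ 2) ^ 2 * (∑ r ∈ Finset.Ioc 0 S, (((Finset.Ico 1 (r ^ 2)).filter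
      (fun x => x.Prime ∧ (r ^ 2 - x).Prime)).card : ℝ)) + 2 * S * LL (S ^ 2) * NP (S ^ 2) := by
  set L := LL (S ^ 2) with hLdef
  have hL : 1 ≤ L := one_le_LL _
  have h1 : ∀ r ∈ Finset.Ioc 0 S, ∑ x ∈ Finset.Ico 1 (r ^ 2), Λ x * Λ (r ^ 2 - x) ≤
      L ^ 2 * (((Finset.Ico 1 (r ^ 2)).filter (fun x => x.Prime ∧ (r ^ 2 - x).Prime)).card : ℝ) +
        2 * (L * NP (S ^ 2)) := by
    intro r hr
    obtain ⟨hr1, hr2⟩ := Finset.mem_Ioc.mp hr
    have hrS : r ^ 2 ≤ S ^ 2 := Nat.pow_le_pow_left hr2 2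
    have h2 : ∀ x ∈ Finset.Ico 1 (r ^ 2), Λ x * Λ (r ^ 2 - x) ≤
        (if x.Prime ∧ (r ^ 2 - x).Prime then L ^ 2 else 0) +
        L * (if ¬ x.Prime then Λ x else 0) + L * (if ¬ (r ^ 2 - x).Prime then Λ (r ^ 2 - x) else 0) := by
      intro x hx
      obtain ⟨hx1, hx2⟩ := Finset.mem_Ico.mp hx
      have e1 : Λ x ≤ L := lam_le_LL hx1 (by omega)
      have e2 : Λ (r ^ 2 - x) ≤ L := lam_le_LL (by omega) (by omega)
      have e3 : 0 ≤ Λ x := ArithmeticFunction.vonMangoldt_nonneg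
      have e4 : 0 ≤ Λ (r ^ 2 - x) := ArithmeticFunction.vonMangoldt_nonneg
      by_cases p1 : x.Prime
      · by_cases p2 : (r ^ 2 - x).Prime
        · rw [if_pos ⟨p1, p2⟩, if_neg (not_not.mpr p1), if_neg (not_not.mpr p2)]
          nlinarith
        · rw [if_neg (fun h => p2 h.2), if_neg (not_not.mpr p1), if_pos p2]
          nlinarith
      · rw [if_neg (fun h => p1 h.1), if_pos p1]
        have : 0 ≤ L * (if ¬ (r ^ 2 - x).Prime then Λ (r ^ 2 - x) else 0) := by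
          refine mul_nonneg (by linarith) ?_
          split_ifs <;> first | exact e4 | exact le_rfl
        nlinarith
    refine (Finset.sum_le_sum h2).trans ?_
    rw [Finset.sum_add_distrib, Finset.sum_add_distrib, ← Finset.sum_filter, Finset.sum_const,
      nsmul_eq_mul, ← Finset.mul_sum, ← Finset.mul_sum,
      sum_refl (r ^ 2) (fun y => if ¬ y.Prime then Λ y else 0)]
    have h3 := sum_np_le hrS
    have h4 := mul_le_mul_of_nonneg_left h3 (by linarith : 0 ≤ L)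
    linarith
  unfold Bf
  refine (Finset.sum_le_sum h1).trans (le_of_eq ?_)
  rw [Finset.sum_add_distrib, ← Finset.mul_sum, Finset.sum_const, nsmul_eq_mul, Nat.card_Ioc,
    Nat.sub_zero]
  ring

lemma pairs_le (S : ℕ) : ∑ r ∈ Finset.Ioc 0 S, (((Finset.Ico 1 (r ^ 2)).filter
      (fun x => x.Prime ∧ (r ^ 2 - x).Prime)).card : ℝ) ≤ (Pr S).card + S := by
  classical
  have h1 : ∑ r ∈ Finset.Ioc 0 S, ((Finset.Ico 1 (r ^ 2)).filter
      (fun x => x.Prime ∧ (r ^ 2 - x).Prime)).card ≤ (Pr S ∪ (Finset.Ioc 0 S).image (fun r => (r, 2))).card := by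
    have h2 : (Finset.Ioc 0 S).sigma (fun r => (Finset.Ico 1 (r ^ 2)).filter
      (fun x => x.Prime ∧ (r ^ 2 - x).Prime)) = (Finset.Ioc 0 S).sigma (fun r => (Finset.Ico 1 (r ^ 2)).filter
      (fun x => x.Prime ∧ (r ^ 2 - x).Prime)) := rfl
    rw [← Finset.card_sigma]
    refine Finset.card_le_card_of_injOn (fun s => (s.1, s.2)) ?_ ?_
    · rintro ⟨r, x⟩ hs
      simp only [Finset.coe_sigma, Set.mem_sigma_iff, Finset.mem_coe, Finset.mem_filter,
        Finset.mem_Ico, Finset.mem_Ioc] at hs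
      obtain ⟨⟨hr1, hr2⟩, ⟨hx1, hx2⟩, p1, p2⟩ := hs
      have hrS : r ^ 2 ≤ S ^ 2 := Nat.pow_le_pow_left hr2 2
      simp only [Finset.coe_union, Set.mem_union, Finset.mem_coe]
      by_cases h : x = 2
      · right
        subst h
        exact Finset.mem_image.mpr ⟨r, Finset.mem_Ioc.mpr ⟨hr1, hr2⟩, rfl⟩
      · left
        exact Finset.mem_filter.mpr ⟨Finset.mem_product.mpr ⟨Finset.mem_Ioc.mpr ⟨hr1, hr2⟩,
          Finset.mem_Ioc.mpr ⟨show 0 < x by omega, show x ≤ S ^ 2 by omega⟩⟩, hx2, p1, p2, h⟩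
    · rintro ⟨r, x⟩ _ ⟨r', x'⟩ _ h
      simp only [Prod.mk.injEq] at h
      obtain ⟨rfl, rfl⟩ := h
      rfl
  have h2 : (Pr S ∪ (Finset.Ioc 0 S).image (fun r => (r, 2))).card ≤ (Pr S).card + S := by
    refine (Finset.card_union_le _ _).trans (Nat.add_le_add_left ?_ _)
    exact Finset.card_image_le.trans (by simp)
  exact_mod_cast h1.trans h2

/-- **First moment.** -/
theorem first_moment : ∀ᶠ S : ℕ in Filter.atTop,
    (S:ℝ) ^ 3 / (48 * LL (S ^ 2) ^ 2) ≤ (Pr S).card := by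
  obtain ⟨C, hC, hNP⟩ := NP_le
  have e1 : ∀ᶠ S : ℕ in Filter.atTop, (S:ℝ) ^ (-(1/2) : ℝ) * 0 = 0 := by simp
  have hlim : Filter.Tendsto (fun S : ℕ => LL (S ^ 2) ^ 2 / (S:ℝ)) Filter.atTop (nhds 0) := by
    have h1 : Filter.Tendsto (fun x : ℝ => (1 + 2 * Real.log x) ^ 2 / x) Filter.atTop (nhds 0) := by
      have h2 := Real.isLittleO_log_id_atTop
      have h3 : Filter.Tendsto (fun x : ℝ => Real.log x ^ 2 / (1 * x + 0)) Filter.atTop (nhds 0) :=
        Real.tendsto_pow_log_div_mul_add_atTop 1 0 2 one_ne_zero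
      have h4 : Filter.Tendsto (fun x : ℝ => Real.log x ^ 1 / (1 * x + 0)) Filter.atTop (nhds 0) :=
        Real.tendsto_pow_log_div_mul_add_atTop 1 0 1 one_ne_zero
      have h5 : Filter.Tendsto (fun x : ℝ => Real.log x ^ 0 / (1 * x + 0)) Filter.atTop (nhds 0) :=
        Real.tendsto_pow_log_div_mul_add_atTop 1 0 0 one_ne_zero
      have h6 := (h5.add (h4.const_mul 4)).add (h3.const_mul 4)
      simp only [mul_zero, add_zero] at h6
      refine h6.congr fun x => ?_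
      simp only [one_mul, pow_zero, pow_one]
      ring
    have h7 := h1.comp (tendsto_natCast_atTop_atTop (R := ℝ))
    refine h7.congr fun S => ?_
    simp only [Function.comp, LL]
    push_cast
    rw [Real.log_pow]
    push_cast
    rfl
  have hsmall : ∀ᶠ S : ℕ in Filter.atTop, LL (S ^ 2) ^ 2 / (S:ℝ) < 1 / (48 * (2 * C + 1)) :=
    (hlim.eventually (gt_mem_nhds (by positivity)))
  filter_upwards [main_lower, hsmall, Filter.eventually_ge_atTop 1] with S h1 h2 hS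
  have hSR : (1:ℝ) ≤ S := by exact_mod_cast hS
  have hS0 : (0:ℝ) < S := by linarith
  have h3 := Bf_le_pairs S
  have h4 := pairs_le S
  have h5 := hNP S
  set L := LL (S ^ 2) with hLdef
  have hL : 1 ≤ L := one_le_LL _
  set N := ∑ r ∈ Finset.Ioc 0 S, (((Finset.Ico 1 (r ^ 2)).filter
      (fun x => x.Prime ∧ (r ^ 2 - x).Prime)).card : ℝ) with hN
  have h6 : L ^ 2 * N ≤ L ^ 2 * ((Pr S).card + S) := mul_le_mul_of_nonneg_left h4 (by positivity)
  have h7 : 2 * S * L * NP (S ^ 2) ≤ 2 * C * S ^ 2 * L ^ 2 := by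
    have : 2 * S * L * NP (S ^ 2) ≤ 2 * S * L * (C * S) := mul_le_mul_of_nonneg_left h5 (by positivity)
    have h8 : L ≤ L ^ 2 := by nlinarith
    calc 2 * S * L * NP (S ^ 2) ≤ 2 * S * L * (C * S) := this
      _ = 2 * C * S ^ 2 * L := by ring
      _ ≤ _ := by gcongr
  have h9 : L ^ 2 * S + 2 * C * S ^ 2 * L ^ 2 ≤ (2 * C + 1) * S ^ 2 * L ^ 2 := by
    have : L ^ 2 * S ≤ L ^ 2 * S ^ 2 := by
      refine mul_le_mul_of_nonneg_left ?_ (by positivity)
      nlinarith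
    nlinarith
  have h10 : (2 * C + 1) * S ^ 2 * L ^ 2 ≤ S ^ 3 / 48 := by
    rw [div_lt_iff₀ hS0] at h2
    have h11 : L ^ 2 * (48 * (2 * C + 1)) ≤ S := by
      have := mul_le_mul_of_nonneg_right h2.le (by positivity : 0 ≤ 48 * (2 * C + 1))
      calc L ^ 2 * (48 * (2 * C + 1)) ≤ 1 / (48 * (2 * C + 1)) * S * (48 * (2 * C + 1)) := this
        _ = S := by field_simp
    have h12 := mul_le_mul_of_nonneg_left h11 (by positivity : (0:ℝ) ≤ (S:ℝ) ^ 2)
    nlinarith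
  rw [div_le_iff₀ (by positivity)]
  nlinarith

end Pool.Agent.SqSig
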