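import Pool.Agent.Lib.ANT.Parseval

/-!
# The fourth moment of the exponential sum over squares
-/

set_option autoImplicit false

open Complex

namespace Pool.Agent.SqSig

open Pool.Agent.ANT

/-- quadruples with `a² + b² = c² + d²` -/
def Q4 (S : ℕ) : Finset ((ℕ × ℕ) × (ℕ × ℕ)) :=
  ((Finset.Ioc 0 S ×ˢ Finset.Ioc 0 S) ×ˢ (Finset.Ioc 0 S ×ˢ Finset.Ioc 0 S)).filter
    (fun t => t.1.1 ^ 2 + t.1.2 ^ 2 = t.2.1 ^ 2 + t.2.2 ^ 2)

/-- pairs `(b, d)` with `a² + b² = c² + d²` -/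
def fib (S a c : ℕ) : Finset (ℕ × ℕ) :=
  (Finset.Ioc 0 S ×ˢ Finset.Ioc 0 S).filter (fun t => a ^ 2 + t.1 ^ 2 = c ^ 2 + t.2 ^ 2)

lemma card_Q4 (S : ℕ) : (Q4 S).card = ∑ t ∈ Finset.Ioc 0 S ×ˢ Finset.Ioc 0 S, (fib S t.1 t.2).card := by
  rw [← Finset.card_sigma]
  refine Finset.card_nbij' (fun t => ⟨(t.1.1, t.2.1), (t.1.2, t.2.2)⟩)
    (fun s => ((s.1.1, s.2.1), (s.1.2, s.2.2))) ?_ ?_ ?_ ?_
  · rintro ⟨⟨a, b⟩, ⟨c, d⟩⟩ h
    simp only [Q4, fib, Finset.mem_coe, Finset.mem_filter, Finset.mem_product, Finset.mem_sigma] at h ⊢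
    tauto
  · rintro ⟨⟨a, c⟩, ⟨b, d⟩⟩ h
    simp only [Q4, fib, Finset.mem_coe, Finset.mem_filter, Finset.mem_product, Finset.mem_sigma] at h ⊢
    tauto
  · rintro ⟨⟨a, b⟩, ⟨c, d⟩⟩ _; rfl
  · rintro ⟨⟨a, c⟩, ⟨b, d⟩⟩ _; rfl

lemma fib_diag (S a : ℕ) : (fib S a a).card ≤ S := by
  have h : fib S a a ⊆ (Finset.Ioc 0 S).image (fun b => (b, b)) := by
    rintro ⟨b, d⟩ h
    simp only [fib, Finset.mem_filter, Finset.mem_product] at h
    have h1 : b ^ 2 = d ^ 2 := by omega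
    have h2 : b = d := (Nat.pow_left_injective (by norm_num : (2:ℕ) ≠ 0)) h1
    subst h2
    exact Finset.mem_image.mpr ⟨b, h.1.1, rfl⟩
  calc _ ≤ _ := Finset.card_le_card h
    _ ≤ (Finset.Ioc 0 S).card := Finset.card_image_le
    _ = S := by simp

/-- the core: `b² = d² + h`, `h > 0` has at most `τ(h)` solutions -/
lemma sol_le (S H : ℕ) (hH : 0 < H) :
    ((Finset.Ioc 0 S ×ˢ Finset.Ioc 0 S).filter (fun t : ℕ × ℕ => t.1 ^ 2 = t.2 ^ 2 + H)).card ≤
      H.divisors.card := by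
  refine Finset.card_le_card_of_injOn (fun t => t.1 - t.2) ?_ ?_
  · rintro ⟨b, d⟩ h
    simp only [Finset.mem_coe, Finset.mem_filter, Finset.mem_product] at h ⊢
    have hbd : d ≤ b := by
      by_contra hc
      have : b ^ 2 ≤ d ^ 2 := Nat.pow_le_pow_left (by omega) 2
      omega
    refine Nat.mem_divisors.mpr ⟨⟨b + d, ?_⟩, hH.ne'⟩
    obtain ⟨e, rfl⟩ := Nat.exists_eq_add_of_le hbd
    have h2 := h.2
    rw [Nat.add_sub_cancel_left]
    nlinarith
  · rintro ⟨b, d⟩ h ⟨b', d'⟩ h' he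
    simp only [Finset.mem_coe, Finset.mem_filter, Finset.mem_product] at h h' he
    have hlt : ∀ x y : ℕ, x ^ 2 = y ^ 2 + H → y < x := by
      intro x y hxy
      by_contra hc
      have : x ^ 2 ≤ y ^ 2 := Nat.pow_le_pow_left (by omega) 2
      omega
    have h1 := hlt b d h.2
    have h1' := hlt b' d' h'.2
    obtain ⟨e, rfl⟩ := Nat.exists_eq_add_of_le h1.le
    obtain ⟨e', rfl⟩ := Nat.exists_eq_add_of_le h1'.le
    simp only [Nat.add_sub_cancel_left] at he
    subst he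
    have he0 : 0 < e := by omega
    have h3 : e * (2 * d + e) = H := by have := h.2; nlinarith
    have h4 : e * (2 * d' + e) = H := by have := h'.2; nlinarith
    have h5 : 2 * d + e = 2 * d' + e := Nat.eq_of_mul_eq_mul_left he0 (h3.trans h4.symm)
    have h6 : d = d' := by omega
    subst h6
    rfl

lemma fib_gt {S a c : ℕ} (h : c < a) : (fib S a c).card ≤ ((a - c) * (a + c)).divisors.card := by
  have hH : 0 < (a - c) * (a + c) := Nat.mul_pos (by omega) (by omega)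
  refine le_trans ?_ (sol_le S _ hH)
  refine Finset.card_le_card_of_injOn (fun t => (t.2, t.1)) ?_ ?_
  · rintro ⟨b, d⟩ hb
    simp only [fib, Finset.mem_coe, Finset.mem_filter, Finset.mem_product] at hb ⊢
    refine ⟨⟨hb.1.2, hb.1.1⟩, ?_⟩
    obtain ⟨e, rfl⟩ := Nat.exists_eq_add_of_le h.le
    rw [Nat.add_sub_cancel_left]
    have := hb.2
    nlinarith
  · rintro ⟨b, d⟩ _ ⟨b', d'⟩ _ he
    simp only [Prod.mk.injEq] at he ⊢
    tauto

lemma fib_lt {S a c : ℕ} (h : a < c) : (fib S a c).card ≤ ((c - a) * (a + c)).divisors.card := by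
  have hH : 0 < (c - a) * (a + c) := Nat.mul_pos (by omega) (by omega)
  refine le_trans ?_ (sol_le S _ hH)
  refine Finset.card_le_card ?_
  rintro ⟨b, d⟩ hb
  simp only [fib, Finset.mem_filter, Finset.mem_product] at hb ⊢
  refine ⟨hb.1, ?_⟩
  obtain ⟨e, rfl⟩ := Nat.exists_eq_add_of_le h.le
  rw [Nat.add_sub_cancel_left]
  have := hb.2
  nlinarith

lemma sum_tau_le (N : ℕ) : ∑ k ∈ Finset.Ioc 0 N, tauR k ≤ N * Hs N := by
  have h1 := sum_tau_mul (fun _ => (1:ℝ)) N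
  simp only [mul_one] at h1
  rw [h1]
  unfold Hs
  rw [Finset.mul_sum]
  refine Finset.sum_le_sum fun m hm => ?_
  rw [Finset.sum_const, nsmul_eq_mul, mul_one, Nat.card_Ioc, Nat.sub_zero]
  have : ((N / m : ℕ) : ℝ) ≤ N / m := Nat.cast_div_le
  calc ((N / m : ℕ) : ℝ) ≤ N / m := this
    _ = _ := by ring

theorem card_Q4_le (S : ℕ) : ((Q4 S).card : ℝ) ≤ S ^ 2 + 2 * ((2 * S : ℕ) * Hs (2 * S)) ^ 2 := by
  classical
  set I := Finset.Ioc 0 S with hI
  have h0 : ((Q4 S).card : ℝ) = ∑ t ∈ I ×ˢ I, ((fib S t.1 t.2).card : ℝ) := by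
    rw [card_Q4]; push_cast; rfl
  rw [h0, ← Finset.sum_filter_add_sum_filter_not _ (fun t => t.1 = t.2)]
  refine add_le_add ?_ ?_
  · calc ∑ t ∈ (I ×ˢ I).filter (fun t => t.1 = t.2), ((fib S t.1 t.2).card : ℝ)
        ≤ ∑ t ∈ (I ×ˢ I).filter (fun t => t.1 = t.2), (S : ℝ) := by
          refine Finset.sum_le_sum fun t ht => ?_
          have h1 := (Finset.mem_filter.mp ht).2
          rw [← h1]
          exact_mod_cast fib_diag S t.1
      _ = ((I ×ˢ I).filter (fun t => t.1 = t.2)).card * S := by rw [Finset.sum_const, nsmul_eq_mul]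
      _ ≤ S * S := by
          gcongr
          have h2 : (I ×ˢ I).filter (fun t => t.1 = t.2) ⊆ I.image (fun a => (a, a)) := by
            rintro ⟨a, c⟩ h
            simp only [Finset.mem_filter, Finset.mem_product] at h
            obtain ⟨⟨ha, _⟩, rfl⟩ := h
            exact Finset.mem_image.mpr ⟨a, ha, rfl⟩
          calc _ ≤ _ := Finset.card_le_card h2
            _ ≤ I.card := Finset.card_image_le
            _ = S := by simp [hI]
      _ = _ := by ring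
  · set J := Finset.Ioc 0 (2 * S) with hJ
    have hprod : ((2 * S : ℕ) * Hs (2 * S)) ^ 2 ≥ ∑ t ∈ J ×ˢ J, tauR t.1 * tauR t.2 := by
      have h1 : ∑ t ∈ J ×ˢ J, tauR t.1 * tauR t.2 = (∑ k ∈ J, tauR k) ^ 2 := by
        rw [sq, Finset.sum_mul_sum, Finset.sum_product]
      rw [h1]
      have h2 := sum_tau_le (2 * S)
      have h3 : 0 ≤ ∑ k ∈ J, tauR k := Finset.sum_nonneg fun k _ => tauR_nonneg k
      exact pow_le_pow_left₀ h3 h2 2
    have hgt : ∑ t ∈ (I ×ˢ I).filter (fun t => t.2 < t.1), ((fib S t.1 t.2).card : ℝ) ≤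
        ∑ t ∈ J ×ˢ J, tauR t.1 * tauR t.2 := by
      have h1 : ∀ t ∈ (I ×ˢ I).filter (fun t => t.2 < t.1), ((fib S t.1 t.2).card : ℝ) ≤
          tauR (t.1 - t.2) * tauR (t.1 + t.2) := by
        intro t ht
        have h2 := (Finset.mem_filter.mp ht).2
        have h3 : ((fib S t.1 t.2).card : ℝ) ≤ (((t.1 - t.2) * (t.1 + t.2)).divisors.card : ℝ) := by
          exact_mod_cast fib_gt h2
        exact h3.trans (tauR_mul_le _ _)
      refine (Finset.sum_le_sum h1).trans ?_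
      have h2 : ∑ t ∈ (I ×ˢ I).filter (fun t => t.2 < t.1), tauR (t.1 - t.2) * tauR (t.1 + t.2) =
          ∑ s ∈ ((I ×ˢ I).filter (fun t => t.2 < t.1)).image (fun t => (t.1 - t.2, t.1 + t.2)),
            tauR s.1 * tauR s.2 := by
        rw [Finset.sum_image]
        rintro ⟨a, c⟩ h ⟨a', c'⟩ h' he
        simp only [Finset.mem_coe, Finset.mem_filter, Prod.mk.injEq] at h h' he ⊢
        omega
      rw [h2]
      refine Finset.sum_le_sum_of_subset_of_nonneg ?_ fun s _ _ =>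
        mul_nonneg (tauR_nonneg _) (tauR_nonneg _)
      rintro ⟨u, v⟩ hs
      obtain ⟨⟨a, c⟩, h, he⟩ := Finset.mem_image.mp hs
      simp only [Finset.mem_filter, Finset.mem_product, hI, Finset.mem_Ioc, Prod.mk.injEq] at h he
      simp only [Finset.mem_product, hJ, Finset.mem_Ioc]
      omega
    have hlt : ∑ t ∈ (I ×ˢ I).filter (fun t => t.1 < t.2), ((fib S t.1 t.2).card : ℝ) ≤
        ∑ t ∈ J ×ˢ J, tauR t.1 * tauR t.2 := by
      have h1 : ∀ t ∈ (I ×ˢ I).filter (fun t => t.1 < t.2), ((fib S t.1 t.2).card : ℝ) ≤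
          tauR (t.2 - t.1) * tauR (t.1 + t.2) := by
        intro t ht
        have h2 := (Finset.mem_filter.mp ht).2
        have h3 : ((fib S t.1 t.2).card : ℝ) ≤ (((t.2 - t.1) * (t.1 + t.2)).divisors.card : ℝ) := by
          exact_mod_cast fib_lt h2
        exact h3.trans (tauR_mul_le _ _)
      refine (Finset.sum_le_sum h1).trans ?_
      have h2 : ∑ t ∈ (I ×ˢ I).filter (fun t => t.1 < t.2), tauR (t.2 - t.1) * tauR (t.1 + t.2) =
          ∑ s ∈ ((I ×ˢ I).filter (fun t => t.1 < t.2)).image (fun t => (t.2 - t.1, t.1 + t.2)),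
            tauR s.1 * tauR s.2 := by
        rw [Finset.sum_image]
        rintro ⟨a, c⟩ h ⟨a', c'⟩ h' he
        simp only [Finset.mem_coe, Finset.mem_filter, Prod.mk.injEq] at h h' he ⊢
        omega
      rw [h2]
      refine Finset.sum_le_sum_of_subset_of_nonneg ?_ fun s _ _ =>
        mul_nonneg (tauR_nonneg _) (tauR_nonneg _)
      rintro ⟨u, v⟩ hs
      obtain ⟨⟨a, c⟩, h, he⟩ := Finset.mem_image.mp hs
      simp only [Finset.mem_filter, Finset.mem_product, hI, Finset.mem_Ioc, Prod.mk.injEq] at h he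
      simp only [Finset.mem_product, hJ, Finset.mem_Ioc]
      omega
    have hsplit : (I ×ˢ I).filter (fun t => ¬ t.1 = t.2) =
        (I ×ˢ I).filter (fun t => t.2 < t.1) ∪ (I ×ˢ I).filter (fun t => t.1 < t.2) := by
      rw [← Finset.filter_or]
      refine Finset.filter_congr fun t _ => ?_
      omega
    rw [hsplit, Finset.sum_union]
    · linarith
    · rw [Finset.disjoint_filter]
      intro t _ h1 h2
      omega

/-- the exponential sum over squares -/
noncomputable def Wsq (S : ℕ) (α : ℝ) : ℂ := ∑ r ∈ Finset.Ioc 0 S, ee (((r ^ 2 : ℕ) : ℝ) * α)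

theorem four_moment (S M : ℕ) (hM : 2 * S ^ 2 < M) :
    ∑ j ∈ Finset.range M, ‖Wsq S ((j:ℝ) / M)‖ ^ 4 = M * (Q4 S).card := by
  classical
  set P := Finset.Ioc 0 S ×ˢ Finset.Ioc 0 S with hP
  set c : ℕ → ℂ := fun N => (((P.filter (fun x => x.1 ^ 2 + x.2 ^ 2 = N)).card : ℕ) : ℂ) with hc
  have hmaps : ∀ x ∈ P, x.1 ^ 2 + x.2 ^ 2 ∈ Finset.range M := by
    intro x hx
    simp only [hP, Finset.mem_product, Finset.mem_Ioc] at hx
    have h1 : x.1 ^ 2 ≤ S ^ 2 := Nat.pow_le_pow_left hx.1.2 2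
    have h2 : x.2 ^ 2 ≤ S ^ 2 := Nat.pow_le_pow_left hx.2.2 2
    exact Finset.mem_range.mpr (by omega)
  have hW : ∀ α : ℝ, Wsq S α ^ 2 = ∑ n ∈ Finset.range M, c n * ee (n * α) := by
    intro α
    unfold Wsq
    rw [sq, Finset.sum_mul_sum, ← Finset.sum_product', ← hP,
      ← Finset.sum_fiberwise_of_maps_to (t := Finset.range M) (g := fun x : ℕ × ℕ => x.1 ^ 2 + x.2 ^ 2)
        hmaps]
    refine Finset.sum_congr rfl fun N _ => ?_
    simp only [hc]
    rw [← nsmul_eq_mul, ← Finset.sum_const]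
    refine Finset.sum_congr rfl fun x hx => ?_
    have hx2 := (Finset.mem_filter.mp hx).2
    rw [← ee_add, ← hx2]
    congr 1
    push_cast
    ring
  have h1 : ∀ j ∈ Finset.range M, ‖Wsq S ((j:ℝ) / M)‖ ^ 4 =
      ‖∑ n ∈ Finset.range M, c n * ee (n * ((j:ℝ) / M))‖ ^ 2 := by
    intro j _
    rw [← hW, norm_pow]
    ring
  rw [Finset.sum_congr rfl h1, parseval]
  congr 1
  have h2 : (Q4 S).card = ∑ n ∈ Finset.range M, (P.filter (fun x => x.1 ^ 2 + x.2 ^ 2 = n)).card ^ 2 := by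
    have h3 : (Q4 S).card = ∑ n ∈ Finset.range M,
        ((Q4 S).filter (fun t => t.1.1 ^ 2 + t.1.2 ^ 2 = n)).card := by
      refine Finset.card_eq_sum_card_fiberwise ?_
      intro t ht
      have := (Finset.mem_product.mp (Finset.mem_filter.mp ht).1).1
      exact hmaps _ this
    rw [h3]
    refine Finset.sum_congr rfl fun n _ => ?_
    rw [sq, ← Finset.card_product]
    congr 1
    ext t
    simp only [Q4, Finset.mem_filter, Finset.mem_product, ← hP]
    constructor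
    · rintro ⟨⟨⟨h4, h5⟩, h6⟩, h7⟩
      exact ⟨⟨h4, h7⟩, h5, by rw [← h6]; exact h7⟩
    · rintro ⟨⟨h4, h7⟩, h5, h8⟩
      exact ⟨⟨⟨h4, h5⟩, by rw [h7, h8]⟩, h7⟩
  rw [h2]
  push_cast
  refine Finset.sum_congr rfl fun n _ => ?_
  simp only [hc]
  rw [Complex.norm_natCast]

end Pool.Agent.SqSig
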