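import Pool.Agent.SqSig.Er
import Pool.Agent.SqSig.Bil

/-!
# Mean squares and the cross terms
-/

set_option autoImplicit false

open Complex ArithmeticFunction
open scoped ArithmeticFunction.Moebius

namespace Pool.Agent.SqSig

open Pool.Agent.ANT

lemma sum_tau_sq (N : ℕ) : ∑ k ∈ Finset.Ioc 0 N, tauR k ^ 2 ≤ N * Hs N ^ 3 := by
  have h1 := sum_tau_mul tauR N
  have h2 : ∑ k ∈ Finset.Ioc 0 N, tauR k ^ 2 = ∑ k ∈ Finset.Ioc 0 N, tauR k * tauR k :=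
    Finset.sum_congr rfl fun k _ => sq _
  rw [h2, h1]
  have hH := Hs_nonneg N
  calc ∑ m ∈ Finset.Ioc 0 N, ∑ n ∈ Finset.Ioc 0 (N / m), tauR (m * n)
      ≤ ∑ m ∈ Finset.Ioc 0 N, tauR m * ((N / m) * Hs N) := by
        refine Finset.sum_le_sum fun m _ => ?_
        calc ∑ n ∈ Finset.Ioc 0 (N / m), tauR (m * n)
            ≤ ∑ n ∈ Finset.Ioc 0 (N / m), tauR m * tauR n :=
              Finset.sum_le_sum fun n _ => tauR_mul_le m n
          _ = tauR m * ∑ n ∈ Finset.Ioc 0 (N / m), tauR n := by rw [Finset.mul_sum]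
          _ ≤ tauR m * ((N / m) * Hs N) := by
              refine mul_le_mul_of_nonneg_left ?_ (tauR_nonneg m)
              refine (sum_tau_le (N / m)).trans ?_
              have h3 : ((N / m : ℕ) : ℝ) ≤ N / m := Nat.cast_div_le
              exact mul_le_mul h3 (Hs_mono (Nat.div_le_self _ _)) (Hs_nonneg _) (by positivity)
    _ = (N * Hs N) * ∑ m ∈ Finset.Ioc 0 N, tauR m / m := by
        rw [Finset.mul_sum]
        exact Finset.sum_congr rfl fun m _ => by ring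
    _ ≤ (N * Hs N) * Hs N ^ 2 := by
        refine mul_le_mul_of_nonneg_left (sum_tau_div_le N) (by positivity)
    _ = _ := by ring

lemma sh_abs_le {n X D : ℕ} (hn : 1 ≤ n) (hnX : n ≤ X) :
    |sh D n| ≤ tauR n * Real.log X := by
  unfold sh
  rw [abs_neg]
  refine (Finset.abs_sum_le_sum_abs _ _).trans ?_
  have h1 : ∀ d ∈ n.divisors, |if d ≤ D then (μ d : ℝ) * Real.log d else 0| ≤ Real.log X := by
    intro d hd
    have hd1 : 1 ≤ d := Nat.pos_of_mem_divisors hd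
    have hdX : d ≤ X := (Nat.divisor_le hd).trans hnX
    have hlog : Real.log d ≤ Real.log X :=
      Real.log_le_log (by exact_mod_cast hd1) (by exact_mod_cast hdX)
    have hlog0 : 0 ≤ Real.log d := Real.log_natCast_nonneg d
    split_ifs
    · rw [abs_mul, abs_of_nonneg hlog0]
      have h2 : |((μ d : ℤ) : ℝ)| ≤ 1 := by
        have := ArithmeticFunction.abs_moebius_le_one (n := d)
        exact_mod_cast this
      calc |((μ d : ℤ) : ℝ)| * Real.log d ≤ 1 * Real.log d := mul_le_mul_of_nonneg_right h2 hlog0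
        _ ≤ _ := by linarith
    · rw [abs_zero]; linarith
  calc _ ≤ ∑ d ∈ n.divisors, Real.log X := Finset.sum_le_sum h1
    _ = _ := by rw [Finset.sum_const, nsmul_eq_mul]; rfl

/-- `L = 1 + log X` -/
noncomputable def LL (X : ℕ) : ℝ := 1 + Real.log X

lemma one_le_LL (X : ℕ) : 1 ≤ LL X := by
  unfold LL
  have := Real.log_natCast_nonneg X
  linarith

lemma l2_lam (X : ℕ) : ∑ n ∈ Finset.Ioc 0 X, Λ n ^ 2 ≤ X * LL X ^ 5 := by
  have hL := one_le_LL X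
  have h1 : ∀ n ∈ Finset.Ioc 0 X, Λ n ^ 2 ≤ LL X ^ 5 := by
    intro n hn
    obtain ⟨h1, h2⟩ := Finset.mem_Ioc.mp hn
    have h3 : Λ n ≤ LL X := by
      have h4 : Λ n ≤ Real.log n := ArithmeticFunction.vonMangoldt_le_log
      have h5 : Real.log n ≤ Real.log X :=
        Real.log_le_log (by exact_mod_cast h1) (by exact_mod_cast h2)
      unfold LL
      linarith
    calc Λ n ^ 2 ≤ LL X ^ 2 := pow_le_pow_left₀ ArithmeticFunction.vonMangoldt_nonneg h3 2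
      _ ≤ LL X ^ 5 := pow_le_pow_right₀ hL (by norm_num)
  refine (Finset.sum_le_sum h1).trans (le_of_eq ?_)
  rw [Finset.sum_const, nsmul_eq_mul, Nat.card_Ioc, Nat.sub_zero]

lemma l2_sh (D X : ℕ) : ∑ n ∈ Finset.Ioc 0 X, sh D n ^ 2 ≤ X * LL X ^ 5 := by
  have hL := one_le_LL X
  have hlX := Real.log_natCast_nonneg X
  have h1 : ∀ n ∈ Finset.Ioc 0 X, sh D n ^ 2 ≤ tauR n ^ 2 * LL X ^ 2 := by
    intro n hn
    obtain ⟨h1, h2⟩ := Finset.mem_Ioc.mp hn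
    have h3 := sh_abs_le (D := D) h1 h2
    have h4 : |sh D n| ≤ tauR n * LL X := by
      refine h3.trans (mul_le_mul_of_nonneg_left ?_ (tauR_nonneg n))
      unfold LL; linarith
    calc sh D n ^ 2 = |sh D n| ^ 2 := (sq_abs _).symm
      _ ≤ (tauR n * LL X) ^ 2 := pow_le_pow_left₀ (abs_nonneg _) h4 2
      _ = _ := by ring
  refine (Finset.sum_le_sum h1).trans ?_
  rw [← Finset.sum_mul]
  have h5 : Hs X ≤ LL X := Hs_le X
  have h6 : Hs X ^ 3 ≤ LL X ^ 3 := pow_le_pow_left₀ (Hs_nonneg X) h5 3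
  calc (∑ n ∈ Finset.Ioc 0 X, tauR n ^ 2) * LL X ^ 2 ≤ (X * Hs X ^ 3) * LL X ^ 2 :=
        mul_le_mul_of_nonneg_right (sum_tau_sq X) (by positivity)
    _ ≤ (X * LL X ^ 3) * LL X ^ 2 := by gcongr
    _ = _ := by ring

lemma l2_er (D X : ℕ) : ∑ n ∈ Finset.Ioc 0 X, er D n ^ 2 ≤ 4 * (X * LL X ^ 5) := by
  have h1 : ∀ n ∈ Finset.Ioc 0 X, er D n ^ 2 ≤ 2 * Λ n ^ 2 + 2 * sh D n ^ 2 := by
    intro n _
    have h2 := lam_eq D n
    have h3 : er D n = Λ n - sh D n := by linarith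
    rw [h3]
    nlinarith [sq_nonneg (Λ n + sh D n)]
  refine (Finset.sum_le_sum h1).trans ?_
  rw [Finset.sum_add_distrib, ← Finset.mul_sum, ← Finset.mul_sum]
  have h4 := l2_lam X
  have h5 := l2_sh D X
  linarith

/-- the cut -/
def Dc (S : ℕ) : ℕ := Nat.sqrt (Nat.sqrt S)

lemma Dc_pow (S : ℕ) : Dc S ^ 4 ≤ S := by
  have h1 : Dc S ^ 2 ≤ Nat.sqrt S := Nat.sqrt_le' _
  have h2 : (Nat.sqrt S) ^ 2 ≤ S := Nat.sqrt_le' _
  calc Dc S ^ 4 = (Dc S ^ 2) ^ 2 := by ring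
    _ ≤ (Nat.sqrt S) ^ 2 := Nat.pow_le_pow_left h1 2
    _ ≤ S := h2

lemma lt_Dc_pow (S : ℕ) : S < (Dc S + 1) ^ 4 := by
  have h1 : Nat.sqrt S < (Dc S + 1) ^ 2 := Nat.lt_succ_sqrt' _
  have h2 : S < (Nat.sqrt S + 1) ^ 2 := Nat.lt_succ_sqrt' _
  calc S < (Nat.sqrt S + 1) ^ 2 := h2
    _ ≤ ((Dc S + 1) ^ 2) ^ 2 := Nat.pow_le_pow_left h1 2
    _ = _ := by ring

lemma one_le_Dc {S : ℕ} (hS : 1 ≤ S) : 1 ≤ Dc S := by
  by_contra h
  have h0 : Dc S = 0 := by omega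
  have := lt_Dc_pow S
  rw [h0] at this
  omega

lemma log_Dc_ge {S : ℕ} (hS : 1 ≤ S) : Real.log S / 4 - 1 ≤ Real.log (Dc S) := by
  have h1 := lt_Dc_pow S
  have hD := one_le_Dc hS
  have hDR : (1:ℝ) ≤ Dc S := by exact_mod_cast hD
  have h2 : (S:ℝ) ≤ (2 * Dc S) ^ 4 := by
    have h3 : (S:ℝ) ≤ ((Dc S:ℝ) + 1) ^ 4 := by exact_mod_cast h1.le
    refine h3.trans (pow_le_pow_left₀ (by positivity) (by linarith) 4)
  have hSR : (0:ℝ) < S := by exact_mod_cast hS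
  have h4 := Real.log_le_log hSR h2
  rw [Real.log_pow, Real.log_mul (by norm_num) (by linarith)] at h4
  have h5 := Real.log_two_lt_d9
  push_cast at h4
  linarith

lemma den_ge {S : ℕ} (hS : 1 ≤ S) : LL (S ^ 2) / 8 ≤ 2 * ((12:ℕ):ℝ) + Real.log (Dc S) := by
  have h1 := log_Dc_ge hS
  unfold LL
  push_cast
  rw [Real.log_pow]
  push_cast
  linarith

lemma Q4_le {S : ℕ} (hS : 1 ≤ S) : ((Q4 S).card : ℝ) ≤ 33 * ((S ^ 2 : ℕ) * LL (S ^ 2) ^ 2) := by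
  refine (card_Q4_le S).trans ?_
  have hL := one_le_LL (S ^ 2)
  have hSR : (1:ℝ) ≤ S := by exact_mod_cast hS
  have h1 : Hs (2 * S) ≤ 2 * LL (S ^ 2) := by
    refine (Hs_le (2 * S)).trans ?_
    unfold LL
    push_cast
    rw [Real.log_pow, Real.log_mul (by norm_num) (by linarith)]
    have h5 := Real.log_two_lt_d9
    have h6 := Real.log_nonneg hSR
    push_cast
    linarith
  have h2 : ((2 * S : ℕ) * Hs (2 * S)) ^ 2 ≤ ((2 * S : ℕ) * (2 * LL (S ^ 2))) ^ 2 := by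
    have := Hs_nonneg (2 * S)
    gcongr
  have h3 : (1:ℝ) ≤ LL (S ^ 2) ^ 2 := one_le_pow₀ hL
  have h4 : (S:ℝ) ^ 2 ≤ S ^ 2 * LL (S ^ 2) ^ 2 := by nlinarith [sq_nonneg (S:ℝ)]
  push_cast at h2 ⊢
  nlinarith [h2, h4]

/-- cross terms are small -/
theorem cross_small : ∃ C : ℝ, 0 < C ∧ ∀ (S : ℕ) (f : ℕ → ℝ), 1 ≤ S →
    ∑ n ∈ Finset.Ioc 0 (S ^ 2), f n ^ 2 ≤ (S ^ 2 : ℕ) * LL (S ^ 2) ^ 5 →
    (Bf S f (er (Dc S))) ^ 4 ≤ C * ((S:ℝ) ^ 3) ^ 4 / LL (S ^ 2) ^ 3 := by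
  obtain ⟨C, hC, h⟩ := er_fourier 12 (by norm_num)
  refine ⟨132 * C ^ 2 * 8 ^ 24, by positivity, fun S f hS hf => ?_⟩
  have hL := one_le_LL (S ^ 2)
  have hL0 : 0 < LL (S ^ 2) := by linarith
  have hSR : (1:ℝ) ≤ S := by exact_mod_cast hS
  set X := S ^ 2 with hX
  have hX1 : 1 ≤ X := Nat.one_le_pow _ _ hS
  have hXR : (1:ℝ) ≤ X := by exact_mod_cast hX1
  have hden := den_ge hS
  set K : ℝ := C * X * LL X ^ 2 / (LL X / 8) ^ 12 with hK
  have hK0 : 0 ≤ K := by positivity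
  have h1 : ∀ α : ℝ, ‖Fs X (er (Dc S)) α‖ ≤ K := by
    intro α
    refine (h (Dc S) X α (one_le_Dc hS) hX1).trans ?_
    have h2 : (LL X / 8) ^ 12 ≤ (2 * ((12:ℕ):ℝ) + Real.log (Dc S)) ^ 12 :=
      pow_le_pow_left₀ (by positivity) hden 12
    rw [hK]
    exact div_le_div_of_nonneg_left (by positivity) (by positivity) h2
  refine (Bf_bound S f (er (Dc S)) K h1).trans ?_
  have h3 : (∑ n ∈ Finset.Ioc 0 X, f n ^ 2) ^ 2 ≤ (X * LL X ^ 5) ^ 2 :=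
    pow_le_pow_left₀ (Finset.sum_nonneg fun _ _ => sq_nonneg _) hf 2
  have h4 := l2_er (Dc S) X
  have h5 := Q4_le hS
  have h6 : (∑ n ∈ Finset.Ioc 0 X, f n ^ 2) ^ 2 *
      (K ^ 2 * ∑ n ∈ Finset.Ioc 0 X, er (Dc S) n ^ 2) * (Q4 S).card ≤
      (X * LL X ^ 5) ^ 2 * (K ^ 2 * (4 * (X * LL X ^ 5))) * (33 * (X * LL X ^ 2)) := by
    have h7 : 0 ≤ ∑ n ∈ Finset.Ioc 0 X, er (Dc S) n ^ 2 := Finset.sum_nonneg fun _ _ => sq_nonneg _
    gcongr
  refine h6.trans (le_of_eq ?_)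
  have h8 : ((S:ℝ) ^ 3) ^ 4 = (X:ℝ) ^ 6 := by rw [hX]; push_cast; ring
  rw [h8, hK]
  field_simp
  ring

lemma Bf_comm (S : ℕ) (f g : ℕ → ℝ) : Bf S f g = Bf S g f := by
  unfold Bf
  refine Finset.sum_congr rfl fun r _ => ?_
  refine Finset.sum_nbij' (fun x => r ^ 2 - x) (fun x => r ^ 2 - x) ?_ ?_ ?_ ?_ ?_
  · intro x hx
    obtain ⟨h1, h2⟩ := Finset.mem_Ico.mp hx
    exact Finset.mem_Ico.mpr ⟨by omega, by omega⟩
  · intro x hx
    obtain ⟨h1, h2⟩ := Finset.mem_Ico.mp hx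
    exact Finset.mem_Ico.mpr ⟨by omega, by omega⟩
  · intro x hx
    obtain ⟨h1, h2⟩ := Finset.mem_Ico.mp hx
    omega
  · intro x hx
    obtain ⟨h1, h2⟩ := Finset.mem_Ico.mp hx
    omega
  · intro x hx
    obtain ⟨h1, h2⟩ := Finset.mem_Ico.mp hx
    have h3 : r ^ 2 - (r ^ 2 - x) = x := by omega
    rw [h3]
    ring

lemma Bf_split (S D : ℕ) : Bf S (fun n => Λ n) (fun n => Λ n) =
    Bf S (sh D) (sh D) + Bf S (fun n => Λ n) (er D) + Bf S (sh D) (er D) := by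
  have h1 : Bf S (fun n => Λ n) (fun n => Λ n) =
      Bf S (fun n => Λ n) (sh D) + Bf S (fun n => Λ n) (er D) := by
    unfold Bf
    rw [← Finset.sum_add_distrib]
    refine Finset.sum_congr rfl fun r _ => ?_
    rw [← Finset.sum_add_distrib]
    refine Finset.sum_congr rfl fun x _ => ?_
    show Λ x * Λ (r ^ 2 - x) = Λ x * sh D (r ^ 2 - x) + Λ x * er D (r ^ 2 - x)
    rw [lam_eq D (r ^ 2 - x)]
    ring
  have h2 : Bf S (fun n => Λ n) (sh D) = Bf S (sh D) (sh D) + Bf S (sh D) (er D) := by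
    rw [Bf_comm S (sh D) (er D)]
    unfold Bf
    rw [← Finset.sum_add_distrib]
    refine Finset.sum_congr rfl fun r _ => ?_
    rw [← Finset.sum_add_distrib]
    refine Finset.sum_congr rfl fun x _ => ?_
    show Λ x * sh D (r ^ 2 - x) = sh D x * sh D (r ^ 2 - x) + er D x * sh D (r ^ 2 - x)
    rw [lam_eq D x]
    ring
  rw [h1, h2]
  ring

end Pool.Agent.SqSig
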