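import Pool.Agent.SqSig.Res3

/-!
# The number of residue classes removed by a prime
-/

set_option autoImplicit false

open Finset

namespace Pool.Agent.SqSig

/-- the removal condition -/
def Bd (p : ℕ) (x : T3) : Prop :=
  (x.1 : ZMod p) = (x.2.1 : ZMod p) ^ 2 ∨ (x.1 : ZMod p) = (x.2.2 : ZMod p) ^ 2 ∨
  (x.1 : ZMod p) = 2 * (x.2.1 : ZMod p) ^ 2 ∨ (x.1 : ZMod p) = 2 * (x.2.2 : ZMod p) ^ 2

lemma per_Bd : Per Bd := by
  intro p x y h1 h2 h3 h
  have e1 : (x.1 : ZMod p) = y.1 := (ZMod.natCast_eq_natCast_iff _ _ _).mpr h1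
  have e2 : (x.2.1 : ZMod p) = y.2.1 := (ZMod.natCast_eq_natCast_iff _ _ _).mpr h2
  have e3 : (x.2.2 : ZMod p) = y.2.2 := (ZMod.natCast_eq_natCast_iff _ _ _).mpr h3
  unfold Bd at h ⊢
  rw [e1, e2, e3] at h
  exact h

/-- indicator -/
def ind (P : Prop) [Decidable P] : ℕ := if P then 1 else 0

lemma card_insert_ge {α : Type*} [DecidableEq α] (a : α) (s : Finset α) :
    s.card + 1 ≤ (insert a s).card + ind (a ∈ s) := by
  unfold ind
  split_ifs with h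
  · rw [insert_eq_of_mem h]
  · rw [card_insert_of_notMem h]

lemma card_four {α : Type*} [DecidableEq α] (a b c d : α) :
    4 ≤ ({a, b, c, d} : Finset α).card + (ind (a = b) + ind (a = c) + ind (a = d) + ind (b = c) +
      ind (b = d) + ind (c = d)) := by
  have h1 := card_insert_ge a ({b, c, d} : Finset α)
  have h2 := card_insert_ge b ({c, d} : Finset α)
  have h3 := card_insert_ge c ({d} : Finset α)
  have h4 : ind (a ∈ ({b, c, d} : Finset α)) ≤ ind (a = b) + ind (a = c) + ind (a = d) := by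
    unfold ind
    simp only [mem_insert, mem_singleton]
    split_ifs <;> simp_all
  have h5 : ind (b ∈ ({c, d} : Finset α)) ≤ ind (b = c) + ind (b = d) := by
    unfold ind
    simp only [mem_insert, mem_singleton]
    split_ifs <;> simp_all
  have h6 : ind (c ∈ ({d} : Finset α)) ≤ ind (c = d) := by
    unfold ind
    simp only [mem_singleton]
    exact le_rfl
  rw [card_singleton] at h3
  omega

section prime

variable {p : ℕ} [hp : Fact p.Prime]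

lemma card_sqrt_le (c : ZMod p) : ∑ r : ZMod p, ind (r ^ 2 = c) ≤ 2 := by
  have h0 : ∑ r : ZMod p, ind (r ^ 2 = c) = ((univ : Finset (ZMod p)).filter (fun r => r ^ 2 = c)).card := by
    unfold ind
    rw [card_filter]
  rw [h0]
  by_cases h : ∃ r0 : ZMod p, r0 ^ 2 = c
  · obtain ⟨r0, h⟩ := h
    have h1 : (univ : Finset (ZMod p)).filter (fun r => r ^ 2 = c) ⊆ {r0, -r0} := by
      intro r hr
      have h2 : r ^ 2 = r0 ^ 2 := (mem_filter.mp hr).2.trans h.symm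
      rcases sq_eq_sq_iff_eq_or_eq_neg.mp h2 with h3 | h3
      · rw [h3]; simp
      · rw [h3]; simp
    exact (card_le_card h1).trans card_le_two
  · have h1 : (univ : Finset (ZMod p)).filter (fun r => r ^ 2 = c) = ∅ := by
      rw [filter_eq_empty_iff]
      intro r _ hr
      exact h ⟨r, hr⟩
    rw [h1]; simp

lemma card_univ_zmod : (univ : Finset (ZMod p)).card = p := by
  rw [card_univ, ZMod.card]

lemma card_GR_prime : (GR Bd p).card =
    ∑ x : ZMod p × ZMod p, ({x.1 ^ 2, x.2 ^ 2, 2 * x.1 ^ 2, 2 * x.2 ^ 2} : Finset (ZMod p)).card := by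
  rw [← card_sigma]
  have hpp := hp.out
  haveI : NeZero p := ⟨hpp.ne_zero⟩
  refine Finset.card_nbij' (fun t => ⟨((t.2.1 : ZMod p), (t.2.2 : ZMod p)), (t.1 : ZMod p)⟩)
    (fun s => (s.2.val, s.1.1.val, s.1.2.val)) ?_ ?_ ?_ ?_
  · intro t ht
    rw [mem_coe, mem_GR] at ht
    have h := ht.2 p (by rw [hpp.primeFactors]; exact mem_singleton_self p)
    rw [mem_coe, mem_sigma]
    refine ⟨mem_univ _, ?_⟩
    simp only [mem_insert, mem_singleton]
    exact h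
  · rintro ⟨⟨r, s⟩, n⟩ h
    rw [mem_coe, mem_sigma] at h
    simp only [mem_insert, mem_singleton] at h
    rw [mem_coe, mem_GR]
    refine ⟨⟨ZMod.val_lt _, ZMod.val_lt _, ZMod.val_lt _⟩, ?_⟩
    intro q hq
    rw [hpp.primeFactors, mem_singleton] at hq
    subst hq
    unfold Bd
    simp only [ZMod.natCast_val, ZMod.cast_id', id_eq]
    exact h.2
  · intro t ht
    rw [mem_coe, mem_GR] at ht
    obtain ⟨⟨h1, h2, h3⟩, -⟩ := ht
    simp only
    rw [ZMod.val_natCast_of_lt h1, ZMod.val_natCast_of_lt h2, ZMod.val_natCast_of_lt h3]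
  · rintro ⟨⟨r, s⟩, n⟩ _
    simp only [ZMod.natCast_val, ZMod.cast_id', id_eq]

lemma card_GR_le : (GR Bd p).card ≤ 4 * p ^ 2 := by
  rw [card_GR_prime]
  calc ∑ x : ZMod p × ZMod p, ({x.1 ^ 2, x.2 ^ 2, 2 * x.1 ^ 2, 2 * x.2 ^ 2} : Finset (ZMod p)).card
      ≤ ∑ x : ZMod p × ZMod p, 4 := Finset.sum_le_sum fun x _ => card_le_four
    _ = 4 * p ^ 2 := by
      rw [Finset.sum_const, card_univ, Fintype.card_prod, ZMod.card, smul_eq_mul]; ring

lemma sum_prod_le (f : ZMod p → ZMod p → ℕ) (k : ℕ) (h : ∀ s, ∑ r : ZMod p, f r s ≤ k) :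
    ∑ x : ZMod p × ZMod p, f x.1 x.2 ≤ k * p := by
  rw [Fintype.sum_prod_type_right]
  refine (Finset.sum_le_sum fun s _ => h s).trans (le_of_eq ?_)
  rw [Finset.sum_const, card_univ_zmod, smul_eq_mul, mul_comm]

lemma sum_prod_le' (f : ZMod p → ZMod p → ℕ) (k : ℕ) (h : ∀ r, ∑ s : ZMod p, f r s ≤ k) :
    ∑ x : ZMod p × ZMod p, f x.1 x.2 ≤ k * p := by
  rw [Fintype.sum_prod_type]
  refine (Finset.sum_le_sum fun s _ => h s).trans (le_of_eq ?_)
  rw [Finset.sum_const, card_univ_zmod, smul_eq_mul, mul_comm]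

lemma ind_mono {P Q : Prop} [Decidable P] [Decidable Q] (h : P → Q) : ind P ≤ ind Q := by
  unfold ind
  split_ifs with h1 h2
  · exact le_rfl
  · exact absurd (h h1) h2
  · exact Nat.zero_le _
  · exact le_rfl

lemma card_GR_ge (h2 : p ≠ 2) : 4 * p ^ 2 ≤ (GR Bd p).card + 10 * p := by
  have hpp := hp.out
  have two_ne : (2 : ZMod p) ≠ 0 := by
    intro h
    have h3 : ((2:ℕ) : ZMod p) = 0 := by exact_mod_cast h
    rw [ZMod.natCast_eq_zero_iff] at h3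
    exact h2 ((Nat.prime_dvd_prime_iff_eq hpp Nat.prime_two).mp h3)
  rw [card_GR_prime]
  have e1 : ∑ x : ZMod p × ZMod p, ind (x.1 ^ 2 = x.2 ^ 2) ≤ 2 * p :=
    sum_prod_le (fun r s => ind (r ^ 2 = s ^ 2)) 2 fun s => card_sqrt_le (s ^ 2)
  have z1 : ∀ r : ZMod p, ind (r ^ 2 = 2 * r ^ 2) ≤ ind (r = 0) := fun r => ind_mono fun h => by
    have : r ^ 2 = 0 := by linear_combination -h
    exact pow_eq_zero_iff (by norm_num) |>.mp this
  have z2 : ∑ r : ZMod p, ind (r = 0) ≤ 1 := by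
    unfold ind
    rw [Finset.sum_ite_eq' univ (0 : ZMod p) (fun _ => 1)]
    simp
  have e2 : ∑ x : ZMod p × ZMod p, ind (x.1 ^ 2 = 2 * x.1 ^ 2) ≤ 1 * p :=
    sum_prod_le (fun r _ => ind (r ^ 2 = 2 * r ^ 2)) 1 fun s =>
      (Finset.sum_le_sum fun r _ => z1 r).trans z2
  have e3 : ∑ x : ZMod p × ZMod p, ind (x.1 ^ 2 = 2 * x.2 ^ 2) ≤ 2 * p :=
    sum_prod_le (fun r s => ind (r ^ 2 = 2 * s ^ 2)) 2 fun s => card_sqrt_le (2 * s ^ 2)
  have e4 : ∑ x : ZMod p × ZMod p, ind (x.2 ^ 2 = 2 * x.1 ^ 2) ≤ 2 * p :=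
    sum_prod_le' (fun r s => ind (s ^ 2 = 2 * r ^ 2)) 2 fun r => card_sqrt_le (2 * r ^ 2)
  have e5 : ∑ x : ZMod p × ZMod p, ind (x.2 ^ 2 = 2 * x.2 ^ 2) ≤ 1 * p :=
    sum_prod_le' (fun _ s => ind (s ^ 2 = 2 * s ^ 2)) 1 fun r =>
      (Finset.sum_le_sum fun r _ => z1 r).trans z2
  have e6 : ∑ x : ZMod p × ZMod p, ind (2 * x.1 ^ 2 = 2 * x.2 ^ 2) ≤ 2 * p := by
    refine (Finset.sum_le_sum fun x _ => ind_mono (Q := x.1 ^ 2 = x.2 ^ 2) fun h => ?_).trans e1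
    exact mul_left_cancel₀ two_ne h
  have h4 : ∑ x : ZMod p × ZMod p, 4 ≤ ∑ x : ZMod p × ZMod p,
      (({x.1 ^ 2, x.2 ^ 2, 2 * x.1 ^ 2, 2 * x.2 ^ 2} : Finset (ZMod p)).card +
      (ind (x.1 ^ 2 = x.2 ^ 2) + ind (x.1 ^ 2 = 2 * x.1 ^ 2) + ind (x.1 ^ 2 = 2 * x.2 ^ 2) +
        ind (x.2 ^ 2 = 2 * x.1 ^ 2) + ind (x.2 ^ 2 = 2 * x.2 ^ 2) + ind (2 * x.1 ^ 2 = 2 * x.2 ^ 2))) :=
    Finset.sum_le_sum fun x _ => card_four _ _ _ _
  have h5 : ∑ x : ZMod p × ZMod p, 4 = 4 * p ^ 2 := by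
    rw [Finset.sum_const, card_univ, Fintype.card_prod, ZMod.card, smul_eq_mul]; ring
  rw [h5] at h4
  simp only [Finset.sum_add_distrib] at h4
  omega

end prime

/-- density -/
noncomputable def wd (p : ℕ) : ℝ := ((GR Bd p).card : ℝ) / (p:ℝ) ^ 3

lemma wd_le {p : ℕ} (hp : p.Prime) : wd p ≤ 4 / p := by
  haveI : Fact p.Prime := ⟨hp⟩
  have hp0 : (0:ℝ) < p := by exact_mod_cast hp.pos
  have h : ((GR Bd p).card : ℝ) ≤ 4 * (p:ℝ) ^ 2 := by exact_mod_cast card_GR_le (p := p)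
  unfold wd
  rw [div_le_div_iff₀ (by positivity) hp0]
  calc ((GR Bd p).card : ℝ) * p ≤ 4 * (p:ℝ) ^ 2 * p := by gcongr
    _ = _ := by ring

lemma wd_ge {p : ℕ} (hp : p.Prime) (h7 : 7 ≤ p) : 4 / ((p:ℝ) + 4) ≤ wd p := by
  haveI : Fact p.Prime := ⟨hp⟩
  have hp7 : (7:ℝ) ≤ p := by exact_mod_cast h7
  have hp0 : (0:ℝ) < p := by linarith
  have h : 4 * (p:ℝ) ^ 2 ≤ ((GR Bd p).card : ℝ) + 10 * p := by
    exact_mod_cast card_GR_ge (p := p) (by omega)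
  unfold wd
  rw [div_le_div_iff₀ (by positivity) (by positivity)]
  have h1 : (4 * (p:ℝ) ^ 2 - 10 * p) * (p + 4) ≤ ((GR Bd p).card : ℝ) * (p + 4) :=
    mul_le_mul_of_nonneg_right (by linarith) (by linarith)
  have h2 : 4 * (p:ℝ) ^ 3 ≤ (4 * (p:ℝ) ^ 2 - 10 * p) * (p + 4) := by nlinarith
  linarith

lemma wd_pos {p : ℕ} (hp : p.Prime) (h7 : 7 ≤ p) : 0 < wd p := by
  refine lt_of_lt_of_le ?_ (wd_ge hp h7)
  positivity

lemma wd_lt_one {p : ℕ} (hp : p.Prime) (h7 : 7 ≤ p) : wd p < 1 := by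
  refine lt_of_le_of_lt (wd_le hp) ?_
  have hp7 : (7:ℝ) ≤ p := by exact_mod_cast h7
  rw [div_lt_one (by linarith)]
  linarith

lemma wd_ratio {p : ℕ} (hp : p.Prime) (h7 : 7 ≤ p) : 4 / (p:ℝ) ≤ wd p / (1 - wd p) := by
  have hp7 : (7:ℝ) ≤ p := by exact_mod_cast h7
  have hp0 : (0:ℝ) < p := by linarith
  have h1 := wd_ge hp h7
  have h2 := wd_lt_one hp h7
  rw [div_le_div_iff₀ hp0 (by linarith)]
  rw [div_le_iff₀ (by linarith)] at h1
  linarith

end Pool.Agent.SqSig
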