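import Pool.Agent.Lib.Sieve.Residue

/-!
# Residue classes in three variables
-/

set_option autoImplicit false

open Finset

namespace Pool.Agent.SqSig

open Pool.Agent.Lib.Sieve

/-- triples -/
abbrev T3 := ℕ × ℕ × ℕ

/-- the predicate only depends on the residues -/
def Per (B : ℕ → T3 → Prop) : Prop := ∀ p : ℕ, ∀ x y : T3, x.1 ≡ y.1 [MOD p] →
  x.2.1 ≡ y.2.1 [MOD p] → x.2.2 ≡ y.2.2 [MOD p] → B p x → B p y

open Classical in
/-- residue triples with the property for all primes dividing `d` -/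
noncomputable def GR (B : ℕ → T3 → Prop) (d : ℕ) : Finset T3 :=
  ((range d) ×ˢ (range d ×ˢ range d)).filter (fun t => ∀ p ∈ d.primeFactors, B p t)

open Classical in
lemma mem_GR {B : ℕ → T3 → Prop} {d : ℕ} {t : T3} : t ∈ GR B d ↔
    (t.1 < d ∧ t.2.1 < d ∧ t.2.2 < d) ∧ ∀ p ∈ d.primeFactors, B p t := by
  unfold GR
  rw [mem_filter, mem_product, mem_product, mem_range, mem_range, mem_range]

/-- reduction -/
def red (a : ℕ) (t : T3) : T3 := (t.1 % a, t.2.1 % a, t.2.2 % a)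

lemma card_GR_mul {B : ℕ → T3 → Prop} (hB : Per B) {a b : ℕ} (ha : a ≠ 0) (hb : b ≠ 0)
    (hab : a.Coprime b) : (GR B (a * b)).card = (GR B a).card * (GR B b).card := by
  classical
  rw [← Finset.card_product]
  have hpf : (a * b).primeFactors = a.primeFactors ∪ b.primeFactors := Nat.primeFactors_mul ha hb
  have hmoda : ∀ x : ℕ, x % a ≡ x [MOD a] := fun x => Nat.mod_modEq x a
  have hmodb : ∀ x : ℕ, x % b ≡ x [MOD b] := fun x => Nat.mod_modEq x b
  refine Finset.card_nbij' (fun t => (red a t, red b t))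
    (fun x => ((Nat.chineseRemainder hab x.1.1 x.2.1 : ℕ),
      (Nat.chineseRemainder hab x.1.2.1 x.2.2.1 : ℕ), (Nat.chineseRemainder hab x.1.2.2 x.2.2.2 : ℕ)))
    ?_ ?_ ?_ ?_
  · intro t ht
    rw [mem_coe, mem_GR] at ht
    obtain ⟨-, ht⟩ := ht
    rw [mem_coe, mem_product, mem_GR, mem_GR]
    have pa := Nat.pos_of_ne_zero ha
    have pb := Nat.pos_of_ne_zero hb
    refine ⟨⟨⟨Nat.mod_lt _ pa, Nat.mod_lt _ pa, Nat.mod_lt _ pa⟩, ?_⟩,
      ⟨Nat.mod_lt _ pb, Nat.mod_lt _ pb, Nat.mod_lt _ pb⟩, ?_⟩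
    · intro p hp
      have hdvd := Nat.dvd_of_mem_primeFactors hp
      exact hB p t _ ((hmoda _).symm.of_dvd hdvd) ((hmoda _).symm.of_dvd hdvd)
        ((hmoda _).symm.of_dvd hdvd) (ht p (by rw [hpf]; exact mem_union_left _ hp))
    · intro p hp
      have hdvd := Nat.dvd_of_mem_primeFactors hp
      exact hB p t _ ((hmodb _).symm.of_dvd hdvd) ((hmodb _).symm.of_dvd hdvd)
        ((hmodb _).symm.of_dvd hdvd) (ht p (by rw [hpf]; exact mem_union_right _ hp))
  · rintro ⟨x, z⟩ hx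
    rw [mem_coe, mem_product, mem_GR, mem_GR] at hx
    obtain ⟨⟨hx1, hx2⟩, hz1, hz2⟩ := hx
    rw [mem_coe, mem_GR]
    refine ⟨⟨Nat.chineseRemainder_lt_mul hab _ _ ha hb, Nat.chineseRemainder_lt_mul hab _ _ ha hb,
      Nat.chineseRemainder_lt_mul hab _ _ ha hb⟩, ?_⟩
    intro p hp
    rw [hpf, mem_union] at hp
    rcases hp with hp | hp
    · have hdvd := Nat.dvd_of_mem_primeFactors hp
      exact hB p x _ (((Nat.chineseRemainder hab x.1 z.1).2.1).symm.of_dvd hdvd)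
        (((Nat.chineseRemainder hab x.2.1 z.2.1).2.1).symm.of_dvd hdvd)
        (((Nat.chineseRemainder hab x.2.2 z.2.2).2.1).symm.of_dvd hdvd) (hx2 p hp)
    · have hdvd := Nat.dvd_of_mem_primeFactors hp
      exact hB p z _ (((Nat.chineseRemainder hab x.1 z.1).2.2).symm.of_dvd hdvd)
        (((Nat.chineseRemainder hab x.2.1 z.2.1).2.2).symm.of_dvd hdvd)
        (((Nat.chineseRemainder hab x.2.2 z.2.2).2.2).symm.of_dvd hdvd) (hz2 p hp)
  · intro t ht
    rw [mem_coe, mem_GR] at ht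
    obtain ⟨⟨h1, h2, h3⟩, -⟩ := ht
    have key : ∀ r : ℕ, r < a * b → (Nat.chineseRemainder hab (r % a) (r % b) : ℕ) = r := by
      intro r hr
      obtain ⟨k1, k2⟩ := (Nat.chineseRemainder hab (r % a) (r % b)).2
      have k3 := Nat.chineseRemainder_lt_mul hab (r % a) (r % b) ha hb
      have k4 : (Nat.chineseRemainder hab (r % a) (r % b) : ℕ) ≡ r [MOD a * b] :=
        (Nat.modEq_and_modEq_iff_modEq_mul hab).mp
          ⟨k1.trans (Nat.mod_modEq _ _), k2.trans (Nat.mod_modEq _ _)⟩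
      exact Nat.ModEq.eq_of_lt_of_lt k4 k3 hr
    unfold red
    simp only
    rw [key _ h1, key _ h2, key _ h3]
  · rintro ⟨x, z⟩ hx
    rw [mem_coe, mem_product, mem_GR, mem_GR] at hx
    obtain ⟨⟨⟨hx1, hx2, hx3⟩, -⟩, ⟨hz1, hz2, hz3⟩, -⟩ := hx
    have key : ∀ u v : ℕ, u < a → v < b → (Nat.chineseRemainder hab u v : ℕ) % a = u ∧
        (Nat.chineseRemainder hab u v : ℕ) % b = v := by
      intro u v hu hv
      obtain ⟨k1, k2⟩ := (Nat.chineseRemainder hab u v).2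
      have k3 : (Nat.chineseRemainder hab u v : ℕ) % a = u % a := k1
      have k4 : (Nat.chineseRemainder hab u v : ℕ) % b = v % b := k2
      rw [Nat.mod_eq_of_lt hu] at k3
      rw [Nat.mod_eq_of_lt hv] at k4
      exact ⟨k3, k4⟩
    obtain ⟨a1, b1⟩ := key _ _ hx1 hz1
    obtain ⟨a2, b2⟩ := key _ _ hx2 hz2
    obtain ⟨a3, b3⟩ := key _ _ hx3 hz3
    unfold red
    simp only
    simp only at a1 b1 a2 b2 a3 b3
    rw [a1, a2, a3, b1, b2, b3]

lemma card_GR {B : ℕ → T3 → Prop} (hB : Per B) {d : ℕ} (hd : Squarefree d) :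
    (GR B d).card = ∏ p ∈ d.primeFactors, (GR B p).card := by
  induction d using Nat.recOnPosPrimePosCoprime with
  | prime_pow p n hp hn =>
    have hn1 : n = 1 := by
      by_contra h
      have h2 : 2 ≤ n := by omega
      have h3 : p * p ∣ p ^ n := by
        rw [← sq]; exact pow_dvd_pow p h2
      have := hd p h3
      exact hp.one_lt.ne' (Nat.isUnit_iff.mp this)
    subst hn1
    rw [pow_one] at *
    rw [hp.primeFactors, Finset.prod_singleton]
  | zero => exact absurd rfl hd.ne_zero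
  | one =>
    rw [Nat.primeFactors_one, Finset.prod_empty]
    have : GR B 1 = {(0, 0, 0)} := by
      ext ⟨x, y, z⟩
      rw [mem_GR, mem_singleton]
      simp only [Nat.lt_one_iff, Nat.primeFactors_one, Finset.notMem_empty, false_imp_iff,
        implies_true, and_true, Prod.mk.injEq]
    rw [this, card_singleton]
  | coprime a b ha hb hab iha ihb =>
    have ha0 : a ≠ 0 := by omega
    have hb0 : b ≠ 0 := by omega
    rw [card_GR_mul hB ha0 hb0 hab, Nat.primeFactors_mul ha0 hb0,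
      Finset.prod_union hab.disjoint_primeFactors,
      iha (hd.squarefree_of_dvd (Dvd.intro _ rfl)), ihb (hd.squarefree_of_dvd (Dvd.intro_left _ rfl))]

lemma alg1 (Q a b c d : ℝ) (hd : d ≠ 0) : Q / d ^ 3 * (a * b * c) = Q * (a / d * (b / d) * (c / d)) := by
  field_simp

lemma alg2 (a b c d : ℝ) (hd : d ≠ 0) : d ^ 3 * ((a / d + 1) * (b / d + 1) * (c / d + 1) -
    a / d * (b / d) * (c / d)) = (a + d) * (b + d) * (c + d) - a * b * c := by
  field_simp

lemma prod_close {x y z a b c : ℝ} (hx : 0 ≤ x) (hy : 0 ≤ y) (hz : 0 ≤ z) (ha : |a - x| ≤ 1)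
    (hb : |b - y| ≤ 1) (hc : |c - z| ≤ 1) :
    |a * (b * c) - x * y * z| ≤ (x + 1) * (y + 1) * (z + 1) - x * y * z := by
  set u := a - x with hu
  set v := b - y with hv
  set w := c - z with hw
  have e : a * (b * c) - x * y * z = x * y * w + x * z * v + y * z * u + x * (v * w) + y * (u * w) +
      z * (u * v) + u * v * w := by
    have h1 : a = x + u := by rw [hu]; ring
    have h2 : b = y + v := by rw [hv]; ring
    have h3 : c = z + w := by rw [hw]; ring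
    rw [h1, h2, h3]; ring
  have huv : |u * v| ≤ 1 := by rw [abs_mul]; exact mul_le_one₀ ha (abs_nonneg _) hb
  have huw : |u * w| ≤ 1 := by rw [abs_mul]; exact mul_le_one₀ ha (abs_nonneg _) hc
  have hvw : |v * w| ≤ 1 := by rw [abs_mul]; exact mul_le_one₀ hb (abs_nonneg _) hc
  have huvw : |u * v * w| ≤ 1 := by rw [abs_mul]; exact mul_le_one₀ huv (abs_nonneg _) hc
  have hxy : 0 ≤ x * y := mul_nonneg hx hy
  have hxz : 0 ≤ x * z := mul_nonneg hx hz
  have hyz : 0 ≤ y * z := mul_nonneg hy hz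
  rw [abs_le] at *
  rw [e]
  have m : ∀ t s : ℝ, 0 ≤ t → -1 ≤ s → s ≤ 1 → -t ≤ t * s ∧ t * s ≤ t := by
    intro t s h1 h2 h3
    constructor <;> nlinarith
  have m1 := m (x * y) w hxy hc.1 hc.2
  have m2 := m (x * z) v hxz hb.1 hb.2
  have m3 := m (y * z) u hyz ha.1 ha.2
  have m4 := m x (v * w) hx hvw.1 hvw.2
  have m5 := m y (u * w) hy huw.1 huw.2
  have m6 := m z (u * v) hz huv.1 huv.2
  have r : (x + 1) * (y + 1) * (z + 1) - x * y * z = x * y + x * z + y * z + x + y + z + 1 := by ring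
  rw [r]
  constructor <;> linarith [m1.1, m1.2, m2.1, m2.2, m3.1, m3.2, m4.1, m4.2, m5.1, m5.2, m6.1, m6.2,
    huvw.1, huvw.2]

/-- the box -/
def Bx (M1 N1 M2 N2 M3 N3 : ℕ) : Finset T3 :=
  (Ico M1 (M1 + N1)) ×ˢ (Ico M2 (M2 + N2) ×ˢ Ico M3 (M3 + N3))

open Classical in
lemma count_est {B : ℕ → T3 → Prop} (hB : Per B) (M1 N1 M2 N2 M3 N3 : ℕ) {d : ℕ} (hd : Squarefree d) :
    |(((Bx M1 N1 M2 N2 M3 N3).filter (fun x => ∀ p ∈ d.primeFactors, B p x)).card : ℝ) -
      (∏ p ∈ d.primeFactors, ((GR B p).card : ℝ) / (p:ℝ) ^ 3) * (N1 * N2 * N3)| ≤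
      (N1 + d) * (N2 + d) * (N3 + d) - N1 * N2 * N3 := by
  have hd0 : 0 < d := Nat.pos_of_ne_zero hd.ne_zero
  have hdR : (0:ℝ) < d := by exact_mod_cast hd0
  set box := Bx M1 N1 M2 N2 M3 N3 with hbox
  have h1 : ((box.filter (fun x => ∀ p ∈ d.primeFactors, B p x)).card : ℝ) =
      ∑ t ∈ GR B d, ((box.filter (fun x => red d x = t)).card : ℝ) := by
    have h2 : (box.filter (fun x => ∀ p ∈ d.primeFactors, B p x)).card =
        ∑ t ∈ GR B d, ((box.filter (fun x => ∀ p ∈ d.primeFactors, B p x)).filter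
          (fun x => red d x = t)).card := by
      refine Finset.card_eq_sum_card_fiberwise ?_
      intro x hx
      rw [mem_coe, mem_filter] at hx
      rw [mem_coe, mem_GR]
      refine ⟨⟨Nat.mod_lt _ hd0, Nat.mod_lt _ hd0, Nat.mod_lt _ hd0⟩, fun p hp => ?_⟩
      have hdvd := Nat.dvd_of_mem_primeFactors hp
      exact hB p x _ ((Nat.mod_modEq _ d).symm.of_dvd hdvd) ((Nat.mod_modEq _ d).symm.of_dvd hdvd)
        ((Nat.mod_modEq _ d).symm.of_dvd hdvd) (hx.2 p hp)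
    rw [h2]
    push_cast
    refine Finset.sum_congr rfl fun t ht => ?_
    congr 2
    rw [mem_GR] at ht
    ext x
    simp only [mem_filter]
    constructor
    · rintro ⟨⟨h3, _⟩, h4⟩; exact ⟨h3, h4⟩
    · rintro ⟨h3, h4⟩
      refine ⟨⟨h3, fun p hp => ?_⟩, h4⟩
      have hdvd := Nat.dvd_of_mem_primeFactors hp
      refine hB p t x ?_ ?_ ?_ (ht.2 p hp)
      · rw [← h4]; exact (Nat.mod_modEq _ d).of_dvd hdvd
      · rw [← h4]; exact (Nat.mod_modEq _ d).of_dvd hdvd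
      · rw [← h4]; exact (Nat.mod_modEq _ d).of_dvd hdvd
  have h3 : ∀ t ∈ GR B d, |((box.filter (fun x => red d x = t)).card : ℝ) -
      (N1:ℝ) / d * ((N2:ℝ) / d) * ((N3:ℝ) / d)| ≤
      ((N1:ℝ) / d + 1) * ((N2:ℝ) / d + 1) * ((N3:ℝ) / d + 1) -
        (N1:ℝ) / d * ((N2:ℝ) / d) * ((N3:ℝ) / d) := by
    intro t ht
    rw [mem_GR] at ht
    obtain ⟨⟨t1, t2, t3⟩, -⟩ := ht
    have h4 : box.filter (fun x => red d x = t) =
        ((Ico M1 (M1 + N1)).filter (fun n => n ≡ t.1 [MOD d])) ×ˢ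
        (((Ico M2 (M2 + N2)).filter (fun n => n ≡ t.2.1 [MOD d])) ×ˢ
        ((Ico M3 (M3 + N3)).filter (fun n => n ≡ t.2.2 [MOD d]))) := by
      ext ⟨x, y, z⟩
      obtain ⟨u, v, w⟩ := t
      simp only [hbox, Bx, mem_filter, mem_product, red, Prod.mk.injEq]
      simp only at t1 t2 t3
      have k : ∀ a b : ℕ, b < d → (a % d = b ↔ a ≡ b [MOD d]) := by
        intro a b hb
        unfold Nat.ModEq
        rw [Nat.mod_eq_of_lt hb]
      rw [k x u t1, k y v t2, k z w t3]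
      tauto
    rw [h4, card_product, card_product]
    push_cast
    exact prod_close (by positivity) (by positivity) (by positivity)
      (abs_card_modEq_sub_le M1 N1 hd0 t.1) (abs_card_modEq_sub_le M2 N2 hd0 t.2.1)
      (abs_card_modEq_sub_le M3 N3 hd0 t.2.2)
  have h5 : (∏ p ∈ d.primeFactors, ((GR B p).card : ℝ) / (p:ℝ) ^ 3) * (N1 * N2 * N3) =
      ∑ t ∈ GR B d, (N1:ℝ) / d * ((N2:ℝ) / d) * ((N3:ℝ) / d) := by
    rw [Finset.sum_const, nsmul_eq_mul, card_GR hB hd]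
    have h6 : ∏ p ∈ d.primeFactors, ((GR B p).card : ℝ) / (p:ℝ) ^ 3 =
        (∏ p ∈ d.primeFactors, ((GR B p).card : ℝ)) / (d:ℝ) ^ 3 := by
      rw [Finset.prod_div_distrib, Finset.prod_pow]
      congr 2
      rw [← Nat.cast_prod, Nat.prod_primeFactors_of_squarefree hd]
    rw [h6, Nat.cast_prod]
    exact alg1 _ _ _ _ _ hdR.ne'
  rw [h1, h5, ← Finset.sum_sub_distrib]
  refine (Finset.abs_sum_le_sum_abs _ _).trans ((Finset.sum_le_sum h3).trans ?_)
  rw [Finset.sum_const, nsmul_eq_mul]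
  have h7 : ((GR B d).card : ℝ) ≤ (d:ℝ) ^ 3 := by
    have : (GR B d).card ≤ d * (d * d) := by
      unfold GR
      refine (card_filter_le _ _).trans (le_of_eq ?_)
      rw [card_product, card_product, card_range]
    have h8 : ((GR B d).card : ℝ) ≤ d * (d * d) := by exact_mod_cast this
    linarith [show (d:ℝ) * (d * d) = d ^ 3 by ring]
  have h9 : 0 ≤ ((N1:ℝ) / d + 1) * ((N2:ℝ) / d + 1) * ((N3:ℝ) / d + 1) -
        (N1:ℝ) / d * ((N2:ℝ) / d) * ((N3:ℝ) / d) := by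
    have : ((N1:ℝ) / d + 1) * ((N2:ℝ) / d + 1) * ((N3:ℝ) / d + 1) -
        (N1:ℝ) / d * ((N2:ℝ) / d) * ((N3:ℝ) / d) = (N1:ℝ) / d * ((N2:ℝ) / d) + (N1:ℝ) / d * ((N3:ℝ) / d) +
        (N2:ℝ) / d * ((N3:ℝ) / d) + (N1:ℝ) / d + (N2:ℝ) / d + (N3:ℝ) / d + 1 := by ring
    rw [this]; positivity
  exact (mul_le_mul_of_nonneg_right h7 h9).trans (le_of_eq (alg2 _ _ _ _ hdR.ne'))

end Pool.Agent.SqSig
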